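import Pool.Agent.V8H94.SC.Main

/-!
# Adelic birational sections
-/

set_option autoImplicit false
set_option linter.unusedSectionVars false

open IsDedekindDomain NumberField Pool.Agent.TH954 Pool.Agent.W620.SC Polynomial

namespace Pool.Agent.V8H94.SC

section const

variable {K : Type} [Field K] [NumberField K] {M : Type} [Field M] [Algebra K M]
  {A : SAct K M} {pl : ∀ v : HeightOneSpectrum (𝓞 K),
    Plc K M (AlgebraicClosure (v.adicCompletion K))}

/-- a rational number outside a finite set -/
lemma exists_nat_notMem (R : Finset (AlgebraicClosure K)) :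
    ∃ a : ℕ, (a : AlgebraicClosure K) ∉ R := by
  have h3 : (Set.range (Nat.cast : ℕ → AlgebraicClosure K)).Infinite :=
    Set.infinite_range_of_injective Nat.cast_injective
  obtain ⟨x, ⟨a, rfl⟩, hx⟩ := h3.exists_notMem_finset R
  exact ⟨a, hx⟩

/-- everywhere regular elements of the fixed field with finitely many values are constant -/
theorem const_of_dset [IsAlgClosed M] (hpl : ∀ v, GeoPlc A (pl v)) {u : M} (hu : DSet A pl u) :
    ∃ c : K, ∀ v, (pl v).val u (algebraMap K (AlgebraicClosure (v.adicCompletion K)) c) := by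
  classical
  obtain ⟨huf, huW, R, hR⟩ := hu
  obtain ⟨a, ha⟩ := exists_nat_notMem R
  have hcv : ∀ v : HeightOneSpectrum (𝓞 K), CharZero (v.adicCompletion K) := fun v =>
    charZero_of_injective_algebraMap (algebraMap K (v.adicCompletion K)).injective
  have hval : ∀ v, ∃ t : v.adicCompletion K,
      (pl v).val u (algebraMap _ (AlgebraicClosure (v.adicCompletion K)) t) := by
    intro v
    obtain ⟨t, ht⟩ := value_base A (hpl v) huf (huW v)
    exact ⟨t, huW v, ht.symm⟩
  choose t ht using hval
  have hta : ∀ v, (pl v).val (u - (a : M))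
      (algebraMap _ (AlgebraicClosure (v.adicCompletion K)) (t v - (a : v.adicCompletion K))) := by
    intro v
    rw [map_sub, map_natCast]
    exact (ht v).sub (Plc.val_natCast a)
  have hta0 : ∀ v, t v - (a : v.adicCompletion K) ≠ 0 := by
    intro v h0
    obtain ⟨β, hβ, hv⟩ := hR v (huW v)
    apply ha
    have h1 := hv.unique (ht v)
    have h2 : (pl v).iot A.j β = (pl v).iot A.j (a : AlgebraicClosure K) := by
      rw [h1, sub_eq_zero.1 h0, map_natCast, map_natCast]
    rw [← ((pl v).iot A.j).injective h2]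
    exact hβ
  obtain ⟨v0⟩ := exists_place K
  have hua0 : u - (a : M) ≠ 0 := by
    intro h0
    have h1 := hta v0
    rw [h0] at h1
    exact (_root_.map_ne_zero _).2 (hta0 v0) (Plc.val_zero.unique h1).symm
  have huaf : u - (a : M) ∈ A.fix := sub_mem huf (natCast_mem A.fix a)
  -- the polynomial
  have hRint : ∀ β : AlgebraicClosure K, IsIntegral K β := fun β => Algebra.IsIntegral.isIntegral β
  set q : K[X] := ∏ β ∈ R, (minpoly K β).comp (X + C (a : K)) with hq
  obtain ⟨y, hy⟩ := zed (fun v => t v - (a : v.adicCompletion K)) hta0 (by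
    intro N hN
    obtain ⟨c, hc, g, hg, hcg⟩ := A.kummer huaf hua0 (n := N) (by omega)
    refine ⟨c, fun v => ?_⟩
    have hc0 : algebraMap K M c ≠ 0 := (_root_.map_ne_zero _).2 hc
    have hgN : g ^ N ∈ (pl v).W := by
      have e : g ^ N = (u - (a : M)) * algebraMap K M c⁻¹ := by
        rw [hcg, map_inv₀]
        field_simp
      rw [e]
      exact mul_mem (hta v).mem ((pl v).alg_mem _)
    have hgW : g ∈ (pl v).W := Plc.mem_of_pow_mem (n := N) (by omega) hgN
    obtain ⟨z, hz⟩ := value_base A (hpl v) hg hgW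
    refine ⟨z, ?_⟩
    have h1 := (Plc.val_alg (pl := pl v) c).mul (Plc.val.pow ⟨hgW, hz.symm⟩ N)
    rw [← hcg] at h1
    have h2 := (hta v).unique h1
    apply (algebraMap (v.adicCompletion K) (AlgebraicClosure (v.adicCompletion K))).injective
    rw [h2, map_mul, map_pow, ← IsScalarTower.algebraMap_apply]) (q := q) (by
    rw [hq, Finset.prod_ne_zero_iff]
    intro β _ h0
    have h1 := congrArg (fun p : K[X] => p.comp (X - C (a : K))) h0
    simp only [comp_assoc, add_comp, X_comp, C_comp, sub_add_cancel, comp_X, zero_comp] at h1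
    exact minpoly.ne_zero (hRint β) h1) (by
    intro v
    obtain ⟨β, hβ, hv⟩ := hR v (huW v)
    rw [hq, map_prod]
    refine Finset.prod_eq_zero hβ ?_
    rw [aeval_comp]
    have h3 : aeval (t v - (a : v.adicCompletion K)) (X + C (a : K)) = t v := by
      simp
    rw [h3]
    apply (algebraMap (v.adicCompletion K) (AlgebraicClosure (v.adicCompletion K))).injective
    rw [← aeval_algebraMap_apply, ← hv.unique (ht v), aeval_algHom_apply, minpoly.aeval,
      map_zero, map_zero])
  refine ⟨y + a, fun v => ?_⟩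
  have h1 := ht v
  have h2 : t v = algebraMap K (v.adicCompletion K) (y + a) := by
    rw [map_add, ← hy v, map_natCast]
    ring
  rw [h2, ← IsScalarTower.algebraMap_apply] at h1
  exact h1

/-- the valuation rings have the same elements of the fixed field with finitely many values -/
theorem mem_iff_mem [IsAlgClosed M] (hpl : ∀ v, GeoPlc A (pl v)) (hfinV : ∀ x, FinVal A pl x)
    {h : M} (hh : h ∈ A.fix) (v v' : HeightOneSpectrum (𝓞 K)) (hv : h ∈ (pl v).W) :
    h ∈ (pl v').W := by
  classical
  obtain ⟨R, hR⟩ := hfinV h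
  obtain ⟨a, ha⟩ := exists_nat_notMem R
  by_cases hha : h - (a : M) = 0
  · rw [sub_eq_zero] at hha
    rw [hha]
    exact natCast_mem _ a
  have hreg : ∀ v, (h - (a : M))⁻¹ ∈ (pl v).W := by
    intro v
    by_cases hv : h ∈ (pl v).W
    · obtain ⟨β, hβ, hval⟩ := hR v hv
      have h1 := hval.sub (Plc.val_natCast (pl := pl v) a)
      refine (h1.inv ?_).mem
      intro h0
      apply ha
      have h2 : (pl v).iot A.j (β - (a : AlgebraicClosure K)) = 0 := by
        rw [map_sub, map_natCast]
        exact h0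
      rw [_root_.map_eq_zero, sub_eq_zero] at h2
      rw [← h2]
      exact hβ
    · refine (Plc.val_inv_of_notMem (fun h1 => hv ?_)).mem
      have h2 := add_mem h1 (natCast_mem (pl v).W a)
      rwa [sub_add_cancel] at h2
  obtain ⟨c, hc⟩ := const_of_dset hpl
    (u := (h - (a : M))⁻¹) ⟨inv_mem (sub_mem hh (natCast_mem A.fix a)), hreg, hfinV _⟩
  have hc0 : c ≠ 0 := by
    rintro rfl
    have h1 := hc v
    rw [map_zero] at h1
    apply Plc.notMem_of_val_inv hha h1
    exact sub_mem hv (natCast_mem (pl v).W a)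
  have h1 := ((hc v').inv ((_root_.map_ne_zero _).2 hc0)).mem
  rw [inv_inv] at h1
  have h2 := add_mem h1 (natCast_mem (pl v').W a)
  rwa [sub_add_cancel] at h2

end const

variable {K : Type} [Field K] [NumberField K] {F Ω B : Type} [Field F] [Field Ω] [Field B]
  [Algebra K F] [Algebra F Ω] [Algebra K Ω] [Algebra K B] [IsScalarTower K F Ω]
  [IsAlgClosure F Ω] [IsAlgClosure K B]

/-- a section all of whose local points are zeros of one function comes from a point -/
theorem bir_of_zero (hF : ∃ t : F, Transcendental K t ∧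
      Algebra.IsAlgebraic (IntermediateField.adjoin K {t}) F)
    (s : GalSection K F Ω B)
    (pl : ∀ v : HeightOneSpectrum (𝓞 K), Plc K Ω (AlgebraicClosure (v.adicCompletion K)))
    (hpl : ∀ v, GeoPlc (toSAct s) (pl v)) {t0 : F} (ht0 : t0 ≠ 0)
    (hzero : ∀ v, (pl v).val (algebraMap F Ω t0) 0) :
    ∃ O : ValuationSubring F, s.ArisesFrom O ∧ (∀ O', s.ArisesFrom O' → O' = O) ∧
      ∀ v, (pl v).W.comap (algebraMap F Ω) = O := by
  have hΩ1 : IsAlgClosed Ω := IsAlgClosure.isAlgClosed F
  have hΩ2 : Algebra.IsAlgebraic F Ω := IsAlgClosure.isAlgebraic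
  have hcF : CharZero F := charZero_of_injective_algebraMap (algebraMap K F).injective
  have hcΩ : CharZero Ω :=
    charZero_of_injective_algebraMap (algebraMap F Ω).injective
  have hcv : ∀ v : HeightOneSpectrum (𝓞 K), CharZero (v.adicCompletion K) := fun v =>
    charZero_of_injective_algebraMap (algebraMap K (v.adicCompletion K)).injective
  set A := toSAct s with hA
  have hAF : ∀ (τ : AlgebraicClosure K ≃ₐ[K] AlgebraicClosure K) (x : F),
      A.s τ (algebraMap F Ω x) = algebraMap F Ω x :=
    fun τ x => (s.s ((eqv K B).autCongr τ)).commutes x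
  have hfinV : ∀ x, FinVal A pl x := by
    refine finVal_of_alg A pl (t := algebraMap F Ω t0)
      ((_root_.map_ne_zero _).2 ht0) hzero (fun x hx => ?_)
    exact (alg_adjoin_of_dim hF x hx).isAlgebraic _
  obtain ⟨U, hU⟩ := exists_ultra (A := A) (pl := pl) hpl
  have hfixF : ∀ x : F, algebraMap F Ω x ∈ A.fix := fun x τ => hAF τ x
  have hst : ∀ (g : B ≃ₐ[K] B) (x : Ω), x ∈ limW pl U → s.s g x ∈ limW pl U := by
    intro g x hx
    rw [← toSAct_s s]
    exact limW_stable hU hfinV _ hx
  have hsame : ∀ v, (pl v).W.comap (algebraMap F Ω) = (limW pl U).comap (algebraMap F Ω) := by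
    intro v
    ext x
    rw [ValuationSubring.mem_comap, ValuationSubring.mem_comap, mem_limW]
    constructor
    · intro h
      exact Filter.Eventually.of_forall (fun v' => mem_iff_mem hpl hfinV (hfixF x) v v' h)
    · intro h
      obtain ⟨v', hv'⟩ := h.exists
      exact mem_iff_mem hpl hfinV (hfixF x) v' v hv'
  have hres : ∀ a ∈ (limW pl U).comap (algebraMap F Ω), ∃ c : K,
      ((limW pl U).comap (algebraMap F Ω)).valuation (a - algebraMap K F c) < 1 := by
    intro a ha
    obtain ⟨c, hc⟩ := exists_value hU (hfixF a) (hfinV _) ha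
    refine ⟨c, (ValuationSubring.mem_nonunits_iff_or _).2 ?_⟩
    by_cases h0 : a - algebraMap K F c = 0
    · exact Or.inl h0
    · right
      intro h3
      have h4 := mem_limW.1 (ValuationSubring.mem_comap.1 h3)
      obtain ⟨v, hv1, hv2⟩ := (hc.and h4).exists
      have h5 : (pl v).val (algebraMap F Ω (a - algebraMap K F c)) 0 := by
        have := hv1.sub (Plc.val_alg (pl := pl v) c)
        rw [sub_self] at this
        rw [map_sub, ← IsScalarTower.algebraMap_apply]
        exact this
      rw [map_inv₀] at hv2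
      refine Plc.notMem_of_val_inv (pl := pl v)
        (x := (algebraMap F Ω (a - algebraMap K F c))⁻¹)
        (inv_ne_zero ((_root_.map_ne_zero _).2 h0)) ?_ hv2
      rw [inv_inv]
      exact h5
  have hcon : ∀ c : K, algebraMap K F c ∈ (limW pl U).comap (algebraMap F Ω) := by
    intro c
    rw [ValuationSubring.mem_comap, ← IsScalarTower.algebraMap_apply]
    exact alg_mem_limW c
  refine ⟨(limW pl U).comap (algebraMap F Ω), ⟨?_, hcon, hres, limW pl U, rfl,
    fun g x => ⟨fun h => ?_, hst g x⟩⟩, ?_, hsame⟩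
  · intro htop
    have h3 : t0⁻¹ ∈ (limW pl U).comap (algebraMap F Ω) := by
      rw [htop]
      exact ValuationSubring.mem_top _
    obtain ⟨v, hv⟩ := (mem_limW.1 (ValuationSubring.mem_comap.1 h3)).exists
    rw [map_inv₀] at hv
    refine Plc.notMem_of_val_inv (pl := pl v) (x := (algebraMap F Ω t0)⁻¹)
      (inv_ne_zero ((_root_.map_ne_zero _).2 ht0)) ?_ hv
    rw [inv_inv]
    exact hzero v
  · have h3 := hst g⁻¹ _ h
    have h4 : s.s g⁻¹ (s.s g x) = x := by
      change (s.s g⁻¹ * s.s g) x = x
      rw [← map_mul, inv_mul_cancel, map_one]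
      rfl
    rwa [h4] at h3
  · rintro O ⟨-, hO2, hO3, W, hW, hO4⟩
    exact unique_ring A hfixF O _ hO2 hcon hO3 hres W (limW pl U) hW rfl
      (fun τ x hx => (hO4 _ x).2 hx) (fun τ x hx => limW_stable hU hfinV τ hx)

/-- the main theorem on birational sections -/
theorem bir_main (hF : ∃ t : F, Transcendental K t ∧
      Algebra.IsAlgebraic (IntermediateField.adjoin K {t}) F)
    (s : GalSection K F Ω B)
    (p : ∀ v : HeightOneSpectrum (𝓞 K), Plc K Ω (AlgebraicClosure (v.adicCompletion K)))
    (hp : ∀ v, s.GivenBy (v.adicCompletion K) (p v))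
    {f : F} (hfc : ∀ c : K, f ≠ algebraMap K F c)
    {m : ℕ} (hm : Small K m) (g : Fin m → K[X])
    (hcop : ∀ i j, i ≠ j → IsCoprime (g i) (g j)) (hdeg : ∀ j, 0 < (g j).natDegree)
    (x : ∀ v : HeightOneSpectrum (𝓞 K), v.adicCompletion K)
    (hx : ∀ v, (p v).val (algebraMap F Ω f)
      (algebraMap _ (AlgebraicClosure (v.adicCompletion K)) (x v)))
    (hnz : ∀ v j, aeval (x v) (g j) ≠ 0)
    (hfin : ∀ j, {v | Valued.v (aeval (x v) (g j)) ≠ 1}.Finite) :
    ∃ O : ValuationSubring F, s.ArisesFrom O ∧ (∀ O', s.ArisesFrom O' → O' = O) ∧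
      ∀ v, (p v).W.comap (algebraMap F Ω) = O := by
  have hΩ1 : IsAlgClosed Ω := IsAlgClosure.isAlgClosed F
  have hΩ2 : Algebra.IsAlgebraic F Ω := IsAlgClosure.isAlgebraic
  obtain ⟨y, ⟨hy, -⟩, -⟩ := et_main (K := K) (F := F) (Ω := Ω) (M := Ω) (B := B) ∅
    (fun O hO => absurd hO (Set.notMem_empty O)) (AlgHom.id F Ω) (by
      intro x _
      exact ⟨x, rfl⟩) hm g hcop hdeg (f := f) (fun O hO => absurd hO (Set.notMem_empty O)) s p hp
      x hx hnz hfin
  refine bir_of_zero hF s p (fun v => geoPlc_of_givenBy s (hp v)) (t0 := f - algebraMap K F y)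
    (sub_ne_zero.2 (hfc y)) (fun v => ?_)
  have h1 := hx v
  rw [hy v, ← IsScalarTower.algebraMap_apply] at h1
  have h2 := h1.sub (Plc.val_alg (pl := p v) y)
  rw [sub_self] at h2
  rw [map_sub, ← IsScalarTower.algebraMap_apply]
  exact h2

end Pool.Agent.V8H94.SC
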