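import Pool.Agent.V8H94.SC.Eqs

/-!
# Adelic points of curves with many units have algebraic components
-/

set_option autoImplicit false
set_option linter.unusedSectionVars false

open NumberField IsDedekindDomain WithZero Polynomial

namespace Pool.Agent.V8H94.SC

/-- the pigeonhole principle for divisibility -/
theorem exists_cofinal {α : Type*} (S : Set α) (hS : S.Finite) (P : ℕ → α → Prop)
    (h : ∀ N, 1 ≤ N → ∃ a ∈ S, P N a) :
    ∃ a ∈ S, ∀ n, 1 ≤ n → ∃ N, 1 ≤ N ∧ n ∣ N ∧ P N a := by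
  classical
  by_contra hcon
  push Not at hcon
  have h1 : ∀ a, ∃ n, 1 ≤ n ∧ (a ∈ S → ∀ N, 1 ≤ N → n ∣ N → ¬ P N a) := by
    intro a
    by_cases ha : a ∈ S
    · obtain ⟨n, hn, h2⟩ := hcon a ha
      exact ⟨n, hn, fun _ => h2⟩
    · exact ⟨1, le_rfl, fun h2 => absurd h2 ha⟩
  choose n hn1 hn2 using h1
  have hN : 1 ≤ ∏ a ∈ hS.toFinset, n a := Finset.one_le_prod' (fun a _ => hn1 a)
  obtain ⟨a, ha, hPa⟩ := h _ hN
  exact hn2 a ha _ hN (Finset.dvd_prod_of_mem n (hS.mem_toFinset.2 ha)) hPa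

section

variable {K : Type} [Field K] [NumberField K]

lemma val_alg (v : HeightOneSpectrum (𝓞 K)) (x : K) :
    Valued.v (algebraMap K (v.adicCompletion K) x) = v.valuation K x :=
  HeightOneSpectrum.valuedAdicCompletion_eq_valuation' v x

/-- elements with trivial valuations are units -/
lemma exists_unit {x : K} (hx : ∀ v : HeightOneSpectrum (𝓞 K), v.valuation K x = 1) :
    ∃ u : (𝓞 K)ˣ, ((u : 𝓞 K) : K) = x := by
  by_cases hx0 : x = 0
  · subst hx0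
    by_cases hK : Nonempty (HeightOneSpectrum (𝓞 K))
    · obtain ⟨v⟩ := hK
      have := hx v
      rw [map_zero] at this
      exact absurd this zero_ne_one
    · exfalso
      apply hK
      obtain ⟨P, hP0, hP⟩ := Ring.not_isField_iff_exists_prime.1
        (RingOfIntegers.not_isField K)
      exact ⟨⟨P, hP, hP0⟩⟩
  · obtain ⟨a, ha⟩ := HeightOneSpectrum.mem_integers_of_valuation_le_one (R := 𝓞 K) K x
      (fun v => (hx v).le)
    obtain ⟨b, hb⟩ := HeightOneSpectrum.mem_integers_of_valuation_le_one (R := 𝓞 K) K x⁻¹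
      (fun v => by rw [map_inv₀, hx v, inv_one])
    have hab : a * b = 1 := by
      apply FaithfulSMul.algebraMap_injective (𝓞 K) K
      rw [map_mul, ha, hb, map_one, mul_inv_cancel₀ hx0]
    exact ⟨⟨a, b, hab, by rw [mul_comm, hab]⟩, ha⟩

/-- the Kummer data, up to units -/
theorem unit_form (K : Type) [Field K] [NumberField K] : ∃ h : ℕ, 1 ≤ h ∧
    ∀ t : ∀ v : HeightOneSpectrum (𝓞 K), v.adicCompletion K, (∀ v, t v ≠ 0) →
      {v | Valued.v (t v) ≠ 1}.Finite →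
      (∀ N : ℕ, 1 ≤ N → ∃ c : K, ∀ v, ∃ z, t v = algebraMap K _ c * z ^ N) →
      ∃ γ : K, γ ≠ 0 ∧ ∀ N : ℕ, 1 ≤ N → ∃ η : (𝓞 K)ˣ, ∀ v, ∃ z,
        t v ^ h = algebraMap K (v.adicCompletion K) γ *
          algebraMap K (v.adicCompletion K) ((η : 𝓞 K) : K) * z ^ N := by
  classical
  obtain ⟨h, hh, hgen⟩ := exists_gen K
  refine ⟨h, hh, fun t ht0 hfin hk => ?_⟩
  have ha : ∀ v, ∃ a : ℤ, Valued.v (t v) = exp a := fun v =>
    ⟨log (Valued.v (t v)), (exp_log ((Valuation.ne_zero_iff _).2 (ht0 v))).symm⟩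
  choose a ha using ha
  have ha1 : (Function.support a).Finite := by
    refine hfin.subset (fun v hv => ?_)
    intro h1
    rw [ha v, ← exp_zero] at h1
    exact hv (exp_injective h1)
  obtain ⟨γ, hγ0, hγ⟩ := hgen a ha1
  refine ⟨γ, hγ0, fun N hN => ?_⟩
  obtain ⟨c, hc⟩ := hk N hN
  choose z hz using hc
  have hv : Nonempty (HeightOneSpectrum (𝓞 K)) := by
    obtain ⟨P, hP0, hP⟩ := Ring.not_isField_iff_exists_prime.1 (RingOfIntegers.not_isField K)
    exact ⟨⟨P, hP, hP0⟩⟩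
  have hc0 : c ≠ 0 := by
    rintro rfl
    obtain ⟨v⟩ := hv
    apply ht0 v
    rw [hz v, map_zero, zero_mul]
  have hz0 : ∀ v, z v ≠ 0 := by
    intro v h1
    apply ht0 v
    rw [hz v, h1, zero_pow (by omega), mul_zero]
  have hb : ∀ v, ∃ b : ℤ, Valued.v (z v) = exp b := fun v =>
    ⟨log (Valued.v (z v)), (exp_log ((Valuation.ne_zero_iff _).2 (hz0 v))).symm⟩
  choose b hb using hb
  have hrel : ∀ v, v.valuation K c * exp (N * b v) = exp (a v) := by
    intro v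
    have h1 := congrArg Valued.v (hz v)
    rw [map_mul, map_pow, ha, hb, val_alg, ← exp_nsmul] at h1
    rw [h1]
    congr 2
  have hb1 : (Function.support b).Finite := by
    refine (ha1.union (finite_val_ne_one hc0)).subset (fun v hv => ?_)
    by_contra h1
    rw [Set.mem_union, not_or] at h1
    obtain ⟨h2, h3⟩ := h1
    have h4 : a v = 0 := by
      by_contra h5
      exact h2 h5
    have h5 : v.valuation K c = 1 := by
      by_contra h6
      exact h3 h6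
    have h6 := hrel v
    rw [h4, h5, one_mul] at h6
    have h7 := exp_injective h6
    have h8 : (N : ℤ) ≠ 0 := by exact_mod_cast (by omega : N ≠ 0)
    exact hv ((mul_eq_zero.1 h7).resolve_left h8)
  obtain ⟨β, hβ0, hβ⟩ := hgen b hb1
  obtain ⟨η, hη⟩ := exists_unit (x := c ^ h * β ^ N / γ) (by
    intro v
    rw [map_div₀, map_mul, map_pow, map_pow, hβ, hγ]
    have h1 : v.valuation K c = exp (a v - N * b v) := by
      have h2 := hrel v
      rw [sub_eq_add_neg, exp_add, ← h2, mul_assoc, ← exp_add]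
      simp
    rw [h1, ← exp_nsmul, ← exp_nsmul, ← exp_add, ← exp_sub, ← exp_zero]
    congr 1
    simp
    ring)
  refine ⟨η, fun v => ⟨z v ^ h / algebraMap K _ β, ?_⟩⟩
  have hβ' : algebraMap K (v.adicCompletion K) β ≠ 0 := (_root_.map_ne_zero _).2 hβ0
  have hγ' : algebraMap K (v.adicCompletion K) γ ≠ 0 := (_root_.map_ne_zero _).2 hγ0
  have hη' : ((η : 𝓞 K) : K) = c ^ h * β ^ N / γ := hη
  have e : (z v ^ h / algebraMap K (v.adicCompletion K) β) ^ N =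
      (z v ^ N) ^ h / algebraMap K (v.adicCompletion K) β ^ N := by
    rw [div_pow, ← pow_mul, ← pow_mul, mul_comm]
  rw [hη', hz v, map_div₀, map_mul, map_pow, map_pow, e, mul_pow]
  have hβN := pow_ne_zero N hβ'
  field_simp

variable {L : Type} [Field L] [NumberField L]

/-- the twisted norms are constants -/
theorem norm_const (Φ : Finset (K →+* L))
    (hΦ : (Set.range fun u : (𝓞 K)ˣ => ∏ τ ∈ Φ, τ ((u : 𝓞 K) : K)).Finite) {h : ℕ}
    {t : ∀ v : HeightOneSpectrum (𝓞 K), v.adicCompletion K} (ht0 : ∀ v, t v ≠ 0)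
    {γ : K} (hγ : γ ≠ 0)
    (hk : ∀ N : ℕ, 1 ≤ N → ∃ η : (𝓞 K)ˣ, ∀ v, ∃ z,
        t v ^ h = algebraMap K (v.adicCompletion K) γ *
          algebraMap K (v.adicCompletion K) ((η : 𝓞 K) : K) * z ^ N) :
    ∃ R : L, R ≠ 0 ∧ ∀ (w : HeightOneSpectrum (𝓞 L)) (T : (K →+* L) → w.adicCompletion L),
      (∀ τ ∈ Φ, ∃ (v : HeightOneSpectrum (𝓞 K)) (j : v.adicCompletion K →+* w.adicCompletion L),
        (∀ x : K, j (algebraMap K _ x) = algebraMap L _ (τ x)) ∧ T τ = j (t v)) →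
      (∏ τ ∈ Φ, T τ) ^ h = algebraMap L (w.adicCompletion L) R := by
  classical
  obtain ⟨ξ, ⟨u0, hu0⟩, hξ⟩ := exists_cofinal _ hΦ (fun N a => ∃ η : (𝓞 K)ˣ,
    (∏ τ ∈ Φ, τ ((η : 𝓞 K) : K) = a) ∧ ∀ v, ∃ z,
        t v ^ h = algebraMap K (v.adicCompletion K) γ *
          algebraMap K (v.adicCompletion K) ((η : 𝓞 K) : K) * z ^ N) (by
    intro N hN
    obtain ⟨η, hη⟩ := hk N hN
    exact ⟨_, ⟨η, rfl⟩, η, rfl, hη⟩)
  have hξ0 : ξ ≠ 0 := by
    rw [← hu0]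
    refine Finset.prod_ne_zero_iff.2 (fun τ _ => (_root_.map_ne_zero τ).2 ?_)
    exact fun h0 => u0.ne_zero (RingOfIntegers.coe_injective h0)
  have hR0 : (∏ τ ∈ Φ, τ γ) * ξ ≠ 0 := mul_ne_zero
    (Finset.prod_ne_zero_iff.2 (fun τ _ => (_root_.map_ne_zero τ).2 hγ)) hξ0
  refine ⟨(∏ τ ∈ Φ, τ γ) * ξ, hR0, fun w T hT => ?_⟩
  have hex : ∀ τ, ∃ (v : HeightOneSpectrum (𝓞 K)) (j : v.adicCompletion K →+* w.adicCompletion L),
      τ ∈ Φ → (∀ x : K, j (algebraMap K _ x) = algebraMap L _ (τ x)) ∧ T τ = j (t v) := by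
    intro τ
    by_cases hτ : τ ∈ Φ
    · obtain ⟨v, j, h1, h2⟩ := hT τ hτ
      exact ⟨v, j, fun _ => ⟨h1, h2⟩⟩
    · obtain ⟨v, j, -⟩ := exists_under τ w
      exact ⟨v, j, fun h1 => absurd h1 hτ⟩
  choose V j hj using hex
  have hRw : algebraMap L (w.adicCompletion L) ((∏ τ ∈ Φ, τ γ) * ξ) ≠ 0 :=
    (_root_.map_ne_zero _).2 hR0
  have hT0 : (∏ τ ∈ Φ, T τ) ^ h ≠ 0 := by
    refine pow_ne_zero _ (Finset.prod_ne_zero_iff.2 (fun τ hτ => ?_))
    rw [(hj τ hτ).2]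
    exact (_root_.map_ne_zero _).2 (ht0 _)
  have key : (∏ τ ∈ Φ, T τ) ^ h / algebraMap L (w.adicCompletion L) ((∏ τ ∈ Φ, τ γ) * ξ) = 1 := by
    refine eq_one_of_pow w (div_ne_zero hT0 hRw) (fun n hn => ?_)
    obtain ⟨N, hN, ⟨m, rfl⟩, η, hη, hz⟩ := hξ n hn
    choose z hz using hz
    refine ⟨∏ τ ∈ Φ, j τ (z (V τ)) ^ m, ?_⟩
    rw [div_eq_iff hRw, map_mul, ← hη, map_prod, map_prod, ← Finset.prod_pow,
      ← Finset.prod_pow, ← Finset.prod_mul_distrib, ← Finset.prod_mul_distrib]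
    refine Finset.prod_congr rfl (fun τ hτ => ?_)
    obtain ⟨h1, h2⟩ := hj τ hτ
    rw [h2, ← map_pow, hz (V τ), map_mul, map_mul, map_pow, h1, h1, ← pow_mul, mul_comm m n]
    ring
  rw [div_eq_one_iff_eq hRw] at key
  exact key

/-- **the local components satisfy one polynomial equation** -/
theorem exists_poly_local (Φ : Finset (K →+* L)) (hne : Φ.Nonempty)
    (hΦ : (Set.range fun u : (𝓞 K)ˣ => ∏ τ ∈ Φ, τ ((u : 𝓞 K) : K)).Finite)
    {m : ℕ} (hm : Φ.card ≤ m) (g : Fin m → K[X])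
    (hcop : ∀ i j, i ≠ j → IsCoprime (g i) (g j)) (hdeg : ∀ j, 0 < (g j).natDegree)
    (x : ∀ v : HeightOneSpectrum (𝓞 K), v.adicCompletion K)
    (hnz : ∀ v j, aeval (x v) (g j) ≠ 0)
    (hfin : ∀ j, {v | Valued.v (aeval (x v) (g j)) ≠ 1}.Finite)
    (hk : ∀ j, ∀ N : ℕ, 1 ≤ N → ∃ c : K, ∀ v, ∃ z, aeval (x v) (g j) =
      algebraMap K (v.adicCompletion K) c * z ^ N) :
    ∃ q : K[X], q ≠ 0 ∧ ∀ v, aeval (x v) q = 0 := by
  classical
  obtain ⟨h, hh, hform⟩ := unit_form K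
  have hγ : ∀ j, ∃ R : L, R ≠ 0 ∧ ∀ (w : HeightOneSpectrum (𝓞 L))
      (T : (K →+* L) → w.adicCompletion L),
      (∀ τ ∈ Φ, ∃ (v : HeightOneSpectrum (𝓞 K)) (k : v.adicCompletion K →+* w.adicCompletion L),
        (∀ x : K, k (algebraMap K _ x) = algebraMap L _ (τ x)) ∧
          T τ = k (aeval (x v) (g j))) →
      (∏ τ ∈ Φ, T τ) ^ h = algebraMap L (w.adicCompletion L) R := by
    intro j
    obtain ⟨γ, hγ0, hγ⟩ := hform (fun v => aeval (x v) (g j)) (fun v => hnz v j) (hfin j) (hk j)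
    exact norm_const Φ hΦ (fun v => hnz v j) hγ0 hγ
  choose R hR0 hR using hγ
  obtain ⟨τ0, hτ0⟩ := hne
  obtain ⟨q, hq0, hq⟩ := exists_poly Φ τ0 hτ0 (fun a => by
    have h1 : IsIntegral ℚ a := Algebra.IsIntegral.isIntegral a
    obtain ⟨p, hp, hp0⟩ := h1
    refine ⟨p.map (algebraMap ℚ K), hp.map _, ?_⟩
    rw [eval₂_map]
    have e : τ0.comp (algebraMap ℚ K) = algebraMap ℚ L := Subsingleton.elim _ _
    rw [e]
    exact hp0) hm g hcop hdeg hh R hR0
  refine ⟨q, hq0, fun v => ?_⟩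
  obtain ⟨w, j0, hj0⟩ := exists_above τ0 v
  have hX : ∀ τ : K →+* L, ∃ y : w.adicCompletion L, (∃ (v : HeightOneSpectrum (𝓞 K))
      (k : v.adicCompletion K →+* w.adicCompletion L),
      (∀ x : K, k (algebraMap K _ x) = algebraMap L _ (τ x)) ∧ y = k (x v)) ∧
      (τ = τ0 → y = j0 (x v)) := by
    intro τ
    by_cases hτ : τ = τ0
    · refine ⟨j0 (x v), ⟨v, j0, ?_, rfl⟩, fun _ => rfl⟩
      rw [hτ]
      exact hj0
    · obtain ⟨v', k, hk'⟩ := exists_under τ w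
      exact ⟨k (x v'), ⟨v', k, hk', rfl⟩, fun h1 => absurd h1 hτ⟩
  choose X hX1 hX2 using hX
  have h1 := hq (w.adicCompletion L) (algebraMap L _) X (by
    intro j
    refine hR j w _ (fun τ _ => ?_)
    obtain ⟨v', k, hk1, hk2⟩ := hX1 τ
    refine ⟨v', k, hk1, ?_⟩
    rw [hk2, aeval_def, hom_eval₂]
    congr 1
    exact (RingHom.ext hk1).symm)
  rw [hX2 τ0 rfl] at h1
  apply j0.injective
  rw [map_zero, ← h1, aeval_def, hom_eval₂]
  congr 1
  exact RingHom.ext hj0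

end

end Pool.Agent.V8H94.SC
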