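import Pool.Agent.V8H94.SC.Sect

/-!
# The core theorem
-/

set_option autoImplicit false
set_option linter.unusedSectionVars false

open IsDedekindDomain NumberField Pool.Agent.TH954 Polynomial

namespace Pool.Agent.V8H94.SC

/-- there are at least two places -/
lemma exists_ne_place {E : Type} [Field E] [NumberField E] (w0 : HeightOneSpectrum (𝓞 E)) :
    ∃ w : HeightOneSpectrum (𝓞 E), w ≠ w0 := by
  have key : ∀ p : ℕ, p.Prime → ∃ w : HeightOneSpectrum (𝓞 E), (p : 𝓞 E) ∈ w.asIdeal := by
    intro p hp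
    have hne : Ideal.span {(p : 𝓞 E)} ≠ ⊤ := by
      rw [Ne, Ideal.span_singleton_eq_top]
      intro hu
      obtain ⟨y, hy⟩ := hu.exists_right_inv
      have hp0 : (p : ℚ) ≠ 0 := by exact_mod_cast hp.ne_zero
      have hpE : (p : E) ≠ 0 := by exact_mod_cast hp.ne_zero
      have h1 : (y : E) = algebraMap ℚ E ((p : ℚ)⁻¹) := by
        rw [map_inv₀, map_natCast]
        have h2 : (p : E) * (y : E) = 1 := by
          have h3 := congrArg (fun x : 𝓞 E => (x : E)) hy
          simpa using h3
        exact eq_inv_of_mul_eq_one_right h2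
      have h2 : IsIntegral ℤ ((p : ℚ)⁻¹) := by
        have h3 : IsIntegral ℤ (y : E) := y.2
        rw [h1] at h3
        exact (isIntegral_algebraMap_iff (algebraMap ℚ E).injective).1 h3
      obtain ⟨m, hm⟩ := IsIntegrallyClosed.isIntegral_iff.1 h2
      have h3 : (m : ℚ) * p = 1 := by
        have h4 : (m : ℚ) = (p : ℚ)⁻¹ := hm
        rw [h4, inv_mul_cancel₀ hp0]
      have h4 : m * (p : ℤ) = 1 := by exact_mod_cast h3
      have h5 : (p : ℤ) ∣ 1 := ⟨m, by rw [← h4]; ring⟩
      have h6 : p ∣ 1 := by exact_mod_cast h5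
      exact hp.one_lt.ne' (Nat.dvd_one.1 h6)
    obtain ⟨P, hP, hPle⟩ := Ideal.exists_le_maximal _ hne
    have hpP : (p : 𝓞 E) ∈ P := hPle (Ideal.mem_span_singleton_self _)
    have hP0 : P ≠ ⊥ := by
      rintro rfl
      rw [Ideal.mem_bot] at hpP
      have : p = 0 := by exact_mod_cast hpP
      exact hp.ne_zero this
    exact ⟨⟨P, hP.isPrime, hP0⟩, hpP⟩
  obtain ⟨w2, h2⟩ := key 2 Nat.prime_two
  obtain ⟨w3, h3⟩ := key 3 Nat.prime_three
  by_contra hcon
  push Not at hcon
  rw [hcon w2] at h2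
  rw [hcon w3] at h3
  apply w0.isPrime.ne_top
  rw [Ideal.eq_top_iff_one]
  have h4 := sub_mem h3 h2
  have e : ((3 : ℕ) : 𝓞 E) - ((2 : ℕ) : 𝓞 E) = 1 := by push_cast; ring
  rwa [e] at h4

variable {K : Type} [Field K] [NumberField K]

/-- compatible embeddings of the completions and their algebraic closures -/
structure Cmp (E : IntermediateField K (AlgebraicClosure K)) [NumberField E]
    (io : ∀ v : HeightOneSpectrum (𝓞 K),
      AlgebraicClosure K →ₐ[K] AlgebraicClosure (v.adicCompletion K))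
    (v : HeightOneSpectrum (𝓞 K)) (w : HeightOneSpectrum (𝓞 E))
    (k : v.adicCompletion K →+* w.adicCompletion E)
    (e : AlgebraicClosure (v.adicCompletion K) →+* AlgebraicClosure (w.adicCompletion E))
    (ρ : AlgebraicClosure K ≃ₐ[K] AlgebraicClosure K) : Prop where
  hk : ∀ x : K, k (algebraMap K _ x) = algebraMap E (w.adicCompletion E) (algebraMap K E x)
  he : ∀ y : v.adicCompletion K, e (algebraMap _ _ y) = algebraMap _ _ (k y)
  hρ : ∀ a : E, e (io v (ρ a)) = algebraMap (w.adicCompletion E) _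
        (algebraMap E (w.adicCompletion E) a)
  hσ : ∀ σ' : AlgebraicClosure (w.adicCompletion E) ≃ₐ[w.adicCompletion E]
        AlgebraicClosure (w.adicCompletion E),
        ∃ σ : AlgebraicClosure (v.adicCompletion K) ≃ₐ[v.adicCompletion K]
          AlgebraicClosure (v.adicCompletion K), ∀ c, e (σ c) = σ' (e c)

variable {M : Type} [Field M] [Algebra K M] (A : SAct K M)

/-- values of elements fixed by the section of a finite extension, whose local values satisfy a
common equation, are rational -/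
theorem rat_of_fixed (E : IntermediateField K (AlgebraicClosure K)) [NumberField E]
    (pl : ∀ v : HeightOneSpectrum (𝓞 K), Plc K M (AlgebraicClosure (v.adicCompletion K)))
    (hpl : ∀ v, GeoPlc A (pl v)) {φ : M} (hφ0 : φ ≠ 0)
    (hφ : ∀ τ ∈ E.fixingSubgroup, A.s τ φ = φ) (hr : ∀ N : ℕ, 1 ≤ N → ∃ y : M, y ^ N = φ)
    (hval : ∀ v ρ, ∃ c, c ≠ 0 ∧ (pl v).val (A.s ρ φ) c) {q : E[X]} (hq0 : q ≠ 0)
    (hq : ∀ v w k e ρ c (t : w.adicCompletion E), Cmp E (fun v => (pl v).iot A.j) v w k e ρ →
      (pl v).val (A.s ρ φ) c → e c = algebraMap _ _ t → aeval t q = 0) :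
    ∃ y : E, ∀ v w k e ρ c, Cmp E (fun v => (pl v).iot A.j) v w k e ρ →
      (pl v).val (A.s ρ φ) c → e c = algebraMap (w.adicCompletion E) _
        (algebraMap E (w.adicCompletion E) y) := by
  classical
  -- the property of a family of local elements
  let Pr : ∀ w : HeightOneSpectrum (𝓞 E), w.adicCompletion E → Prop := fun w t =>
    ∃ v k e ρ c, Cmp E (fun v => (pl v).iot A.j) v w k e ρ ∧ (pl v).val (A.s ρ φ) c ∧
      e c = algebraMap _ _ t
  have claim : ∀ X : ∀ w : HeightOneSpectrum (𝓞 E), w.adicCompletion E, (∀ w, Pr w (X w)) →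
      ∃ y : E, ∀ w, X w = algebraMap E (w.adicCompletion E) y := by
    intro X hX
    refine zed X (fun w h0 => ?_) (fun N hN => ?_) hq0 (fun w => ?_)
    · obtain ⟨v, k, e, ρ, c, h1, h2, h3⟩ := hX w
      obtain ⟨c', hc'0, hc'⟩ := hval v ρ
      rw [h0, map_zero, _root_.map_eq_zero] at h3
      rw [← hc'.unique h2] at h3
      exact hc'0 h3
    · obtain ⟨a, ha⟩ := kummer_local A E pl hpl hφ0 hφ hN (hr N hN)
      refine ⟨a, fun w => ?_⟩
      obtain ⟨v, k, e, ρ, c, h1, h2, h3⟩ := hX w
      exact ha v w e ρ (X w) c h1.hρ h1.hσ h2 h3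
    · obtain ⟨v, k, e, ρ, c, h1, h2, h3⟩ := hX w
      exact hq v w k e ρ c (X w) h1 h2 h3
  have hex : ∀ v w k e ρ c, Cmp E (fun v => (pl v).iot A.j) v w k e ρ →
      (pl v).val (A.s ρ φ) c → ∃ t : w.adicCompletion E, e c = algebraMap _ _ t := by
    intro v w k e ρ c h1 h2
    obtain ⟨t, ht⟩ := value_ext A E (hpl v) h1.hρ h1.hσ hφ h2
    exact ⟨t, ht.symm⟩
  have hX0 : ∀ w, ∃ t, Pr w t := by
    intro w
    obtain ⟨v, k, hk⟩ := exists_under (algebraMap K E) w
    obtain ⟨e, ρ, h1, h2, h3⟩ := exists_e_rho E v w k hk ((pl v).iot A.j)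
    obtain ⟨c, -, hc⟩ := hval v ρ
    have hC : Cmp E (fun v => (pl v).iot A.j) v w k e ρ := ⟨hk, h1, h2, h3⟩
    obtain ⟨t, ht⟩ := hex v w k e ρ c hC hc
    exact ⟨t, v, k, e, ρ, c, hC, hc, ht⟩
  choose X0 hX0 using hX0
  obtain ⟨y, hy⟩ := claim X0 hX0
  refine ⟨y, fun v w k e ρ c hC hc => ?_⟩
  obtain ⟨t, ht⟩ := hex v w k e ρ c hC hc
  obtain ⟨y', hy'⟩ := claim (Function.update X0 w t) (by
    intro w'
    by_cases h : w' = w
    · subst h
      rw [Function.update_self]
      exact ⟨v, k, e, ρ, c, hC, hc, ht⟩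
    · rw [Function.update_of_ne h]
      exact hX0 w')
  obtain ⟨w1, hw1⟩ := exists_ne_place w
  have h1 := hy' w1
  rw [Function.update_of_ne hw1, hy w1] at h1
  have h2 : y = y' := (algebraMap E (w1.adicCompletion E)).injective h1
  have h3 := hy' w
  rw [Function.update_self] at h3
  rw [ht, h3, h2]

/-- a finite Galois extension containing a given element -/
lemma exists_gal (θ : AlgebraicClosure K) : ∃ E : IntermediateField K (AlgebraicClosure K),
    FiniteDimensional K E ∧ IsGalois K E ∧ θ ∈ E := by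
  have hθ : IsIntegral K θ := Algebra.IsIntegral.isIntegral θ
  have h1 : FiniteDimensional K (IntermediateField.adjoin K {θ}) :=
    IntermediateField.adjoin.finiteDimensional hθ
  refine ⟨IntermediateField.normalClosure K (IntermediateField.adjoin K {θ}) (AlgebraicClosure K),
    inferInstance, ?_, ?_⟩
  · have : Normal K (IntermediateField.normalClosure K (IntermediateField.adjoin K {θ})
      (AlgebraicClosure K)) := inferInstance
    exact ⟨⟩
  · exact IntermediateField.le_normalClosure _ (IntermediateField.mem_adjoin_simple_self K θ)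

/-- **The core theorem.** -/
theorem core (pl : ∀ v : HeightOneSpectrum (𝓞 K), Plc K M (AlgebraicClosure (v.adicCompletion K)))
    (hpl : ∀ v, GeoPlc A (pl v)) {t : M} (ht : ∀ τ, A.s τ t = t)
    {L : Type} [Field L] [NumberField L] (Φ : Finset (K →+* L)) (hne : Φ.Nonempty)
    (hΦ : (Set.range fun u : (𝓞 K)ˣ => ∏ τ ∈ Φ, τ ((u : 𝓞 K) : K)).Finite)
    {m : ℕ} (hm : Φ.card ≤ m) (g : Fin m → K[X])
    (hcop : ∀ i j, i ≠ j → IsCoprime (g i) (g j)) (hdeg : ∀ j, 0 < (g j).natDegree)
    (hr : ∀ j, ∀ N : ℕ, 1 ≤ N → ∃ y : M, y ^ N = aeval t (g j))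
    {θ : AlgebraicClosure K} {j0 : Fin m} (hθ : aeval θ (g j0) = 0)
    (hrθ : ∀ N : ℕ, 1 ≤ N → ∃ y : M, y ^ N = t - A.j θ)
    (x : ∀ v : HeightOneSpectrum (𝓞 K), v.adicCompletion K)
    (hx : ∀ v, (pl v).val t (algebraMap _ (AlgebraicClosure (v.adicCompletion K)) (x v)))
    (hnz : ∀ v j, aeval (x v) (g j) ≠ 0)
    (hfin : ∀ j, {v | Valued.v (aeval (x v) (g j)) ≠ 1}.Finite) :
    ∃ y : K, ∀ v, x v = algebraMap K (v.adicCompletion K) y := by
  classical
  have hjt : ∀ j v, (pl v).val (aeval t (g j))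
      (algebraMap _ (AlgebraicClosure (v.adicCompletion K)) (aeval (x v) (g j))) := by
    intro j v
    have h1 := Plc.val_aeval (hx v) (g j)
    rwa [aeval_algebraMap_apply] at h1
  obtain ⟨v0⟩ := exists_place K
  have hjt0 : ∀ j, aeval t (g j) ≠ 0 := by
    intro j h0
    have h1 := hjt j v0
    rw [h0] at h1
    have h2 := Plc.val_zero.unique h1
    exact (_root_.map_ne_zero _).2 (hnz v0 j) h2.symm
  -- the Kummer data of the units over `K`
  have hk : ∀ j, ∀ N : ℕ, 1 ≤ N → ∃ c : K, ∀ v, ∃ z, aeval (x v) (g j) =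
      algebraMap K (v.adicCompletion K) c * z ^ N := by
    intro j N hN
    have hfix : ∀ τ, A.s τ (aeval t (g j)) = aeval t (g j) := by
      intro τ
      have h1 := aeval_algHom_apply ((A.s τ : M ≃ₐ[K] M) : M →ₐ[K] M) t (g j)
      have h2 : ((A.s τ : M ≃ₐ[K] M) : M →ₐ[K] M) t = t := ht τ
      rw [h2] at h1
      exact h1.symm
    obtain ⟨c, -, y, hy, hcy⟩ := kummer_ext A ⊥ (hjt0 j) (fun τ _ => hfix τ) (by omega) (hr j N hN)
    obtain ⟨c', hc'⟩ := IntermediateField.mem_bot.1 c.2
    have hy' : y ∈ A.fix := fun τ => hy τ (by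
      rw [IntermediateField.fixingSubgroup_bot]
      exact Subgroup.mem_top τ)
    have e1 : A.j (c : AlgebraicClosure K) = algebraMap K M c' := by
      rw [← hc', A.j.commutes]
    rw [e1] at hcy
    refine ⟨c', fun v => ?_⟩
    have hcv : CharZero (v.adicCompletion K) :=
      charZero_of_injective_algebraMap (algebraMap K (v.adicCompletion K)).injective
    have hc0 : algebraMap K M c' ≠ 0 := by
      intro h0
      apply hjt0 j
      rw [hcy, h0, zero_mul]
    have hyN : y ^ N ∈ (pl v).W := by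
      have e2 : y ^ N = aeval t (g j) * algebraMap K M c'⁻¹ := by
        rw [hcy, map_inv₀]
        field_simp
      rw [e2]
      exact mul_mem (hjt j v).mem ((pl v).alg_mem _)
    have hyW : y ∈ (pl v).W := Plc.mem_of_pow_mem (n := N) (by omega) hyN
    obtain ⟨z, hz⟩ := value_base A (hpl v) hy' hyW
    refine ⟨z, ?_⟩
    have h1 := (Plc.val_alg (pl := pl v) c').mul (Plc.val.pow ⟨hyW, hz.symm⟩ N)
    rw [← hcy] at h1
    have h2 := (hjt j v).unique h1
    apply (algebraMap (v.adicCompletion K) (AlgebraicClosure (v.adicCompletion K))).injective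
    rw [h2, map_mul, map_pow, ← IsScalarTower.algebraMap_apply]
  obtain ⟨q, hq0, hq⟩ := exists_poly_local Φ hne hΦ hm g hcop hdeg x hnz hfin hk
  -- the extension
  obtain ⟨E, hE1, hE2, hθE⟩ := exists_gal θ
  have hEc : CharZero E := charZero_of_injective_algebraMap (algebraMap K E).injective
  have hEt : IsScalarTower ℚ K E := IsScalarTower.of_algebraMap_eq (fun x => by
      rw [eq_ratCast, eq_ratCast, map_ratCast])
  have hEf : FiniteDimensional ℚ E := FiniteDimensional.trans ℚ K E
  have hEn : NumberField E := ⟨⟩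
  let θE : E := ⟨θ, hθE⟩
  have hφv : ∀ v ρ, (pl v).val (A.s ρ (t - A.j θ))
      (algebraMap _ (AlgebraicClosure (v.adicCompletion K)) (x v) - (pl v).iot A.j (ρ θ)) := by
    intro v ρ
    rw [map_sub, ht, A.hj]
    exact (hx v).sub (Plc.val_j A.j _)
  have hφn : ∀ v (ρ : AlgebraicClosure K ≃ₐ[K] AlgebraicClosure K),
      algebraMap _ (AlgebraicClosure (v.adicCompletion K)) (x v) - (pl v).iot A.j (ρ θ) ≠ 0 := by
    intro v ρ h0
    rw [sub_eq_zero] at h0
    apply hnz v j0
    apply (algebraMap (v.adicCompletion K) (AlgebraicClosure (v.adicCompletion K))).injective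
    rw [← aeval_algebraMap_apply, h0, map_zero]
    have h1 := aeval_algHom_apply (((pl v).iot A.j).comp
      (ρ : AlgebraicClosure K →ₐ[K] AlgebraicClosure K)) θ (g j0)
    have h2 : (((pl v).iot A.j).comp (ρ : AlgebraicClosure K →ₐ[K] AlgebraicClosure K)) θ =
      (pl v).iot A.j (ρ θ) := rfl
    rw [h2] at h1
    rw [h1, hθ, map_zero]
  have hφ0 : t - A.j θ ≠ 0 := by
    intro h0
    have h1 := hφv v0 1
    rw [h0, map_zero] at h1
    exact hφn v0 1 (Plc.val_zero.unique h1).symm
  have hkx : ∀ v w k e ρ c, Cmp E (fun v => (pl v).iot A.j) v w k e ρ →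
      (pl v).val (A.s ρ (t - A.j θ)) c → e c = algebraMap (w.adicCompletion E) _
        (k (x v) - algebraMap E (w.adicCompletion E) θE) := by
    intro v w k e ρ c hC hc
    rw [hc.unique (hφv v ρ), map_sub, map_sub, hC.he, ← hC.hρ]
  obtain ⟨y, hy⟩ := rat_of_fixed A E pl hpl hφ0 (fun τ hτ => by
      rw [map_sub, ht, A.hj, (IntermediateField.mem_fixingSubgroup_iff _ _).1 hτ θ hθE]) hrθ
    (fun v ρ => ⟨_, hφn v ρ, hφv v ρ⟩) (q := (q.map (algebraMap K E)).comp (X + C θE)) (by
      intro h0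
      have h1 := congrArg (fun p : E[X] => p.comp (X - C θE)) h0
      simp only [comp_assoc, add_comp, X_comp, C_comp, sub_add_cancel, comp_X, zero_comp] at h1
      exact hq0 ((Polynomial.map_eq_zero_iff (algebraMap K E).injective).1 h1)) (by
      intro v w k e ρ c s hC hc hs
      have h1 := hkx v w k e ρ c hC hc
      rw [hs] at h1
      have h2 := (algebraMap (w.adicCompletion E)
        (AlgebraicClosure (w.adicCompletion E))).injective h1
      rw [h2, aeval_comp]
      have h3 : aeval (k (x v) - algebraMap E (w.adicCompletion E) θE) (X + C θE) = k (x v) := by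
        simp
      rw [h3, aeval_map_algebraMap]
      have h4 : aeval (k (x v)) q = k (aeval (x v) q) := by
        rw [aeval_def, aeval_def, hom_eval₂]
        congr 1
        apply RingHom.ext
        intro a
        rw [RingHom.comp_apply, hC.hk, ← IsScalarTower.algebraMap_apply]
      rw [h4, hq v, map_zero])
  -- all embeddings of the local elements are equal to the same algebraic number
  have hall : ∀ (v : HeightOneSpectrum (𝓞 K)) (w : HeightOneSpectrum (𝓞 E))
      (k : v.adicCompletion K →+* w.adicCompletion E),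
      (∀ x : K, k (algebraMap K _ x) = algebraMap E (w.adicCompletion E) (algebraMap K E x)) →
      k (x v) = algebraMap E (w.adicCompletion E) (y + θE) := by
    intro v w k hk
    obtain ⟨e, ρ, h1, h2, h3⟩ := exists_e_rho E v w k hk ((pl v).iot A.j)
    have hC : Cmp E (fun v => (pl v).iot A.j) v w k e ρ := ⟨hk, h1, h2, h3⟩
    have h4 := hkx v w k e ρ _ hC (hφv v ρ)
    have h5 := hy v w k e ρ _ hC (hφv v ρ)
    rw [h4] at h5
    have h6 := (algebraMap (w.adicCompletion E)
        (AlgebraicClosure (w.adicCompletion E))).injective h5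
    rw [map_add, ← h6]
    ring
  -- the algebraic number is rational
  obtain ⟨y0, hy0⟩ : ∃ y0 : K, algebraMap K E y0 = y + θE := by
    have h1 : y + θE ∈ (⊥ : IntermediateField K E) := by
      apply Pool.Agent.W620.SC.mem_of_fixed
      intro σ _
      obtain ⟨w⟩ := exists_place E
      obtain ⟨w', k1, hk1⟩ := exists_under (σ : E →+* E) w
      obtain ⟨v, k2, hk2⟩ := exists_under (algebraMap K E) w'
      have h2 := hall v w' k2 hk2
      have h3 := hall v w (k1.comp k2) (by
        intro a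
        rw [RingHom.comp_apply, hk2, hk1]
        congr 1
        exact σ.commutes a)
      rw [RingHom.comp_apply, h2, hk1] at h3
      exact (algebraMap E (w.adicCompletion E)).injective h3
    exact IntermediateField.mem_bot.1 h1
  refine ⟨y0, fun v => ?_⟩
  obtain ⟨w, k, hk⟩ := exists_above (algebraMap K E) v
  apply k.injective
  rw [hall v w k hk, hk, hy0]

end Pool.Agent.V8H94.SC
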