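import Pool.Agent.V8H94.SC.Frob
import Mathlib.GroupTheory.CosetCover

/-!
# Descent of powers from cyclotomic extensions
-/

set_option autoImplicit false
set_option linter.unusedSectionVars false

open IsDedekindDomain NumberField Pool.Agent.TH954
open scoped Pointwise

namespace Pool.Agent.V8H94.SC

variable {K : Type} [Field K] [NumberField K]

lemma pow_apply_root {M : Type*} [Field M] {G : Type*} [Group G] [MulSemiringAction G M] (σ : G)
    {b ξ : M} (h1 : σ • b = ξ * b) (h2 : σ • ξ = ξ) (n : ℕ) : σ ^ n • b = ξ ^ n * b := by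
  induction n with
  | zero => simp
  | succ n ih =>
    rw [pow_succ', mul_smul, ih, smul_mul', smul_pow', h1, h2]
    ring

/-- the covering argument -/
theorem cover_step (T : Finset (AlgebraicClosure K))
    (hT : ∀ σ : AlgebraicClosure K ≃ₐ[K] AlgebraicClosure K, ∀ θ ∈ T, σ θ ∈ T)
    (hT0 : ∀ θ ∈ T, θ ≠ 0) {N : ℕ} (hN : 1 ≤ N) {c : K} (hc : c ≠ 0)
    (z : ∀ v : HeightOneSpectrum (𝓞 K), v.adicCompletion K)
    (hz : ∀ v : HeightOneSpectrum (𝓞 K),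
      ∀ (ι : AlgebraicClosure K →ₐ[K] AlgebraicClosure (v.adicCompletion K)), ∃ θ ∈ T,
      ι θ = algebraMap (v.adicCompletion K) (AlgebraicClosure (v.adicCompletion K))
          (algebraMap K (v.adicCompletion K) c * z v ^ N)) :
    ∃ θ ∈ T, ∀ b : AlgebraicClosure K, b ^ N = θ / algebraMap K (AlgebraicClosure K) c →
      ∀ σ : AlgebraicClosure K ≃ₐ[K] AlgebraicClosure K, (∀ θ' ∈ T, σ θ' = θ') →
        (∀ ζ : AlgebraicClosure K, ζ ^ N = 1 → σ ζ = ζ) →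
        σ (b ^ T.card.factorial) = b ^ T.card.factorial := by
  classical
  have hN0 : N ≠ 0 := by omega
  let H : Subgroup (AlgebraicClosure K ≃ₐ[K] AlgebraicClosure K) :=
    { carrier := {σ | (∀ θ' ∈ T, σ θ' = θ') ∧ ∀ ζ : AlgebraicClosure K, ζ ^ N = 1 → σ ζ = ζ}
      mul_mem' := by
        rintro σ τ ⟨h1, h2⟩ ⟨h3, h4⟩
        refine ⟨fun θ' hθ' => ?_, fun ζ hζ => ?_⟩
        · change σ (τ θ') = θ'
          rw [h3 θ' hθ', h1 θ' hθ']
        · change σ (τ ζ) = ζ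
          rw [h4 ζ hζ, h2 ζ hζ]
      one_mem' := ⟨fun _ _ => rfl, fun _ _ => rfl⟩
      inv_mem' := by
        rintro σ ⟨h1, h2⟩
        refine ⟨fun θ' hθ' => ?_, fun ζ hζ => ?_⟩
        · change σ.symm θ' = θ'
          rw [AlgEquiv.symm_apply_eq, h1 θ' hθ']
        · change σ.symm ζ = ζ
          rw [AlgEquiv.symm_apply_eq, h2 ζ hζ] }
  have hbex : ∀ θ : AlgebraicClosure K, ∃ b : AlgebraicClosure K,
      b ^ N = θ / algebraMap K (AlgebraicClosure K) c := fun θ =>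
    IsAlgClosed.exists_pow_nat_eq _ (by omega)
  choose β hβ using hbex
  let C : AlgebraicClosure K → Subgroup H := fun θ =>
    (MulAction.stabilizer (AlgebraicClosure K ≃ₐ[K] AlgebraicClosure K) (β θ)).subgroupOf H
  have hcov : ⋃ θ ∈ T, (1 : H) • (C θ : Set H) = Set.univ := by
    apply Set.eq_univ_of_forall
    rintro ⟨σ, h1, h2⟩
    obtain ⟨θ, hθ, h3⟩ := frob_step T hT hT0 hN hc σ h1 h2 z hz
    simp only [one_smul, Set.mem_iUnion]
    exact ⟨θ, hθ, h3 _ (hβ θ)⟩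
  obtain ⟨θ, hθ, hfin, hind⟩ := Subgroup.exists_index_le_card_of_leftCoset_cover hcov
  refine ⟨θ, hθ, fun b hb σ h1 h2 => ?_⟩
  have hc' : algebraMap K (AlgebraicClosure K) c ≠ 0 := (map_ne_zero _).2 hc
  have hb0 : b ≠ 0 := by
    rintro rfl
    rw [zero_pow hN0] at hb
    exact div_ne_zero (hT0 θ hθ) hc' hb.symm
  have hβ0 : β θ ≠ 0 := by
    intro h0
    have h3 := hβ θ
    rw [h0, zero_pow hN0] at h3
    exact div_ne_zero (hT0 θ hθ) hc' h3.symm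
  have hσθ : σ (θ / algebraMap K (AlgebraicClosure K) c) =
      θ / algebraMap K (AlgebraicClosure K) c := by
    rw [map_div₀, σ.commutes, h1 θ hθ]
  have hξN : (σ b / b) ^ N = 1 := by
    rw [div_pow, ← map_pow, hb, hσθ, ← hb, div_self (pow_ne_zero _ hb0)]
  obtain ⟨n, hn0, hn1, hn2⟩ := Subgroup.exists_pow_mem_of_index_ne_zero hfin.index_ne_zero
    (⟨σ, h1, h2⟩ : H)
  have hn3 : (σ ^ n) (β θ) = β θ := hn2
  have hratio : (b / β θ) ^ N = 1 := by
    rw [div_pow, hb, hβ, div_self (div_ne_zero (hT0 θ hθ) hc')]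
  have hσn : ∀ ζ : AlgebraicClosure K, ζ ^ N = 1 → (σ ^ n) ζ = ζ :=
    (H.pow_mem (⟨h1, h2⟩ : σ ∈ H) n).2
  have hn4 : (σ ^ n) b = b := by
    have h3 := hσn _ hratio
    rw [map_div₀, hn3, div_left_inj' hβ0] at h3
    exact h3
  have hn5 : σ ^ n • b = (σ b / b) ^ n * b := by
    apply pow_apply_root
    · change σ b = σ b / b * b
      rw [div_mul_cancel₀ _ hb0]
    · exact h2 _ hξN
  have hn6 : (σ b / b) ^ n = 1 := by
    have h3 : (σ b / b) ^ n * b = 1 * b := by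
      rw [← hn5, one_mul]
      exact hn4
    exact mul_right_cancel₀ hb0 h3
  have hdvd : n ∣ T.card.factorial := Nat.dvd_factorial hn0 (hn1.trans hind)
  obtain ⟨e, he⟩ := hdvd
  have h7 : (σ b / b) ^ T.card.factorial = 1 := by
    rw [he, pow_mul, hn6, one_pow]
  rw [div_pow, div_eq_one_iff_eq (pow_ne_zero _ hb0)] at h7
  rw [map_pow, h7]

/-- automorphisms acting on the roots of unity by a given power -/
lemma exists_cyc (Ω : Type) [Field Ω] [CharZero Ω] [Algebra ℚ Ω] [IsAlgClosed Ω] [Normal ℚ Ω]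
    {N : ℕ} (hN : 1 ≤ N) {u : ℕ} (hu : u.Coprime N) :
    ∃ σ : Ω ≃ₐ[ℚ] Ω, ∀ ζ : Ω, ζ ^ N = 1 → σ ζ = ζ ^ u := by
  have : NeZero (N : Ω) := ⟨by exact_mod_cast (by omega : N ≠ 0)⟩
  have hN0 : NeZero N := ⟨by omega⟩
  obtain ⟨ζ, hζ⟩ := HasEnoughRootsOfUnity.exists_primitiveRoot Ω N
  have hζu : IsPrimitiveRoot (ζ ^ u) N := hζ.pow_of_coprime u hu
  have hmin : minpoly ℚ ζ = minpoly ℚ (ζ ^ u) := by
    have e : (inferInstance : Algebra ℚ Ω) = DivisionRing.toRatAlgebra := Subsingleton.elim _ _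
    have h1 := Polynomial.cyclotomic_eq_minpoly_rat hζ (by omega)
    have h2 := Polynomial.cyclotomic_eq_minpoly_rat hζu (by omega)
    have h3 : minpoly ℚ ζ = @minpoly ℚ Ω _ _ DivisionRing.toRatAlgebra ζ := by
      congr 1
    have h4 : minpoly ℚ (ζ ^ u) = @minpoly ℚ Ω _ _ DivisionRing.toRatAlgebra (ζ ^ u) := by
      congr 1
    rw [h3, h4, ← h1, ← h2]
  obtain ⟨σ, hσ⟩ := minpoly.exists_algEquiv_of_root' (K := ℚ) (L := Ω) (x := ζ ^ u) (y := ζ)
    (hζ.isIntegral (by omega) |>.tower_top |>.isAlgebraic) (by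
      rw [hmin]
      exact minpoly.aeval ℚ _)
  refine ⟨σ, fun ξ hξ => ?_⟩
  obtain ⟨k, -, rfl⟩ := hζ.eq_pow_of_pow_eq_one hξ
  rw [map_pow, hσ]
  ring

lemma exists_cyc' (K : Type) [Field K] [NumberField K] {N : ℕ} (hN : 1 ≤ N) {u : ℕ}
    (hu : u.Coprime N) :
    ∃ σ : AlgebraicClosure K ≃+* AlgebraicClosure K, ∀ ζ, ζ ^ N = 1 → σ ζ = ζ ^ u := by
  have : Algebra.IsAlgebraic ℚ (AlgebraicClosure K) := Algebra.IsAlgebraic.trans ℚ K _
  have : IsAlgClosure ℚ (AlgebraicClosure K) := ⟨inferInstance, inferInstance⟩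
  have : Normal ℚ (AlgebraicClosure K) := IsAlgClosure.normal ℚ _
  obtain ⟨σ, hσ⟩ := exists_cyc (AlgebraicClosure K) hN hu
  exact ⟨σ.toRingEquiv, hσ⟩

lemma iterate_commute {L Ω : Type} [Field L] [Field Ω] (κ : L →+* Ω) (σ : Ω ≃+* Ω) (τ : L → L)
    (h : ∀ x, κ (τ x) = σ (κ x)) (n : ℕ) (x : L) : (σ^[n]) (κ x) = κ (τ^[n] x) := by
  induction n with
  | zero => rfl
  | succ n ih => rw [Function.iterate_succ_apply', ih, Function.iterate_succ_apply', h]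

/-- automorphisms fixing a Galois number field and acting on the roots of unity by a power -/
lemma exists_cyc_fix {L : Type} [Field L] [NumberField L] [IsGalois ℚ L] (i : K →+* L)
    (κ : L →+* AlgebraicClosure K) (hκi : ∀ x, κ (i x) = algebraMap K (AlgebraicClosure K) x)
    {N : ℕ} (hN : 1 ≤ N) {u : ℕ} (hu : u.Coprime N) :
    ∃ g : AlgebraicClosure K ≃ₐ[K] AlgebraicClosure K, (∀ x : L, g (κ x) = κ x) ∧
      ∀ ζ, ζ ^ N = 1 → g ζ = ζ ^ (u ^ Nat.card (L ≃ₐ[ℚ] L)) := by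
  obtain ⟨σ, hσ⟩ := exists_cyc' K hN hu
  set d := Nat.card (L ≃ₐ[ℚ] L) with hd
  have hrange : ∀ x : L, ∃ y : L, κ y = σ (κ x) := fun x =>
    normal_range κ (σ : AlgebraicClosure K →+* AlgebraicClosure K) x
  choose τ hτ using hrange
  let τ' : L →ₐ[ℚ] L :=
    { toFun := τ
      map_one' := κ.injective (by rw [hτ]; simp)
      map_mul' := fun x y => κ.injective (by rw [hτ]; simp [hτ])
      map_zero' := κ.injective (by rw [hτ]; simp)
      map_add' := fun x y => κ.injective (by rw [hτ]; simp [hτ])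
      commutes' := fun r => κ.injective (by rw [hτ]; simp) }
  let τ'' : L ≃ₐ[ℚ] L := AlgEquiv.ofBijective τ' (Algebra.IsAlgebraic.algHom_bijective τ')
  have hτd : ∀ x, τ^[d] x = x := by
    intro x
    have h1 : τ'' ^ d = 1 := pow_card_eq_one'
    have h2 : ∀ n : ℕ, (τ'' ^ n) x = τ^[n] x := by
      intro n
      induction n with
      | zero => rfl
      | succ n ih =>
        rw [Function.iterate_succ_apply', ← ih, pow_succ']
        rfl
    rw [← h2, h1]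
    rfl
  have hfix : ∀ x : L, (σ^[d]) (κ x) = κ x := by
    intro x
    rw [iterate_commute κ σ τ hτ, hτd]
  let g0 : AlgebraicClosure K ≃+* AlgebraicClosure K := (σ : RingAut _) ^ d
  have hg0 : ∀ x, g0 x = (σ^[d]) x := by
    intro x
    have h2 : ∀ n : ℕ, ((σ : RingAut (AlgebraicClosure K)) ^ n) x = (σ^[n]) x := by
      intro n
      induction n with
      | zero => rfl
      | succ n ih =>
        rw [Function.iterate_succ_apply', ← ih, pow_succ']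
        rfl
    exact h2 d
  let g : AlgebraicClosure K ≃ₐ[K] AlgebraicClosure K := AlgEquiv.ofRingEquiv (f := g0) (by
    intro r
    rw [hg0, ← hκi, hfix])
  have hg : ∀ x, g x = (σ^[d]) x := hg0
  refine ⟨g, fun x => by rw [hg, hfix], fun ζ hζ => ?_⟩
  rw [hg]
  have h2 : ∀ n : ℕ, (σ^[n]) ζ = ζ ^ (u ^ n) := by
    intro n
    induction n with
    | zero => simp
    | succ n ih =>
      rw [Function.iterate_succ_apply', ih, hσ _ (by rw [← pow_mul, mul_comm, pow_mul, hζ, one_pow]),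
        ← pow_mul, pow_succ]
  exact h2 d

/-- descent with one exponent -/
lemma descend_one {L : Type} [Field L] [NumberField L] [IsGalois ℚ L] (i : K →+* L)
    (κ : L →+* AlgebraicClosure K) (hκi : ∀ x, κ (i x) = algebraMap K (AlgebraicClosure K) x)
    {N : ℕ} (hN : 1 ≤ N) {B : AlgebraicClosure K} (hB0 : B ≠ 0) {a : L} (hBN : B ^ N = κ a)
    (hfix : ∀ σ : AlgebraicClosure K ≃ₐ[K] AlgebraicClosure K, (∀ x : L, σ (κ x) = κ x) →
      (∀ ζ, ζ ^ N = 1 → σ ζ = ζ) → σ B = B) {u : ℕ} (hu1 : 1 ≤ u) (hu : u.Coprime N) :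
    ∃ y : L, y ^ N = a ^ (u ^ Nat.card (L ≃ₐ[ℚ] L) - 1) := by
  have hN0 : N ≠ 0 := by omega
  obtain ⟨g, hg1, hg2⟩ := exists_cyc_fix i κ hκi hN hu
  set U := u ^ Nat.card (L ≃ₐ[ℚ] L) with hU
  have hU1 : 1 ≤ U := Nat.one_le_pow _ _ hu1
  have hcN : ∀ σ : AlgebraicClosure K ≃ₐ[K] AlgebraicClosure K, (∀ x : L, σ (κ x) = κ x) →
      (σ B / B) ^ N = 1 := by
    intro σ hσ
    rw [div_pow, ← map_pow, hBN, hσ, ← hBN, div_self (pow_ne_zero _ hB0)]
  have hN0' : NeZero (N : AlgebraicClosure K) := ⟨by exact_mod_cast hN0⟩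
  have hN0'' : NeZero N := ⟨hN0⟩
  obtain ⟨ζ0, hζ0⟩ := HasEnoughRootsOfUnity.exists_primitiveRoot (AlgebraicClosure K) N
  -- commutation on the roots of unity
  have hcomm : ∀ σ τ : AlgebraicClosure K ≃ₐ[K] AlgebraicClosure K, ∀ ζ, ζ ^ N = 1 →
      σ (τ ζ) = τ (σ ζ) := by
    intro σ τ ζ hζ
    obtain ⟨k, -, rfl⟩ := hζ0.eq_pow_of_pow_eq_one hζ
    have h1 : ∀ ρ : AlgebraicClosure K ≃ₐ[K] AlgebraicClosure K, ∃ j, ρ ζ0 = ζ0 ^ j := by
      intro ρ
      obtain ⟨j, -, hj⟩ := hζ0.eq_pow_of_pow_eq_one (ξ := ρ ζ0) (by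
        rw [← map_pow, hζ0.pow_eq_one, map_one])
      exact ⟨j, hj.symm⟩
    obtain ⟨j1, hj1⟩ := h1 σ
    obtain ⟨j2, hj2⟩ := h1 τ
    simp only [map_pow, hj1, hj2]
    ring
  have hBc : ∀ τ : AlgebraicClosure K ≃ₐ[K] AlgebraicClosure K, (∀ x : L, τ (κ x) = κ x) →
      τ (g B) = g (τ B) := by
    intro τ hτ
    have h1 := hfix (g⁻¹ * τ⁻¹ * g * τ) (by
      intro x
      change g.symm (τ.symm (g (τ (κ x)))) = κ x
      rw [hτ, hg1, AlgEquiv.symm_apply_eq, AlgEquiv.symm_apply_eq, hg1, hτ]) (by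
      intro ζ hζ
      change g.symm (τ.symm (g (τ ζ))) = ζ
      rw [AlgEquiv.symm_apply_eq, AlgEquiv.symm_apply_eq]
      exact hcomm g τ ζ hζ)
    have h2 : g.symm (τ.symm (g (τ B))) = B := h1
    rw [AlgEquiv.symm_apply_eq, AlgEquiv.symm_apply_eq] at h2
    exact h2.symm
  have hcg := hcN g hg1
  have hgB0 : g B ≠ 0 := (map_ne_zero _).2 hB0
  set Y : AlgebraicClosure K := B ^ (U - 1) / (g B / B) with hY
  have hYfix : ∀ τ : AlgebraicClosure K ≃ₐ[K] AlgebraicClosure K, (∀ x : L, τ (κ x) = κ x) →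
      τ Y = Y := by
    intro τ hτ
    have h1 := hBc τ hτ
    have hτB0 : τ B ≠ 0 := (map_ne_zero _).2 hB0
    -- `g (τ B) = g (c B) = c ^ U * g B`
    have h2 : g (τ B) = (τ B / B) ^ U * g B := by
      have e : τ B = (τ B / B) * B := by rw [div_mul_cancel₀ _ hB0]
      conv_lhs => rw [e]
      rw [map_mul, hg2 _ (hcN τ hτ)]
    rw [hY, map_div₀, map_div₀, map_pow, h1, h2]
    have e : U = (U - 1) + 1 := by omega
    rw [div_eq_div_iff (div_ne_zero (mul_ne_zero (pow_ne_zero _ (div_ne_zero hτB0 hB0)) hgB0) hτB0)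
      (div_ne_zero hgB0 hB0)]
    conv_rhs => rw [e]
    rw [Nat.add_sub_cancel, div_pow, pow_succ, pow_succ]
    field_simp
  let FL : IntermediateField K (AlgebraicClosure K) :=
    { κ.fieldRange with algebraMap_mem' := fun x => ⟨i x, hκi x⟩ }
  have : IsGalois K (AlgebraicClosure K) := ⟨⟩
  have hYL : Y ∈ FL := by
    apply Pool.Agent.W620.SC.mem_of_fixed
    intro σ hσ
    rw [IntermediateField.mem_fixingSubgroup_iff] at hσ
    exact hYfix σ (fun x => hσ _ ⟨x, rfl⟩)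
  obtain ⟨y, hy⟩ : ∃ y, κ y = Y := hYL
  refine ⟨y, κ.injective ?_⟩
  rw [map_pow, hy, hY, div_pow, hcg, div_one, map_pow, ← hBN]
  ring

/-- **descent** -/
theorem descend_step {L : Type} [Field L] [NumberField L] [IsGalois ℚ L] (i : K →+* L)
    (κ : L →+* AlgebraicClosure K) (hκi : ∀ x, κ (i x) = algebraMap K (AlgebraicClosure K) x)
    {N : ℕ} (hN : 1 ≤ N) {B : AlgebraicClosure K} (hB0 : B ≠ 0) {a : L} (hBN : B ^ N = κ a)
    (hfix : ∀ σ : AlgebraicClosure K ≃ₐ[K] AlgebraicClosure K, (∀ x : L, σ (κ x) = κ x) →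
      (∀ ζ, ζ ^ N = 1 → σ ζ = ζ) → σ B = B) :
    ∃ y : L, y ^ N = a ^ ((2 ^ Nat.card (L ≃ₐ[ℚ] L) - 1) * (3 ^ Nat.card (L ≃ₐ[ℚ] L) - 1)) := by
  set d := Nat.card (L ≃ₐ[ℚ] L) with hd
  have ha0 : a ≠ 0 := by
    rintro rfl
    rw [map_zero] at hBN
    exact pow_ne_zero _ hB0 hBN
  obtain ⟨k, m, hm, hNm⟩ := Nat.exists_eq_two_pow_mul_odd (show N ≠ 0 by omega)
  have hco : Nat.Coprime m (2 ^ k) := Nat.Coprime.pow_right _ (Nat.coprime_two_right.2 hm)
  obtain ⟨u0, hu1, hu2⟩ := Nat.chineseRemainder hco 2 3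
  set u := u0 + N with hu
  have hu1' : u ≡ 2 [MOD m] := by
    have h1 : u0 + N ≡ u0 + 0 [MOD m] :=
      Nat.ModEq.add_left _ ((Nat.modEq_zero_iff_dvd).2 ⟨2 ^ k, by rw [hNm]; ring⟩)
    exact h1.trans hu1
  have hu2' : u ≡ 3 [MOD 2 ^ k] := by
    have h1 : u0 + N ≡ u0 + 0 [MOD 2 ^ k] :=
      Nat.ModEq.add_left _ ((Nat.modEq_zero_iff_dvd).2 ⟨m, by rw [hNm]⟩)
    exact h1.trans hu2
  have hcop : u.Coprime N := by
    rw [hNm]
    refine Nat.Coprime.mul_right ?_ ?_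
    · rw [Nat.Coprime, hu2'.gcd_eq]
      exact Nat.Coprime.pow_right _ (by norm_num)
    · rw [Nat.Coprime, hu1'.gcd_eq]
      exact (Nat.coprime_two_left.2 hm)
  obtain ⟨y, hy⟩ := descend_one i κ hκi hN hB0 hBN hfix (show 1 ≤ u by omega) hcop
  rw [← hd] at hy
  set e := u ^ d - 1 with he
  have hgm : Nat.gcd e m ∣ 2 ^ d - 1 := by
    have h1 : e ≡ 2 ^ d - 1 [MOD m] := by
      have h2 : u ^ d ≡ 2 ^ d [MOD m] := hu1'.pow d
      have h3 : 1 ≤ u ^ d := Nat.one_le_pow _ _ (by omega)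
      have h4 : 1 ≤ 2 ^ d := Nat.one_le_pow _ _ (by omega)
      rw [he]
      exact Nat.ModEq.sub h3 h4 h2 rfl
    rw [h1.gcd_eq]
    exact Nat.gcd_dvd_left _ _
  have hg2 : Nat.gcd e (2 ^ k) ∣ 3 ^ d - 1 := by
    have h1 : e ≡ 3 ^ d - 1 [MOD 2 ^ k] := by
      have h2 : u ^ d ≡ 3 ^ d [MOD 2 ^ k] := hu2'.pow d
      have h3 : 1 ≤ u ^ d := Nat.one_le_pow _ _ (by omega)
      have h4 : 1 ≤ 3 ^ d := Nat.one_le_pow _ _ (by omega)
      rw [he]
      exact Nat.ModEq.sub h3 h4 h2 rfl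
    rw [h1.gcd_eq]
    exact Nat.gcd_dvd_left _ _
  have hg : Nat.gcd e N ∣ (2 ^ d - 1) * (3 ^ d - 1) := by
    rw [hNm, mul_comm (2 ^ k) m, hco.gcd_mul]
    exact Nat.mul_dvd_mul hgm hg2
  obtain ⟨r, hr⟩ := hg
  have hbez := Nat.gcd_eq_gcd_ab e N
  refine ⟨(y ^ (Nat.gcdA e N) * a ^ (Nat.gcdB e N)) ^ r, ?_⟩
  rw [hr, pow_mul, ← pow_mul, mul_comm r N, pow_mul]
  congr 1
  rw [← zpow_natCast a, hbez, zpow_add₀ ha0, zpow_mul, zpow_mul, zpow_natCast, zpow_natCast, ← hy,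
    mul_pow, ← zpow_natCast (y ^ Nat.gcdA e N), ← zpow_natCast (a ^ Nat.gcdB e N), ← zpow_mul,
    ← zpow_mul, ← zpow_natCast y, ← zpow_natCast a, ← zpow_mul, ← zpow_mul,
    mul_comm (N : ℤ), mul_comm (N : ℤ)]

end Pool.Agent.V8H94.SC
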