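import Pool.Agent.V8H94.SC.Main

/-!
# Places and points of elliptic curves
-/

set_option autoImplicit false
set_option linter.unusedSectionVars false

open IsDedekindDomain NumberField WeierstrassCurve Pool.Agent.TH954 Pool.Agent.TH942 Polynomial

namespace Pool.Agent.V8H94.SC

section places

variable {K M C : Type} [Field K] [Field M] [Field C] [Algebra K M] [Algebra K C]

open scoped Classical in
/-- the reduction map of points at a place -/
structure Red (pl : Plc K M C) (a b : K) where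
  f : ((sw a b).baseChange M).toAffine.Point →+ ((sw a b).baseChange C).toAffine.Point
  h1 : ∀ x y h, x ∉ pl.W → f (.some x y h) = 0
  h2 : ∀ x y h (hx : x ∈ pl.W), ∃ (hy : y ∈ pl.W)
      (h' : ((sw a b).baseChange C).toAffine.Nonsingular
        (pl.ρ ⟨x, hx⟩) (pl.ρ ⟨y, hy⟩)), f (.some x y h) = .some _ _ h'

lemma exists_red (pl : Plc K M C) [CharZero C] {a b : K} (hD : 4 * a ^ 3 + 27 * b ^ 2 ≠ 0) :
    Nonempty (Red pl a b) := by
  obtain ⟨f, h1, h2⟩ := exists_redM pl hD
  exact ⟨⟨f, h1, h2⟩⟩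

variable {pl : Plc K M C} {a b : K}

lemma Red.some (r : Red pl a b) {x y : M} {h} {c : C} (hc : pl.val x c) :
    ∃ (d : C) (h' : ((sw a b).baseChange C).toAffine.Nonsingular c d), pl.val y d ∧
      r.f (.some x y h) = .some c d h' := by
  obtain ⟨hx, rfl⟩ := hc
  obtain ⟨hy, h', e⟩ := r.h2 x y h hx
  exact ⟨_, h', ⟨hy, rfl⟩, e⟩

open scoped Classical in
/-- values of points which do not reduce to a torsion point -/
theorem Red.avoid (r : Red pl a b) (j : AlgebraicClosure K →ₐ[K] M) {n : ℕ}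
    {Q : ((sw a b).baseChange M).toAffine.Point} (hQ : r.f (n • Q) ≠ 0) :
    ∃ (x y : M) (h : ((sw a b).baseChange M).toAffine.Nonsingular x y) (c d : C)
      (h' : ((sw a b).baseChange C).toAffine.Nonsingular c d), Q = .some x y h ∧
      pl.val x c ∧ pl.val y d ∧ r.f Q = .some c d h' ∧
      ∀ (xs ys : AlgebraicClosure K) (hs : ((sw a b).baseChange
        (AlgebraicClosure K)).toAffine.Nonsingular xs ys),
        n • (.some xs ys hs : AlgPt (sw a b) K) = 0 → c ≠ pl.iot j xs := by
  match Q, hQ with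
  | .zero, hQ =>
    exfalso
    apply hQ
    have h0 : (Affine.Point.zero : ((sw a b).baseChange M).toAffine.Point) = 0 := rfl
    rw [h0, smul_zero, map_zero]
  | .some x y h, hQ =>
    by_cases hx : x ∈ pl.W
    · obtain ⟨c, hc⟩ := Plc.val_of_mem hx
      obtain ⟨d, h', hd, e⟩ := r.some (y := y) (h := h) hc
      refine ⟨x, y, h, c, d, h', rfl, hc, hd, e, ?_⟩
      rintro xs ys hs hn rfl
      have h3 : n • (pm (sw a b) (pl.iot j) (.some xs ys hs)) = 0 := by
        rw [← map_nsmul, hn, map_zero]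
      obtain ⟨g, e1⟩ := pm_some (E := sw a b) (pl.iot j) hs
      rw [e1] at h3
      apply hQ
      rw [map_nsmul, e]
      rcases Affine.Point.X_eq_iff (h₁ := h') (h₂ := g) |>.1 rfl with h4 | h4
      · rw [h4, h3]
      · rw [h4, smul_neg, h3, neg_zero]
    · exfalso
      apply hQ
      rw [map_nsmul, r.h1 x y h hx, smul_zero]

open scoped Classical in
/-- all zeros of the polynomial are abscissae of points of order dividing `n` -/
def TorPoly (a b : K) (n : ℕ) (g : K[X]) : Prop :=
  g ≠ 0 ∧ ∀ θ : AlgebraicClosure K, aeval θ g = 0 → ∃ ys hs,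
    n • (.some θ ys hs : AlgPt (sw a b) K) = 0

open scoped Classical in
lemma TorPoly.ne_zero {n : ℕ} {g : K[X]} (hg : TorPoly a b n g) (j : AlgebraicClosure K →ₐ[K] M)
    {c : C} (hc : ∀ (xs ys : AlgebraicClosure K) (hs : ((sw a b).baseChange
        (AlgebraicClosure K)).toAffine.Nonsingular xs ys),
        n • (.some xs ys hs : AlgPt (sw a b) K) = 0 → c ≠ pl.iot j xs) : aeval c g ≠ 0 := by
  intro h0
  obtain ⟨hg0, hg⟩ := hg
  have hs : (g.map (algebraMap K (AlgebraicClosure K))).Splits := IsAlgClosed.splits _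
  have h1 : g.map (algebraMap K (AlgebraicClosure K)) ≠ 0 :=
    (Polynomial.map_ne_zero_iff (algebraMap K (AlgebraicClosure K)).injective).2 hg0
  obtain ⟨θ, hθ⟩ := hs.mem_range_of_isRoot (i := (pl.iot j : AlgebraicClosure K →+* C)) (x := c) h1
    (by
      rw [IsRoot.def, eval_map, eval₂_map]
      have e1 : (pl.iot j : AlgebraicClosure K →+* C).comp
          (algebraMap K (AlgebraicClosure K)) = algebraMap K C := (pl.iot j).comp_algebraMap
      rw [e1]
      exact h0)
  have hθ' : pl.iot j θ = c := hθ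
  have h2 : aeval θ g = 0 := by
    have h3 : pl.iot j (aeval θ g) = 0 := by
      rw [← aeval_algHom_apply (pl.iot j) θ g, hθ', h0]
    exact (_root_.map_eq_zero _).1 h3
  obtain ⟨ys, hs, h3⟩ := hg θ h2
  exact hc θ ys hs h3 hθ'.symm

end places

section ns

variable {K : Type} [Field K] {E : WeierstrassCurve K} {L : Type} [Field L] [Algebra K L]

open scoped Classical in
lemma ns_zero (m : ℕ) : m • (0 : AlgPt E L) = 0 := smul_zero (A := AlgPt E L) m

open scoped Classical in
lemma ns_neg (m : ℕ) (P : AlgPt E L) : m • (-P) = -(m • P) := smul_neg m P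

open scoped Classical in
lemma ns_neg_eq (m : ℕ) (P : AlgPt E L) : m • (-P) = 0 ↔ m • P = 0 := by
  rw [ns_neg, neg_eq_zero]

open scoped Classical in
lemma ns_le {l i j : ℕ} {S : AlgPt E L} (hij : i ≤ j) (h : l ^ i • S = 0) : l ^ j • S = 0 := by
  obtain ⟨c, rfl⟩ := Nat.exists_eq_add_of_le hij
  rw [pow_add, mul_comm, mul_smul, h, ns_zero]

end ns

section poly

variable {K : Type} [Field K] [CharZero K] {a b : K}

open scoped Classical in
/-- points of exact order `l ^ k` -/
lemma exists_exact (hD : 4 * a ^ 3 + 27 * b ^ 2 ≠ 0) {l : ℕ} (hl : 2 ≤ l) (k : ℕ) :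
    ∃ S : AlgPt (sw a b) K, l ^ (k + 1) • S = 0 ∧ l ^ k • S ≠ 0 := by
  by_contra hcon
  push Not at hcon
  obtain ⟨-, h1, -⟩ := card_base_lt hD (AlgebraicClosure K) (n := l ^ (k + 1))
    (Nat.one_le_pow _ _ (by omega))
  obtain ⟨h2, -, h3⟩ := card_base_lt hD (AlgebraicClosure K) (n := l ^ k)
    (Nat.one_le_pow _ _ (by omega))
  have h4 := Set.ncard_le_ncard (show {P : ((sw a b).baseChange
    (AlgebraicClosure K)).toAffine.Point | l ^ (k + 1) • P = 0} ⊆
    {P : ((sw a b).baseChange (AlgebraicClosure K)).toAffine.Point | l ^ k • P = 0} from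
      fun P hP => hcon P hP) h2
  have h5 : 2 * (l ^ k) ^ 2 ≤ (l ^ (k + 1)) ^ 2 := by
    have h6 : (l ^ (k + 1)) ^ 2 = l ^ 2 * (l ^ k) ^ 2 := by ring
    rw [h6]
    apply Nat.mul_le_mul_right
    nlinarith
  omega

open scoped Classical in
/-- pairwise coprime polynomials whose zeros are abscissae of torsion points -/
theorem exists_polys (hD : 4 * a ^ 3 + 27 * b ^ 2 ≠ 0) {l : ℕ} (hl : 2 ≤ l) (m : ℕ) :
    ∃ g : Fin m → K[X], (∀ i j, i ≠ j → IsCoprime (g i) (g j)) ∧ (∀ i, 0 < (g i).natDegree) ∧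
      ∀ i, TorPoly a b (l ^ m) (g i) := by
  have hne : ∀ k, ∃ (x y : AlgebraicClosure K) (h : ((sw a b).baseChange
      (AlgebraicClosure K)).toAffine.Nonsingular x y),
      l ^ (k + 1) • (.some x y h : AlgPt (sw a b) K) = 0 ∧
      l ^ k • (.some x y h : AlgPt (sw a b) K) ≠ 0 := by
    intro k
    obtain ⟨S, h1, h2⟩ := exists_exact hD hl k
    match S, h1, h2 with
    | .zero, _, h2 =>
      exfalso
      apply h2
      exact ns_zero _
    | .some x y h, h1, h2 => exact ⟨x, y, h, h1, h2⟩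
  choose x y h h1 h2 using hne
  have hroot : ∀ k θ, aeval θ (minpoly K (x k)) = 0 → ∃ (ys : AlgebraicClosure K)
      (hs : ((sw a b).baseChange (AlgebraicClosure K)).toAffine.Nonsingular θ ys),
      l ^ (k + 1) • (.some θ ys hs : AlgPt (sw a b) K) = 0 ∧
      l ^ k • (.some θ ys hs : AlgPt (sw a b) K) ≠ 0 := by
    intro k θ hθ
    have hint : IsIntegral K (x k) := Algebra.IsIntegral.isIntegral _
    have h3 : IsConjRoot K θ (x k) := (isConjRoot_of_aeval_eq_zero hint hθ).symm
    obtain ⟨σ, hσ⟩ := (isConjRoot_iff_exists_algEquiv (L := AlgebraicClosure K)).1 h3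
    obtain ⟨g, e⟩ := pm_some (E := sw a b) ((σ : AlgebraicClosure K →ₐ[K] AlgebraicClosure K)) (h k)
    have key : ∀ θ' (hθ' : σ (x k) = θ'), ∃ (ys : AlgebraicClosure K)
      (hs : ((sw a b).baseChange (AlgebraicClosure K)).toAffine.Nonsingular θ' ys),
      l ^ (k + 1) • (.some θ' ys hs : AlgPt (sw a b) K) = 0 ∧
      l ^ k • (.some θ' ys hs : AlgPt (sw a b) K) ≠ 0 := by
      rintro _ rfl
      refine ⟨σ (y k), g, ?_, ?_⟩
      · have h4 := congrArg (pm (sw a b) ((σ : AlgebraicClosure K →ₐ[K] AlgebraicClosure K))) (h1 k)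
        rw [map_nsmul, map_zero, e] at h4
        exact h4
      · intro h5
        apply h2 k
        apply pm_injective (E := sw a b) ((σ : AlgebraicClosure K →ₐ[K] AlgebraicClosure K))
        rw [map_nsmul, map_zero, e]
        exact h5
    exact key θ hσ
  refine ⟨fun i => minpoly K (x i), ?_, ?_, ?_⟩
  · intro i j hij
    have hint : IsIntegral K (x i) := Algebra.IsIntegral.isIntegral _
    rw [(minpoly.irreducible hint).coprime_iff_not_dvd]
    rintro ⟨q, hq⟩
    obtain ⟨ys, hs, h3, h4⟩ := hroot j (x i) (by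
      have h6 := congrArg (aeval (x i)) hq
      rw [map_mul, minpoly.aeval, zero_mul] at h6
      exact h6)
    have h5 : ∀ n : ℕ, n • (.some (x i) (y i) (h i) : AlgPt (sw a b) K) = 0 ↔
        n • (.some (x i) ys hs : AlgPt (sw a b) K) = 0 := by
      intro n
      rcases Affine.Point.X_eq_iff (h₁ := h i) (h₂ := hs) |>.1 rfl with h6 | h6
      · rw [h6]
      · rw [h6, ns_neg_eq]
    rcases lt_trichotomy (i : ℕ) j with h6 | h6 | h6
    · apply h4
      rw [← h5]
      exact ns_le h6 (h1 i)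
    · exact hij (Fin.ext h6)
    · apply h2 i
      rw [h5]
      exact ns_le h6 h3
  · intro i
    exact minpoly.natDegree_pos (Algebra.IsIntegral.isIntegral _)
  · intro i
    refine ⟨minpoly.ne_zero (Algebra.IsIntegral.isIntegral _), fun θ hθ => ?_⟩
    obtain ⟨ys, hs, h3, -⟩ := hroot i θ hθ
    exact ⟨ys, hs, ns_le i.2 h3⟩

end poly

end Pool.Agent.V8H94.SC
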