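import Pool.Agent.V8H94.SC.Ell1

/-!
# Elements whose values are integral at almost all places
-/

set_option autoImplicit false
set_option linter.unusedSectionVars false

open IsDedekindDomain NumberField WeierstrassCurve Pool.Agent.TH954 Pool.Agent.TH942 Polynomial

namespace Pool.Agent.V8H94.SC

variable {K : Type} [Field K] [NumberField K] {M : Type} [Field M] [Algebra K M]

/-- the value is integral -/
def IntVal {v : HeightOneSpectrum (𝓞 K)} (pl : Plc K M (AlgebraicClosure (v.adicCompletion K)))
    (z : M) : Prop := ∃ c, pl.val z c ∧ IsIntegral (v.adicCompletionIntegers K) c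

/-- the elements whose values are integral, as a subring -/
def intRing {v : HeightOneSpectrum (𝓞 K)}
    (pl : Plc K M (AlgebraicClosure (v.adicCompletion K))) : Subring M where
  carrier := {z | IntVal pl z}
  mul_mem' := by
    rintro x y ⟨c, hc, hc'⟩ ⟨d, hd, hd'⟩
    exact ⟨c * d, hc.mul hd, hc'.mul hd'⟩
  one_mem' := ⟨1, Plc.val_one, isIntegral_one⟩
  add_mem' := by
    rintro x y ⟨c, hc, hc'⟩ ⟨d, hd, hd'⟩
    exact ⟨c + d, hc.add hd, hc'.add hd'⟩
  zero_mem' := ⟨0, Plc.val_zero, isIntegral_zero⟩
  neg_mem' := by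
    rintro x ⟨c, hc, hc'⟩
    refine ⟨-c, ?_, hc'.neg⟩
    have h1 := Plc.val_zero.sub hc
    rwa [zero_sub, zero_sub] at h1

lemma intRing_closed {v : HeightOneSpectrum (𝓞 K)}
    (pl : Plc K M (AlgebraicClosure (v.adicCompletion K))) {z : M} {p : M[X]} (hp : p.Monic)
    (hc : ∀ i, IntVal pl (p.coeff i)) (hz : eval z p = 0) : IntVal pl z := by
  -- the valuation ring contains `z`
  have hW : ∀ i, p.coeff i ∈ pl.W := fun i => by
    obtain ⟨c, hc, -⟩ := hc i
    exact hc.mem
  have hzW : z ∈ pl.W := by
    have h1 : IsIntegral pl.W z := by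
      obtain ⟨q, hq⟩ : ∃ q : pl.W[X], q.map (algebraMap pl.W M) = p := by
        rw [← mem_lifts, lifts_iff_coeff_lifts]
        intro n
        exact ⟨⟨_, hW n⟩, rfl⟩
      refine ⟨q, ?_, ?_⟩
      · refine monic_of_injective (f := algebraMap pl.W M) (Subtype.val_injective) ?_
        rw [hq]
        exact hp
      · rw [← eval_map, hq, hz]
    obtain ⟨y, hy⟩ := IsIntegrallyClosed.isIntegral_iff.1 h1
    rw [← hy]
    exact y.2
  obtain ⟨c, hcz⟩ := Plc.val_of_mem hzW
  refine ⟨c, hcz, ?_⟩
  choose d hd hd' using hc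
  -- the equation of the values
  set O := integralClosure (v.adicCompletionIntegers K)
      (AlgebraicClosure (v.adicCompletion K)) with hO
  have hcO : IsIntegral O c := by
    set q : O[X] := X ^ p.natDegree + ∑ i ∈ Finset.range p.natDegree,
      C (⟨d i, hd' i⟩ : O) * X ^ i with hq
    refine ⟨q, ?_, ?_⟩
    · refine monic_X_pow_add ?_
      refine (degree_sum_le _ _).trans_lt ?_
      rw [Finset.sup_lt_iff (WithBot.bot_lt_coe _)]
      intro i hi
      refine (degree_C_mul_X_pow_le _ _).trans_lt ?_
      exact_mod_cast Finset.mem_range.1 hi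
    · have h1 : z ^ p.natDegree + ∑ i ∈ Finset.range p.natDegree, p.coeff i * z ^ i = 0 := by
        rw [eval_eq_sum_range, Finset.sum_range_succ, hp.coeff_natDegree, one_mul] at hz
        rw [add_comm]
        exact hz
      have h2 : pl.val (z ^ p.natDegree + ∑ i ∈ Finset.range p.natDegree, p.coeff i * z ^ i)
          (c ^ p.natDegree + ∑ i ∈ Finset.range p.natDegree, d i * c ^ i) :=
        (hcz.pow _).add (Plc.val_sum _ (fun i _ => (hd i).mul (hcz.pow i)))
      rw [h1] at h2
      have h3 := Plc.val_zero.unique h2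
      rw [hq, eval₂_add, eval₂_pow, eval₂_X, eval₂_finsetSum]
      simp only [eval₂_mul, eval₂_C, eval₂_pow, eval₂_X]
      exact h3.symm
  exact isIntegral_trans (R := v.adicCompletionIntegers K) (A := O) c hcO

/-- base elements with integral value -/
lemma intVal_base {v : HeightOneSpectrum (𝓞 K)}
    {pl : Plc K M (AlgebraicClosure (v.adicCompletion K))} {z : M} {c : v.adicCompletion K}
    (hc : pl.val z (algebraMap _ _ c)) : IntVal pl z ↔ Valued.v c ≤ 1 := by
  rw [← HeightOneSpectrum.mem_adicCompletionIntegers]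
  constructor
  · rintro ⟨d, hd, hd'⟩
    have h1 := hd.unique hc
    rw [h1, isIntegral_algebraMap_iff (algebraMap (v.adicCompletion K)
      (AlgebraicClosure (v.adicCompletion K))).injective] at hd'
    obtain ⟨y, hy⟩ := IsIntegrallyClosed.isIntegral_iff.1 hd'
    rw [← hy]
    exact y.2
  · intro h
    refine ⟨_, hc, ?_⟩
    rw [isIntegral_algebraMap_iff (algebraMap (v.adicCompletion K)
      (AlgebraicClosure (v.adicCompletion K))).injective]
    exact isIntegral_algebraMap (x := (⟨c, h⟩ : v.adicCompletionIntegers K))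

/-- the elements whose values are defined at all places and integral at almost all places -/
def aeInt (pl : ∀ v : HeightOneSpectrum (𝓞 K), Plc K M (AlgebraicClosure (v.adicCompletion K))) :
    Subring M where
  carrier := {z | (∀ v, z ∈ (pl v).W) ∧ {v | ¬ IntVal (pl v) z}.Finite}
  mul_mem' := by
    rintro x y ⟨h1, h2⟩ ⟨h3, h4⟩
    refine ⟨fun v => mul_mem (h1 v) (h3 v), (h2.union h4).subset fun v hv => ?_⟩
    by_contra hcon
    rw [Set.mem_union, not_or, Set.mem_ofPred_eq, Set.mem_ofPred_eq, not_not, not_not] at hcon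
    exact hv ((intRing (pl v)).mul_mem hcon.1 hcon.2)
  one_mem' := by
    refine ⟨fun v => one_mem _, Set.finite_empty.subset fun v hv => ?_⟩
    exact absurd (intRing (pl v)).one_mem hv
  add_mem' := by
    rintro x y ⟨h1, h2⟩ ⟨h3, h4⟩
    refine ⟨fun v => add_mem (h1 v) (h3 v), (h2.union h4).subset fun v hv => ?_⟩
    by_contra hcon
    rw [Set.mem_union, not_or, Set.mem_ofPred_eq, Set.mem_ofPred_eq, not_not, not_not] at hcon
    exact hv ((intRing (pl v)).add_mem hcon.1 hcon.2)
  zero_mem' := by
    refine ⟨fun v => zero_mem _, Set.finite_empty.subset fun v hv => ?_⟩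
    exact absurd (intRing (pl v)).zero_mem hv
  neg_mem' := by
    rintro x ⟨h1, h2⟩
    refine ⟨fun v => neg_mem (h1 v), h2.subset fun v hv hv' => ?_⟩
    exact hv ((intRing (pl v)).neg_mem hv')

variable {pl : ∀ v : HeightOneSpectrum (𝓞 K), Plc K M (AlgebraicClosure (v.adicCompletion K))}

lemma mem_aeInt {z : M} : z ∈ aeInt pl ↔ (∀ v, z ∈ (pl v).W) ∧ {v | ¬ IntVal (pl v) z}.Finite :=
  Iff.rfl

instance : IsIntegrallyClosedIn (aeInt pl) M := by
  rw [Subring.isIntegrallyClosedIn_iff]
  rintro z ⟨p, hp, hz⟩
  set q : M[X] := p.map (algebraMap (aeInt pl) M) with hq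
  have hqm : q.Monic := hp.map _
  have hqz : eval z q = 0 := by
    rw [hq, eval_map]
    exact hz
  have hqc : ∀ i, q.coeff i ∈ aeInt pl := by
    intro i
    rw [hq, coeff_map]
    exact (p.coeff i).2
  constructor
  · intro v
    have h1 : IsIntegral (pl v).W z := by
      obtain ⟨r, hr⟩ : ∃ r : (pl v).W[X], r.map (algebraMap (pl v).W M) = q := by
        rw [← mem_lifts, lifts_iff_coeff_lifts]
        intro n
        exact ⟨⟨_, (hqc n).1 v⟩, rfl⟩
      refine ⟨r, ?_, ?_⟩
      · refine monic_of_injective (f := algebraMap (pl v).W M) (Subtype.val_injective) ?_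
        rw [hr]
        exact hqm
      · rw [← eval_map, hr, hqz]
    obtain ⟨y, hy⟩ := IsIntegrallyClosed.isIntegral_iff.1 h1
    rw [← hy]
    exact y.2
  · have hfin : (⋃ i ∈ Finset.range (q.natDegree + 1),
        {v | ¬ IntVal (pl v) (q.coeff i)}).Finite :=
      Set.Finite.biUnion (Finset.finite_toSet _) (fun i _ => (hqc i).2)
    refine hfin.subset fun v hv => ?_
    by_contra hcon
    apply hv
    refine intRing_closed (pl v) hqm (fun i => ?_) hqz
    by_cases hi : i ∈ Finset.range (q.natDegree + 1)
    · by_contra hi'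
      apply hcon
      rw [Set.mem_iUnion₂]
      exact ⟨i, hi, hi'⟩
    · have h1 : q.coeff i = 0 := coeff_eq_zero_of_natDegree_lt (by
        rw [Finset.mem_range] at hi
        omega)
      rw [h1]
      exact (intRing (pl v)).zero_mem

/-- constants have integral values at almost all places -/
lemma alg_mem_aeInt (c : K) : algebraMap K M c ∈ aeInt pl := by
  refine ⟨fun v => (pl v).alg_mem c, ?_⟩
  by_cases hc : c = 0
  · refine Set.finite_empty.subset fun v hv => ?_
    apply hv
    rw [hc, map_zero]
    exact (intRing (pl v)).zero_mem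
  · refine (finite_val_ne_one hc).subset fun v hv hv' => ?_
    apply hv
    have h1 : (pl v).val (algebraMap K M c) (algebraMap (v.adicCompletion K)
        (AlgebraicClosure (v.adicCompletion K)) (algebraMap K (v.adicCompletion K) c)) := by
      rw [← IsScalarTower.algebraMap_apply]
      exact Plc.val_alg c
    rw [intVal_base h1]
    have h2 : Valued.v (algebraMap K (v.adicCompletion K) c) = v.valuation K c :=
      HeightOneSpectrum.valuedAdicCompletion_eq_valuation' v c
    rw [h2, hv']

/-- elements of all valuation rings which contain given elements -/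
theorem mem_aeInt_of_forall {z : M} (h : ∀ V : ValuationSubring M,
    (∀ w ∈ aeInt pl, w ∈ V) → z ∈ V) : z ∈ aeInt pl := by
  by_contra hz
  obtain ⟨V, hV, hzV⟩ := Subring.exists_le_valuationSubring_of_isIntegrallyClosedIn hz
  exact hzV (h V (fun w hw => hV hw))

end Pool.Agent.V8H94.SC
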