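import Pool.Agent.V8H94.SC.Ell2

/-!
# Division of the image of a section by elements of a finite group of rational points
-/

set_option autoImplicit false
set_option linter.unusedSectionVars false

open IsDedekindDomain NumberField WeierstrassCurve Pool.Agent.TH954 Pool.Agent.TH942 Polynomial

namespace Pool.Agent.V8H94.SC

variable {K : Type} [Field K] [NumberField K] {M : Type} [Field M] [Algebra K M]

open scoped Classical in
/-- every class in the Selmer group of `l` (without conditions at the archimedean places) is the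
image of an element of `T` -/
def SelmerFrom (E : WeierstrassCurve K) (l : ℕ) (T : AddSubgroup E.toAffine.Point) : Prop :=
  ∀ ξ : (AlgebraicClosure K ≃ₐ[K] AlgebraicClosure K) → AlgPt E K, IsCocycle E ξ →
    (∀ σ, l • ξ σ = 0) →
    (∀ v : HeightOneSpectrum (𝓞 K), TrivialOver E ξ (v.adicCompletion K)) →
    ∃ R ∈ T, ∃ Q : AlgPt E K, l • Q = incl E K R ∧ ∀ σ, ξ σ = act E σ Q - Q

open scoped Classical in
theorem tower {a b : K} (hD : 4 * a ^ 3 + 27 * b ^ 2 ≠ 0) (A : SAct K M) {l : ℕ} (hl : 2 ≤ l)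
    {T : AddSubgroup (SPt a b)} (hSel : SelmerFrom (sw a b) l T)
    (pl : ∀ v : HeightOneSpectrum (𝓞 K), Plc K M (AlgebraicClosure (v.adicCompletion K)))
    (hpl : ∀ v, GeoPlc A (pl v)) (r : ∀ v, Red (pl v) a b)
    {P' : ((sw a b).baseChange M).toAffine.Point} (hP' : ∀ τ, A.pt a b τ P' = P')
    (hdiv : ∀ (R : SPt a b) (N : ℕ), 1 ≤ N → ∃ Q : ((sw a b).baseChange M).toAffine.Point,
      N • Q = P' - pm (sw a b) A.j (incl (sw a b) K R))
    (htor : ∀ N : ℕ, 1 ≤ N → ∀ T' : ((sw a b).baseChange M).toAffine.Point, N • T' = 0 →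
      ∃ T0, pm (sw a b) A.j T0 = T') (k : ℕ) :
    ∃ (Q : ((sw a b).baseChange M).toAffine.Point) (R : SPt a b), R ∈ T ∧
      (∀ τ, A.pt a b τ Q = Q) ∧ l ^ k • Q = P' - pm (sw a b) A.j (incl (sw a b) K R) := by
  have hR0 : pm (sw a b) A.j (incl (sw a b) K (0 : SPt a b)) = 0 := rfl
  induction k with
  | zero =>
    refine ⟨P', 0, T.zero_mem, hP', ?_⟩
    rw [hR0, pow_zero, one_smul, sub_zero]
  | succ k ih =>
    obtain ⟨Q, R, hR, hQf, hQ⟩ := ih
    obtain ⟨Q', hQ'⟩ := hdiv R (l ^ (k + 1)) (Nat.one_le_pow _ _ (by omega))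
    obtain ⟨T0, hT0⟩ := htor (l ^ k) (Nat.one_le_pow _ _ (by omega)) (l • Q' - Q) (by
      rw [smul_sub, ← mul_smul, ← pow_succ, hQ', hQ, sub_self])
    obtain ⟨T1, hT1⟩ := exists_nsmul_base hD (AlgebraicClosure K) (n := l) (by omega) T0
    set Q2 := Q' - pm (sw a b) A.j T1 with hQ2
    have hQ2l : l • Q2 = Q := by
      rw [hQ2, smul_sub, ← map_nsmul, hT1, hT0, sub_sub_cancel]
    obtain ⟨ξ, h1, h2, h3⟩ := exists_cocycle A (a := a) (b := b) hQ2l hQf
      (fun T' hT' => htor l (by omega) T' hT')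
    obtain ⟨R1, hR1, Q0, h4, h5⟩ := hSel ξ h1 h2 (fun v => by
      refine ⟨(pl v).iot A.j, (r v).f Q2, fun σ τ hστ => ?_⟩
      exact (cocycle_local A (a := a) (b := b) (hpl v) (r v).h1 (r v).h2 h3).1 σ τ hστ)
    refine ⟨Q2 - pm (sw a b) A.j Q0, R + l ^ k • R1, T.add_mem hR (T.nsmul_mem hR1 _),
      fun τ => ?_, ?_⟩
    · have e1 : A.pt a b τ (Q2 - pm (sw a b) A.j Q0) =
          A.pt a b τ Q2 - A.pt a b τ (pm (sw a b) A.j Q0) := map_sub _ _ _
      have e2 : A.pt a b τ Q2 = Q2 + pm (sw a b) A.j (ξ τ) := by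
        rw [h3, add_sub_cancel]
      rw [e1, e2, A.pt_j, h5, map_sub]
      abel
    · have e3 : incl (sw a b) K (R + l ^ k • R1) =
          incl (sw a b) K R + l ^ k • incl (sw a b) K R1 := by
        exact (incl_add (E := sw a b) (L := K) R (l ^ k • R1)).trans
          (congrArg _ (incl_nsmul (E := sw a b) (L := K) (l ^ k) R1))
      rw [e3, map_add, map_nsmul, ← h4, map_nsmul, pow_succ, mul_smul, smul_sub l, hQ2l,
        smul_sub, hQ]
      abel

end Pool.Agent.V8H94.SC
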