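import Pool.Agent.V8H94.SC.Ell3

/-!
# Tangents, and rationality of the values
-/

set_option autoImplicit false
set_option linter.unusedSectionVars false

open IsDedekindDomain NumberField WeierstrassCurve Pool.Agent.TH954 Pool.Agent.TH942 Polynomial

namespace Pool.Agent.V8H94.SC

section tangent

lemma base_eqn {K M : Type} [Field K] [Field M] [Algebra K M] {a b : K} {x y : M}
    (h : ((sw a b).baseChange M).toAffine.Nonsingular x y) :
    y ^ 2 = x ^ 3 + algebraMap K M a * x + algebraMap K M b := eqn_base h

variable {K : Type} [Field K] [CharZero K] {a b : K}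

/-- slope of the tangent -/
noncomputable def slp (a : K) (xs ys : AlgebraicClosure K) : AlgebraicClosure K :=
  (3 * xs ^ 2 + algebraMap K (AlgebraicClosure K) a) / (2 * ys)

open scoped Classical in
lemma dbl {xs ys : AlgebraicClosure K}
    (hs : ((sw a b).baseChange (AlgebraicClosure K)).toAffine.Nonsingular xs ys) (hy : ys ≠ 0) :
    ∃ y3 h3, (2 : ℕ) • (.some xs ys hs : AlgPt (sw a b) K) =
      .some (slp a xs ys ^ 2 - 2 * xs) y3 h3 := by
  have hc : CharZero (AlgebraicClosure K) :=
    charZero_of_injective_algebraMap (algebraMap K (AlgebraicClosure K)).injective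
  have hne : ys ≠ ((sw a b).baseChange (AlgebraicClosure K)).toAffine.negY xs ys := by
    intro h
    apply hy
    have h1 : ((sw a b).baseChange (AlgebraicClosure K)).toAffine.negY xs ys = -ys := by
      simp [Affine.negY, sw, WeierstrassCurve.baseChange, WeierstrassCurve.map]
    rw [h1] at h
    have h2 : 2 * ys = 0 := by linear_combination h
    exact (mul_eq_zero.1 h2).resolve_left two_ne_zero
  have h1 := Affine.Point.add_self_of_Y_ne (h₁ := hs) hne
  have h2 : (2 : ℕ) • (.some xs ys hs : AlgPt (sw a b) K) =
      .some xs ys hs + .some xs ys hs := two_nsmul _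
  have h3 : ((sw a b).baseChange (AlgebraicClosure K)).toAffine.slope xs xs ys ys =
      slp a xs ys := by
    rw [Affine.slope_of_Y_ne rfl hne]
    unfold slp
    simp only [Affine.negY, sw, WeierstrassCurve.baseChange, WeierstrassCurve.map, map_zero]
    congr 1 <;> ring
  have h4 : ∀ z, ((sw a b).baseChange (AlgebraicClosure K)).toAffine.addX xs xs z =
      z ^ 2 - 2 * xs := by
    intro z
    simp only [Affine.addX, sw, WeierstrassCurve.baseChange, WeierstrassCurve.map, map_zero]
    ring
  have key : ∀ (X : AlgebraicClosure K) (hX : ((sw a b).baseChange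
      (AlgebraicClosure K)).toAffine.addX xs xs (((sw a b).baseChange
      (AlgebraicClosure K)).toAffine.slope xs xs ys ys) = X),
      ∃ y3 h3, (2 : ℕ) • (.some xs ys hs : AlgPt (sw a b) K) = .some X y3 h3 := by
    rintro _ rfl
    exact ⟨_, _, h2.trans h1⟩
  apply key
  rw [h4, h3]

/-- the tangent does not meet other points -/
lemma tan_ne {C : Type} [Field C] [Algebra K C] (ι : AlgebraicClosure K →ₐ[K] C)
    {xs ys : AlgebraicClosure K}
    (hs : ((sw a b).baseChange (AlgebraicClosure K)).toAffine.Nonsingular xs ys) (hy : ys ≠ 0)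
    {c d : C} (h : ((sw a b).baseChange C).toAffine.Nonsingular c d) (h1 : c ≠ ι xs)
    (h2 : c ≠ ι (slp a xs ys ^ 2 - 2 * xs)) :
    d - ι ys - ι (slp a xs ys) * (c - ι xs) ≠ 0 := by
  intro h0
  have hc : CharZero (AlgebraicClosure K) :=
    charZero_of_injective_algebraMap (algebraMap K (AlgebraicClosure K)).injective
  have e1 := base_eqn h
  have e2 := base_eqn hs
  have e2' := congrArg ι e2
  simp only [map_add, map_mul, map_pow, AlgHom.commutes] at e2'
  have e3 : slp a xs ys * (2 * ys) = 3 * xs ^ 2 + algebraMap K (AlgebraicClosure K) a := by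
    unfold slp
    rw [div_mul_cancel₀]
    exact mul_ne_zero two_ne_zero hy
  have e3' := congrArg ι e3
  simp only [map_add, map_mul, map_pow, AlgHom.commutes, map_ofNat] at e3'
  have h3 : (c - ι xs) ^ 2 * (c - ι (slp a xs ys ^ 2 - 2 * xs)) = 0 := by
    simp only [map_sub, map_mul, map_pow, map_ofNat]
    set X := ι xs
    set Y := ι ys
    set m := ι (slp a xs ys)
    linear_combination (d + Y + m * (c - X)) * h0 - e1 + e2' + (c - X) * e3'
  rcases mul_eq_zero.1 h3 with h4 | h4
  · exact h1 (sub_eq_zero.1 (pow_eq_zero_iff (two_ne_zero) |>.1 h4))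
  · exact h2 (sub_eq_zero.1 h4)

end tangent

section descent

variable {K : Type} [Field K] [NumberField K]

/-- a finite Galois extension containing two given elements -/
lemma exists_gal2 (θ θ' : AlgebraicClosure K) :
    ∃ E : IntermediateField K (AlgebraicClosure K),
    FiniteDimensional K E ∧ IsGalois K E ∧ θ ∈ E ∧ θ' ∈ E := by
  have h1 : FiniteDimensional K (IntermediateField.adjoin K {θ, θ'}) :=
    IntermediateField.finiteDimensional_adjoin (fun x _ => Algebra.IsIntegral.isIntegral x)
  refine ⟨IntermediateField.normalClosure K (IntermediateField.adjoin K {θ, θ'})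
    (AlgebraicClosure K), inferInstance, ?_, ?_, ?_⟩
  · have : Normal K (IntermediateField.normalClosure K (IntermediateField.adjoin K {θ, θ'})
      (AlgebraicClosure K)) := inferInstance
    exact ⟨⟩
  · exact IntermediateField.le_normalClosure _ (IntermediateField.subset_adjoin K _ (by simp))
  · exact IntermediateField.le_normalClosure _ (IntermediateField.subset_adjoin K _ (by simp))

/-- local elements all of whose images are equal to one element of a Galois extension -/
lemma descend_const (E : IntermediateField K (AlgebraicClosure K)) [NumberField E] [IsGalois K E]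
    (x : ∀ v : HeightOneSpectrum (𝓞 K), v.adicCompletion K) (Y : E)
    (hall : ∀ (v : HeightOneSpectrum (𝓞 K)) (w : HeightOneSpectrum (𝓞 E))
      (k : v.adicCompletion K →+* w.adicCompletion E),
      (∀ x : K, k (algebraMap K _ x) = algebraMap E (w.adicCompletion E) (algebraMap K E x)) →
      k (x v) = algebraMap E (w.adicCompletion E) Y) :
    ∃ y0 : K, algebraMap K E y0 = Y ∧ ∀ v, x v = algebraMap K (v.adicCompletion K) y0 := by
  obtain ⟨y0, hy0⟩ : ∃ y0 : K, algebraMap K E y0 = Y := by
    have h1 : Y ∈ (⊥ : IntermediateField K E) := by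
      apply Pool.Agent.W620.SC.mem_of_fixed
      intro σ _
      obtain ⟨w⟩ := exists_place E
      obtain ⟨w', k1, hk1⟩ := exists_under (σ : E →+* E) w
      obtain ⟨v, k2, hk2⟩ := exists_under (algebraMap K E) w'
      have h2 := hall v w' k2 hk2
      have h3 := hall v w (k1.comp k2) (by
        intro a
        rw [RingHom.comp_apply, hk2, hk1]
        congr 1
        exact σ.commutes a)
      rw [RingHom.comp_apply, h2, hk1] at h3
      exact (algebraMap E (w.adicCompletion E)).injective h3
    exact IntermediateField.mem_bot.1 h1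
  refine ⟨y0, hy0, fun v => ?_⟩
  obtain ⟨w, k, hk⟩ := exists_above (algebraMap K E) v
  apply k.injective
  rw [hall v w k hk, hk, hy0]

end descent

end Pool.Agent.V8H94.SC
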