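import Pool.Agent.V8H94.SC.Ell4

/-!
# Rationality of the values of a point of an elliptic curve
-/

set_option autoImplicit false
set_option linter.unusedSectionVars false

open IsDedekindDomain NumberField WeierstrassCurve Pool.Agent.TH954 Pool.Agent.TH942 Polynomial

namespace Pool.Agent.V8H94.SC

variable {K : Type} [Field K] [NumberField K] {M : Type} [Field M] [Algebra K M]

open scoped Classical in
lemma ns_smul_zero {E : WeierstrassCurve K} {m : ℕ} {S : AlgPt E K} (h : m • S = 0) (c : ℕ) :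
    m • (c • S) = 0 := by
  rw [← mul_smul, mul_comm, mul_smul, h, ns_zero]

open scoped Classical in
/-- a point of order dividing `n ≥ 4` with nonzero ordinate -/
lemma exists_ne_two {a b : K} (hD : 4 * a ^ 3 + 27 * b ^ 2 ≠ 0) {n : ℕ} (hn : 4 ≤ n) :
    ∃ (xs ys : AlgebraicClosure K) (hs : ((sw a b).baseChange
      (AlgebraicClosure K)).toAffine.Nonsingular xs ys),
      n • (.some xs ys hs : AlgPt (sw a b) K) = 0 ∧ ys ≠ 0 := by
  by_contra hcon
  push Not at hcon
  obtain ⟨-, h1, -⟩ := card_base_lt hD (AlgebraicClosure K) (n := n) (by omega)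
  obtain ⟨h2, -, h3⟩ := card_base_lt hD (AlgebraicClosure K) (n := 2) (by omega)
  have h4 := Set.ncard_le_ncard (show {P : ((sw a b).baseChange
    (AlgebraicClosure K)).toAffine.Point | n • P = 0} ⊆
    {P : ((sw a b).baseChange (AlgebraicClosure K)).toAffine.Point | 2 • P = 0} from by
      intro P hP
      match P, hP with
      | .zero, _ => exact ns_zero _
      | .some xs ys hs, hP =>
        have h5 := hcon xs ys hs hP
        subst h5
        have h6 : (.some xs 0 hs : AlgPt (sw a b) K) + .some xs 0 hs = 0 :=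
          Affine.Point.add_self_of_Y_eq (h₁ := hs) (by
            simp [Affine.negY, sw, WeierstrassCurve.baseChange, WeierstrassCurve.map])
        exact (two_nsmul _).trans h6) h2
  nlinarith

variable (A : SAct K M)

open scoped Classical in
theorem ell_core {a b : K} (hD : 4 * a ^ 3 + 27 * b ^ 2 ≠ 0) {l k : ℕ} (hl : 2 ≤ l)
    (hk : Small K k) (hk2 : 2 ≤ k)
    (pl : ∀ v : HeightOneSpectrum (𝓞 K), Plc K M (AlgebraicClosure (v.adicCompletion K)))
    (hpl : ∀ v, GeoPlc A (pl v)) (r : ∀ v, Red (pl v) a b)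
    {t y : M} {h : ((sw a b).baseChange M).toAffine.Nonsingular t y}
    (ht : ∀ τ, A.s τ t = t) (hy : ∀ τ, A.s τ y = y)
    (hQv : ∀ v, (r v).f (l ^ k • (.some t y h)) ≠ 0)
    (hr1 : ∀ g : K[X], TorPoly a b (l ^ k) g → ∀ N : ℕ, 1 ≤ N → ∃ w : M, w ^ N = aeval t g)
    (hr2 : ∀ (xs ys : AlgebraicClosure K) (hs : ((sw a b).baseChange
      (AlgebraicClosure K)).toAffine.Nonsingular xs ys),
      l ^ k • (.some xs ys hs : AlgPt (sw a b) K) = 0 → ∀ N : ℕ, 1 ≤ N →
        ∃ w : M, w ^ N = t - A.j xs)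
    (hr3 : ∀ (xs ys : AlgebraicClosure K) (hs : ((sw a b).baseChange
      (AlgebraicClosure K)).toAffine.Nonsingular xs ys),
      l ^ k • (.some xs ys hs : AlgPt (sw a b) K) = 0 → ys ≠ 0 → ∀ N : ℕ, 1 ≤ N →
        ∃ w : M, w ^ N = y - A.j ys - A.j (slp a xs ys) * (t - A.j xs))
    (hint : ∀ g : K[X], TorPoly a b (l ^ k) g →
      aeval t g ∈ aeInt pl ∧ (aeval t g)⁻¹ ∈ aeInt pl) :
    ∃ (u η : K), ∀ v, (pl v).val t (algebraMap K _ u) ∧ (pl v).val y (algebraMap K _ η) := by
  have hcv : ∀ v : HeightOneSpectrum (𝓞 K), CharZero (v.adicCompletion K) := fun v =>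
    charZero_of_injective_algebraMap (algebraMap K (v.adicCompletion K)).injective
  -- the values
  have hval : ∀ v, ∃ (x z : v.adicCompletion K),
      (pl v).val t (algebraMap _ _ x) ∧ (pl v).val y (algebraMap _ _ z) ∧
      ((sw a b).baseChange (AlgebraicClosure (v.adicCompletion K))).toAffine.Nonsingular
        (algebraMap _ (AlgebraicClosure (v.adicCompletion K)) x)
        (algebraMap _ (AlgebraicClosure (v.adicCompletion K)) z) ∧
      ∀ (xs ys : AlgebraicClosure K) (hs : ((sw a b).baseChange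
        (AlgebraicClosure K)).toAffine.Nonsingular xs ys),
        l ^ k • (.some xs ys hs : AlgPt (sw a b) K) = 0 →
        algebraMap _ (AlgebraicClosure (v.adicCompletion K)) x ≠ (pl v).iot A.j xs := by
    intro v
    obtain ⟨t', y', h', c, d, h'', e, hc, hd, -, hav⟩ := (r v).avoid A.j (hQv v)
    rw [Affine.Point.some.injEq] at e
    obtain ⟨rfl, rfl⟩ := e
    obtain ⟨x, hx⟩ := value_base A (hpl v) (x := t) ht hc.mem
    obtain ⟨z, hz⟩ := value_base A (hpl v) (x := y) hy hd.mem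
    have e1 : c = algebraMap _ _ x := by
      rw [hx]
      exact hc.2.symm
    have e2 : d = algebraMap _ _ z := by
      rw [hz]
      exact hd.2.symm
    subst e1
    subst e2
    exact ⟨x, z, hc, hd, h'', hav⟩
  choose x z hx hz hns hav using hval
  obtain ⟨g, hcop, hdeg, htor⟩ := exists_polys hD hl k
  obtain ⟨L, _, _, Φ, hne, hΦm, hΦ⟩ := hk
  have hk0 : 0 < k := by omega
  obtain ⟨θ0, hθ0⟩ := IsAlgClosed.exists_aeval_eq_zero (AlgebraicClosure K) (g ⟨0, hk0⟩) (by
    intro h0
    have h1 := hdeg ⟨0, hk0⟩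
    rw [natDegree_pos_iff_degree_pos, h0] at h1
    exact lt_irrefl _ h1)
  obtain ⟨ys0, hs0, htor0⟩ := (htor ⟨0, hk0⟩).2 θ0 hθ0
  have hnz : ∀ v j, aeval (x v) (g j) ≠ 0 := by
    intro v j h0
    refine (htor j).ne_zero (pl := pl v) A.j (c := algebraMap _ _ (x v)) (hav v) ?_
    rw [aeval_algebraMap_apply, h0, map_zero]
  obtain ⟨u, hu⟩ := core A pl hpl ht Φ hne hΦ hΦm g hcop hdeg (fun j => hr1 _ (htor j)) hθ0
    (hr2 _ _ _ htor0) x hx hnz (by
    intro j
    obtain ⟨h1, h2⟩ := hint _ (htor j)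
    refine (h1.2.union h2.2).subset fun v hv => ?_
    by_contra hcon
    rw [Set.mem_union, not_or, Set.mem_ofPred_eq, Set.mem_ofPred_eq, not_not, not_not] at hcon
    apply hv
    have e1 : (pl v).val (aeval t (g j)) (algebraMap _ _ (aeval (x v) (g j))) := by
      have := Plc.val_aeval (hx v) (g j)
      rwa [aeval_algebraMap_apply] at this
    have e2 := e1.inv (by
      rw [_root_.map_ne_zero]
      exact hnz v j)
    rw [← map_inv₀ (algebraMap (v.adicCompletion K) _)] at e2
    have h3 := (intVal_base e1).1 hcon.1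
    have h4 := (intVal_base e2).1 hcon.2
    rw [map_inv₀] at h4
    refine le_antisymm h3 ?_
    have h5 : Valued.v (aeval (x v) (g j)) ≠ 0 := (Valuation.ne_zero_iff _).2 (hnz v j)
    exact (inv_le_one₀ (zero_lt_iff.2 h5)).1 h4)
  -- the ordinate
  obtain ⟨xs, ys, hs, hn, hys⟩ := exists_ne_two hD (n := l ^ k) (by
    calc 4 = 2 ^ 2 := rfl
      _ ≤ l ^ 2 := Nat.pow_le_pow_left hl 2
      _ ≤ l ^ k := Nat.pow_le_pow_right (by omega) hk2)
  obtain ⟨E, hE1, hE2, hxE, hyE⟩ := exists_gal2 xs ys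
  have hEc : CharZero E := charZero_of_injective_algebraMap (algebraMap K E).injective
  have hEt : IsScalarTower ℚ K E := IsScalarTower.of_algebraMap_eq (fun x => by
      rw [eq_ratCast, eq_ratCast, map_ratCast])
  have hEf : FiniteDimensional ℚ E := FiniteDimensional.trans ℚ K E
  have hEn : NumberField E := ⟨⟩
  have hsE : slp a xs ys ∈ E := by
    unfold slp
    refine div_mem (add_mem (mul_mem ?_ (pow_mem hxE 2)) (E.algebraMap_mem a)) (mul_mem ?_ hyE)
    · exact ofNat_mem E 3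
    · exact ofNat_mem E 2
  let xE : E := ⟨xs, hxE⟩
  let yE : E := ⟨ys, hyE⟩
  let sE : E := ⟨slp a xs ys, hsE⟩
  set φ : M := y - A.j ys - A.j (slp a xs ys) * (t - A.j xs) with hφdef
  have hφs : ∀ ρ, A.s ρ φ = y - A.j (ρ ys) - A.j (ρ (slp a xs ys)) * (t - A.j (ρ xs)) := by
    intro ρ
    rw [hφdef, map_sub, map_sub, map_mul, map_sub, ht, hy, A.hj, A.hj, A.hj]
  have hφv : ∀ v ρ, (pl v).val (A.s ρ φ) (algebraMap _ _ (z v) - (pl v).iot A.j (ρ ys) -
      (pl v).iot A.j (ρ (slp a xs ys)) * (algebraMap _ _ (x v) - (pl v).iot A.j (ρ xs))) := by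
    intro v ρ
    rw [hφs]
    exact ((hz v).sub (Plc.val_j A.j _)).sub ((Plc.val_j A.j _).mul ((hx v).sub (Plc.val_j A.j _)))
  have hφn : ∀ v (ρ : AlgebraicClosure K ≃ₐ[K] AlgebraicClosure K),
      algebraMap _ _ (z v) - (pl v).iot A.j (ρ ys) -
      (pl v).iot A.j (ρ (slp a xs ys)) * (algebraMap _ _ (x v) - (pl v).iot A.j (ρ xs)) ≠ 0 := by
    intro v ρ
    have hρ : ρ (slp a xs ys) = slp a (ρ xs) (ρ ys) := by
      unfold slp
      simp only [map_div₀, map_add, map_mul, map_pow, map_ofNat, AlgEquiv.commutes]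
    obtain ⟨g', e⟩ := pm_some (E := sw a b) ((ρ : AlgebraicClosure K →ₐ[K] AlgebraicClosure K)) hs
    have hρn : l ^ k • (.some (ρ xs) (ρ ys) g' : AlgPt (sw a b) K) = 0 := by
      have h4 := congrArg (pm (sw a b) ((ρ : AlgebraicClosure K →ₐ[K] AlgebraicClosure K))) hn
      rw [map_nsmul, map_zero, e] at h4
      exact h4
    have hρy : ρ ys ≠ 0 := by
      rw [_root_.map_ne_zero]
      exact hys
    rw [hρ]
    obtain ⟨y3, h3, e3⟩ := dbl (a := a) (b := b) g' hρy
    refine tan_ne (a := a) (b := b) ((pl v).iot A.j) g' hρy (hns v) (hav v _ _ g' hρn)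
      (hav v _ y3 h3 ?_)
    rw [← e3]
    exact ns_smul_zero hρn 2
  obtain ⟨v0⟩ := exists_place K
  have hφ0 : φ ≠ 0 := by
    intro h0
    have h1 := hφv v0 1
    rw [h0, map_zero] at h1
    exact hφn v0 1 (Plc.val_zero.unique h1).symm
  set D : K := u ^ 3 + a * u + b with hDdef
  have hzD : ∀ v, z v ^ 2 = algebraMap K (v.adicCompletion K) D := by
    intro v
    have h1 := base_eqn (hns v)
    apply (algebraMap (v.adicCompletion K) (AlgebraicClosure (v.adicCompletion K))).injective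
    rw [map_pow, h1, hDdef, hu v]
    simp only [map_add, map_mul, map_pow, ← IsScalarTower.algebraMap_apply]
  set ℓ : E := yE + sE * (algebraMap K E u - xE) with hℓ
  have hkx : ∀ v w k e ρ c, Cmp E (fun v => (pl v).iot A.j) v w k e ρ →
      (pl v).val (A.s ρ φ) c → e c = algebraMap (w.adicCompletion E) _
        (k (z v) - algebraMap E (w.adicCompletion E) ℓ) := by
    intro v w k e ρ c hC hc
    have h1 : e ((pl v).iot A.j (ρ ys)) = _ := hC.hρ yE
    have h2 : e ((pl v).iot A.j (ρ xs)) = _ := hC.hρ xE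
    have h3 : e ((pl v).iot A.j (ρ (slp a xs ys))) = _ := hC.hρ sE
    rw [hc.unique (hφv v ρ), map_sub, map_sub, map_mul, map_sub, h1, h2, h3, hC.he, hC.he, hu v,
      hC.hk, hℓ]
    simp only [map_sub, map_add, map_mul]
    ring
  obtain ⟨Y, hY⟩ := rat_of_fixed A E pl hpl hφ0 (fun τ hτ => by
      have h1 := (IntermediateField.mem_fixingSubgroup_iff _ _).1 hτ
      rw [hφs, h1 _ hxE, h1 _ hyE, h1 _ hsE]) (hr3 xs ys hs hn hys)
    (fun v ρ => ⟨_, hφn v ρ, hφv v ρ⟩) (q := (X + C ℓ) ^ 2 - C (algebraMap K E D)) (by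
      intro h0
      have h1 : ((X + C ℓ : E[X]) ^ 2 - C (algebraMap K E D)).natDegree = 2 := by
        rw [natDegree_sub_C, natDegree_pow, natDegree_X_add_C]
      rw [h0, natDegree_zero] at h1
      omega) (by
      intro v w k e ρ c s hC hc hs
      have h1 := hkx v w k e ρ c hC hc
      rw [hs] at h1
      have h2 := (algebraMap (w.adicCompletion E)
        (AlgebraicClosure (w.adicCompletion E))).injective h1
      rw [h2]
      simp only [map_sub, map_add, map_pow, aeval_X, aeval_C, sub_add_cancel]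
      rw [← map_pow, hzD, hC.hk, sub_self])
  obtain ⟨η, -, hη⟩ := descend_const E z (Y + ℓ) (by
    intro v w k hk
    obtain ⟨e, ρ, h1, h2, h3⟩ := exists_e_rho E v w k hk ((pl v).iot A.j)
    have hC : Cmp E (fun v => (pl v).iot A.j) v w k e ρ := ⟨hk, h1, h2, h3⟩
    have h4 := hkx v w k e ρ _ hC (hφv v ρ)
    have h5 := hY v w k e ρ _ hC (hφv v ρ)
    rw [h4] at h5
    have h6 := (algebraMap (w.adicCompletion E)
        (AlgebraicClosure (w.adicCompletion E))).injective h5
    rw [map_add, ← h6]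
    ring)
  refine ⟨u, η, fun v => ⟨?_, ?_⟩⟩
  · rw [IsScalarTower.algebraMap_apply K (v.adicCompletion K), ← hu v]
    exact hx v
  · rw [IsScalarTower.algebraMap_apply K (v.adicCompletion K), ← hη v]
    exact hz v

end Pool.Agent.V8H94.SC
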