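import Pool.Agent.V8H94.SC.Ell5

/-!
# Units at places
-/

set_option autoImplicit false
set_option linter.unusedSectionVars false

open IsDedekindDomain NumberField WeierstrassCurve Pool.Agent.TH954 Pool.Agent.TH942 Polynomial
  Pool.Agent.W620.SC

namespace Pool.Agent.V8H94.SC

section place

variable {K : Type} [Field K] [NumberField K] {M C : Type} [Field M] [Field C] [Algebra K M]
  [Algebra K C] {pl : Plc K M C} {a b : K}

lemma two_sub {u : C} {z : M} (h : pl.val z u) (hu : u ≠ 0) : z ∈ pl.W ∧ z⁻¹ ∈ pl.W :=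
  ⟨h.mem, (h.inv hu).mem⟩

open scoped Classical in
/-- values of units -/
theorem Red.units (r : Red pl a b) (j : AlgebraicClosure K →ₐ[K] M) {n : ℕ} {t y : M}
    {h : ((sw a b).baseChange M).toAffine.Nonsingular t y}
    (hQ : r.f (n • (.some t y h)) ≠ 0) :
    (∀ g : K[X], TorPoly a b n g → ∃ u, u ≠ 0 ∧ pl.val (aeval t g) u) ∧
    (∀ (xs ys : AlgebraicClosure K) (hs : ((sw a b).baseChange
      (AlgebraicClosure K)).toAffine.Nonsingular xs ys),
      n • (.some xs ys hs : AlgPt (sw a b) K) = 0 →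
        ∃ u, u ≠ 0 ∧ pl.val (t - j xs) u) ∧
    (∀ (xs ys : AlgebraicClosure K) (hs : ((sw a b).baseChange
      (AlgebraicClosure K)).toAffine.Nonsingular xs ys),
      n • (.some xs ys hs : AlgPt (sw a b) K) = 0 → ys ≠ 0 →
        ∃ u, u ≠ 0 ∧ pl.val (y - j ys - j (slp a xs ys) * (t - j xs)) u) := by
  obtain ⟨t', y', h', c, d, h'', e, hc, hd, -, hav⟩ := r.avoid j hQ
  rw [Affine.Point.some.injEq] at e
  obtain ⟨rfl, rfl⟩ := e
  refine ⟨?_, ?_, ?_⟩
  · intro g hg
    exact ⟨_, hg.ne_zero (pl := pl) j hav, Plc.val_aeval hc g⟩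
  · intro xs ys hs hn
    exact ⟨_, sub_ne_zero.2 (hav xs ys hs hn), hc.sub (Plc.val_j j xs)⟩
  · intro xs ys hs hn hys
    obtain ⟨y3, h3, e3⟩ := dbl (a := a) (b := b) hs hys
    refine ⟨_, tan_ne (a := a) (b := b) (pl.iot j) hs hys h'' (hav _ _ hs hn) (hav _ y3 h3 ?_),
      (hd.sub (Plc.val_j j _)).sub ((Plc.val_j j _).mul (hc.sub (Plc.val_j j _)))⟩
    rw [← e3]
    exact ns_smul_zero hn 2

/-- the place of a valuation ring -/
lemma exists_plc (W : ValuationSubring M) (hW : ∀ c : K, algebraMap K M c ∈ W) :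
    ∃ (C : Type) (_ : Field C) (_ : Algebra K C) (_ : CharZero C) (pl : Plc K M C), pl.W = W := by
  let f : K →+* IsLocalRing.ResidueField W :=
    (IsLocalRing.residue W).comp ((algebraMap K M).codRestrict W hW)
  let _ : Algebra K (IsLocalRing.ResidueField W) := f.toAlgebra
  have hc : CharZero (IsLocalRing.ResidueField W) :=
    charZero_of_injective_algebraMap f.injective
  refine ⟨IsLocalRing.ResidueField W, inferInstance, inferInstance, hc,
    ⟨W, IsLocalRing.residue W, ?_, fun c => ⟨hW c, rfl⟩⟩, rfl⟩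
  intro x hx
  have h1 : IsUnit x := by
    rw [← not_not (a := IsUnit x)]
    intro h
    apply hx
    rw [IsLocalRing.residue_eq_zero_iff]
    exact h
  obtain ⟨u, rfl⟩ := h1
  have h2 : ((u : W) : M)⁻¹ = ((u⁻¹ : Wˣ) : W) := by
    apply inv_eq_of_mul_eq_one_right
    have h3 : ((u : W) : M) * (((u⁻¹ : Wˣ) : W) : M) = ((u : W) * ((u⁻¹ : Wˣ) : W) : W) := rfl
    rw [h3, Units.mul_inv]
    rfl
  rw [h2]
  exact ((u⁻¹ : Wˣ) : W).2

open scoped Classical in
/-- the difference with a rational point is not in the kernel of the reduction -/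
theorem Red.sub_ne (r : Red pl a b) (j : AlgebraicClosure K →ₐ[K] M) {t y : M}
    {h : ((sw a b).baseChange M).toAffine.Nonsingular t y} {c : C} (hc : pl.val t c)
    (R : SPt a b) (hR : ∀ xr yr hr, R = .some xr yr hr → c ≠ algebraMap K C xr) :
    r.f (.some t y h - pm (sw a b) j (incl (sw a b) K R)) ≠ 0 := by
  obtain ⟨d, h', hd, e⟩ := r.some (y := y) (h := h) hc
  rw [map_sub, e, red_pm (pl := pl) (a := a) (b := b) (red := r.f) (map_zero r.f) r.h1 r.h2 j
    (pl.iot j) (pl.iot_spec j)]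
  match R, hR with
  | .zero, _ =>
    intro h0
    have h1 : pm (sw a b) (pl.iot j) (incl (sw a b) K (.zero : SPt a b)) = 0 := rfl
    rw [h1, sub_zero] at h0
    exact Affine.Point.some_ne_zero h' h0
  | .some xr yr hr, hR =>
    intro h0
    rw [sub_eq_zero] at h0
    have h1 : ∃ g, pm (sw a b) (pl.iot j) (incl (sw a b) K (.some xr yr hr : SPt a b)) =
        .some (pl.iot j (algebraMap K _ xr)) (pl.iot j (algebraMap K _ yr)) g := ⟨_, rfl⟩
    obtain ⟨g, h1⟩ := h1
    rw [h1, Affine.Point.some.injEq] at h0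
    apply hR xr yr hr rfl
    rw [h0.1, (pl.iot j).commutes]

end place

end Pool.Agent.V8H94.SC
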