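import Pool.Agent.V8H94.SC.Ell6

/-!
# Adelic sections of open subcurves of elliptic curves
-/

set_option autoImplicit false
set_option linter.unusedSectionVars false

open IsDedekindDomain NumberField WeierstrassCurve Pool.Agent.TH954 Pool.Agent.TH942 Polynomial
  Pool.Agent.W620.SC

namespace Pool.Agent.V8H94.SC

open scoped Classical in
lemma pm_locHom {K L₁ L₂ : Type} [Field K] [Field L₁] [Field L₂] [Algebra K L₁] [Algebra K L₂]
    {E : WeierstrassCurve K} (g : L₁ →ₐ[K] L₂) (R : E.toAffine.Point) :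
    pm E g (locHom (L := L₁) E R) = locHom (L := L₂) E R := by
  match R with
  | .zero => rfl
  | .some x y h =>
    change Affine.Point.some (g (algebraMap K L₁ x)) (g (algebraMap K L₁ y)) _ =
      Affine.Point.some (algebraMap K L₂ x) (algebraMap K L₂ y) _
    simp only [g.commutes]

variable {K : Type} [Field K] [NumberField K] {F Ω M B : Type} [Field F] [Field Ω] [Field M]
  [Field B] [Algebra K F] [Algebra F Ω] [Algebra K Ω] [IsScalarTower K F Ω] [Algebra F M]
  [Algebra K M] [IsScalarTower K F M] [Algebra K B] [IsAlgClosure F Ω] [IsAlgClosure K B]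

/-- roots of units at all places -/
lemma exists_roots {U : Set (ValuationSubring F)} (hU : ∀ O ∈ U, ∀ c : K, algebraMap K F c ∈ O)
    (e : M →ₐ[F] Ω) (he : unramified F Ω U ≤ e.fieldRange) {z : M}
    (hz : ∀ W : ValuationSubring Ω, W.comap (algebraMap F Ω) ∈ U →
      e z ∈ W ∧ (e z)⁻¹ ∈ W ∧ ∀ σ ∈ inertia F Ω W, σ (e z) = e z) {N : ℕ} (hN : 1 ≤ N) :
    ∃ w : M, w ^ N = z := by
  have hΩ1 : IsAlgClosed Ω := IsAlgClosure.isAlgClosed F
  have hcF : CharZero F := charZero_of_injective_algebraMap (algebraMap K F).injective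
  obtain ⟨w, hw, hwN⟩ := root_unramified (Ω := Ω) hU (x := e z) hz hN
  obtain ⟨w', rfl⟩ := he hw
  refine ⟨w', ?_⟩
  apply e.injective
  rw [map_pow]
  exact hwN

open scoped Classical in
/-- all local values of the division points are rational -/
theorem ell_step {a b : K} (hD : 4 * a ^ 3 + 27 * b ^ 2 ≠ 0) {l : ℕ} (hl : 2 ≤ l)
    {T : AddSubgroup (SPt a b)}
    (U : Set (ValuationSubring F)) (hU : ∀ O ∈ U, ∀ c : K, algebraMap K F c ∈ O)
    (e : M →ₐ[F] Ω) (he : unramified F Ω U ≤ e.fieldRange)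
    {x y : F} (hP : ((sw a b).baseChange F).toAffine.Nonsingular x y)
    (hreg : ∀ O ∈ U, x ∈ O ∧ ∀ xr yr hr, (.some xr yr hr : SPt a b) ∈ T →
      (x - algebraMap K F xr)⁻¹ ∈ O)
    (A : SAct K M)
    (p : ∀ v : HeightOneSpectrum (𝓞 K), Plc K M (AlgebraicClosure (v.adicCompletion K)))
    (hpl : ∀ v, GeoPlc A (p v)) (r : ∀ v, Red (p v) a b)
    (X : ∀ v : HeightOneSpectrum (𝓞 K), v.adicCompletion K)
    (hX : ∀ v, (p v).val (algebraMap F M x)
      (algebraMap (v.adicCompletion K) (AlgebraicClosure (v.adicCompletion K)) (X v)))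
    (hXint : {v | 1 < Valued.v (X v)}.Finite)
    (hXT : ∀ xr yr hr, (.some xr yr hr : SPt a b) ∈ T →
      (∀ v, X v ≠ algebraMap K (v.adicCompletion K) xr) ∧
      {v | Valued.v (X v - algebraMap K (v.adicCompletion K) xr) ≠ 1}.Finite)
    {k : ℕ} (hk : Small K k) (hk2 : 2 ≤ k) {Q : ((sw a b).baseChange M).toAffine.Point}
    (hQf : ∀ τ, A.pt a b τ Q = Q) {R : SPt a b} (hR : R ∈ T)
    (hQ : l ^ k • Q = pm (sw a b) (IsScalarTower.toAlgHom K F M) (.some x y hP) -
      pm (sw a b) A.j (incl (sw a b) K R)) :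
    ∃ R' : SPt a b, ∀ v, (r v).f Q = pm (sw a b) ((p v).iot A.j) (incl (sw a b) K R') := by
  have hΩ1 : IsAlgClosed Ω := IsAlgClosure.isAlgClosed F
  have hcF : CharZero F := charZero_of_injective_algebraMap (algebraMap K F).injective
  obtain ⟨v0⟩ := exists_place K
  have hxr : ∀ xr yr hr, (.some xr yr hr : SPt a b) ∈ T → x ≠ algebraMap K F xr := by
    intro xr yr hr h1 h2
    apply (hXT xr yr hr h1).1 v0
    have h3 := hX v0
    rw [h2, ← IsScalarTower.algebraMap_apply K F M] at h3
    have h4 := h3.unique (Plc.val_alg xr)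
    apply (algebraMap (v0.adicCompletion K) (AlgebraicClosure (v0.adicCompletion K))).injective
    rw [h4, ← IsScalarTower.algebraMap_apply]
  obtain ⟨k', hP', hPM⟩ : ∃ (k' : ((sw a b).baseChange M).toAffine.Nonsingular
      (algebraMap F M x) (algebraMap F M y)), ∃ (_ : True),
      pm (sw a b) (IsScalarTower.toAlgHom K F M) (.some x y hP) = .some _ _ k' :=
    ⟨_, trivial, rfl⟩
  have hQv : ∀ v, (r v).f (l ^ k • Q) ≠ 0 := by
    intro v
    rw [hQ, hPM]
    refine (r v).sub_ne A.j (hX v) R ?_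
    rintro xr yr hr rfl h1
    apply (hXT xr yr hr hR).1 v
    apply (algebraMap (v.adicCompletion K) (AlgebraicClosure (v.adicCompletion K))).injective
    rw [h1, ← IsScalarTower.algebraMap_apply]
  obtain ⟨t, z, h, -, -, -, rfl, -, -, -, -⟩ := (r v0).avoid A.j (hQv v0)
  have htz : ∀ τ, A.s τ t = t ∧ A.s τ z = z := by
    intro τ
    have h1 := hQf τ
    obtain ⟨h', e'⟩ := pm_some (E := sw a b) ((A.s τ : M ≃ₐ[K] M) : M →ₐ[K] M) h
    have h2 : A.pt a b τ (.some t z h) = pm (sw a b) ((A.s τ : M ≃ₐ[K] M) : M →ₐ[K] M)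
      (.some t z h) := rfl
    rw [h2, e', Affine.Point.some.injEq] at h1
    exact h1
  -- the places of `Ω` above `U`
  have hQΩ : l ^ k • pm (sw a b) (e.restrictScalars K) (.some t z h) =
      pm (sw a b) (IsScalarTower.toAlgHom K F Ω) (.some x y hP - locHom (L := F) (sw a b) R) := by
    rw [← map_nsmul, hQ, map_sub, map_sub, pm_pm, pm_pm, pm_locHom]
    congr 1
    · congr 2
      apply AlgHom.ext
      intro w
      exact e.commutes w
    · rw [← eqv_incl ((e.restrictScalars K).comp A.j)]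
  obtain ⟨hΩ, eΩ⟩ := pm_some (E := sw a b) (e.restrictScalars K) h
  have hW : ∀ W : ValuationSubring Ω, W.comap (algebraMap F Ω) ∈ U →
      ((∀ g : K[X], TorPoly a b (l ^ k) g → e (aeval t g) ∈ W ∧ (e (aeval t g))⁻¹ ∈ W) ∧
      (∀ (xs ys : AlgebraicClosure K) (hs : ((sw a b).baseChange
        (AlgebraicClosure K)).toAffine.Nonsingular xs ys),
        l ^ k • (.some xs ys hs : AlgPt (sw a b) K) = 0 →
          e (t - A.j xs) ∈ W ∧ (e (t - A.j xs))⁻¹ ∈ W) ∧
      (∀ (xs ys : AlgebraicClosure K) (hs : ((sw a b).baseChange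
        (AlgebraicClosure K)).toAffine.Nonsingular xs ys),
        l ^ k • (.some xs ys hs : AlgPt (sw a b) K) = 0 → ys ≠ 0 →
          e (z - A.j ys - A.j (slp a xs ys) * (t - A.j xs)) ∈ W ∧
          (e (z - A.j ys - A.j (slp a xs ys) * (t - A.j xs)))⁻¹ ∈ W)) ∧
      ∀ σ ∈ inertia F Ω W, σ (e t) = e t ∧ σ (e z) = e z ∧ ∀ θ, σ (e (A.j θ)) = e (A.j θ) := by
    intro W hWU
    have hWc : ∀ c : K, algebraMap K Ω c ∈ W := by
      intro c
      have := hU _ hWU c
      rw [ValuationSubring.mem_comap, ← IsScalarTower.algebraMap_apply] at this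
      exact this
    obtain ⟨C, _, _, _, pl, hpl⟩ := exists_plc W hWc
    obtain ⟨r'⟩ := exists_red pl hD
    obtain ⟨h1, h2⟩ := hreg _ hWU
    have hxW : algebraMap F Ω x ∈ pl.W := by
      rw [hpl]
      exact h1
    obtain ⟨c, hc⟩ := Plc.val_of_mem hxW
    have hne : r'.f (l ^ k • (.some (e t) (e z) hΩ)) ≠ 0 := by
      have e1 : (.some (e t) (e z) hΩ : ((sw a b).baseChange Ω).toAffine.Point) =
        pm (sw a b) (e.restrictScalars K) (.some t z h) := eΩ.symm
      rw [e1, hQΩ, map_sub, pm_locHom, ← eqv_incl ((e.restrictScalars K).comp A.j)]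
      obtain ⟨kΩ, eP⟩ := pm_some (E := sw a b) (IsScalarTower.toAlgHom K F Ω) hP
      rw [eP]
      refine r'.sub_ne ((e.restrictScalars K).comp A.j) hc R ?_
      rintro xr yr hr rfl hcr
      have h3 := h2 xr yr hr hR
      have h4 : (algebraMap F Ω x - algebraMap K Ω xr)⁻¹ ∈ pl.W := by
        rw [hpl]
        have h5 : algebraMap F Ω ((x - algebraMap K F xr)⁻¹) ∈ W := h3
        rwa [map_inv₀, map_sub, ← IsScalarTower.algebraMap_apply K F Ω] at h5
      have h5 : algebraMap F Ω x - algebraMap K Ω xr ≠ 0 := by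
        rw [IsScalarTower.algebraMap_apply K F Ω, ← map_sub, _root_.map_ne_zero, sub_ne_zero]
        exact hxr xr yr hr hR
      obtain ⟨d, hd⟩ := Plc.val_of_mem h4
      have h6 := (hc.sub (Plc.val_alg xr)).mul hd
      rw [mul_inv_cancel₀ h5, hcr, sub_self, zero_mul] at h6
      exact one_ne_zero (Plc.val_one.unique h6)
    have hu := r'.units ((e.restrictScalars K).comp A.j) hne
    obtain ⟨hu1, hu2, hu3⟩ := hu
    refine ⟨⟨fun g hg => ?_, fun xs ys hs hn => ?_, fun xs ys hs hn hys => ?_⟩, fun σ hσ => ?_⟩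
    · obtain ⟨u, hu0, hu⟩ := hu1 g hg
      have h3 := two_sub hu hu0
      rw [hpl] at h3
      have h4 : e (aeval t g) = aeval (e t) g :=
        (aeval_algHom_apply (e.restrictScalars K) t g).symm
      rw [h4]
      exact h3
    · obtain ⟨u, hu0, hu⟩ := hu2 xs ys hs hn
      have h3 := two_sub hu hu0
      rw [hpl] at h3
      rw [map_sub]
      exact h3
    · obtain ⟨u, hu0, hu⟩ := hu3 xs ys hs hn hys
      have h3 := two_sub hu hu0
      rw [hpl] at h3
      rw [map_sub, map_sub, map_mul, map_sub]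
      exact h3
    · have h3 := fixed_div hD ((e.restrictScalars K).comp A.j) W hWc
        ((σ : Ω →ₐ[F] Ω).restrictScalars K) (fun x hx => inertia_spec hσ hx)
        (N := l ^ k) (Nat.one_le_pow _ _ (by omega))
        (pm (sw a b) (e.restrictScalars K) (.some t z h)) (by
          rw [hQΩ, pm_pm]
          congr 2
          apply AlgHom.ext
          intro w
          exact σ.commutes w)
      rw [eΩ] at h3
      obtain ⟨h4, e4⟩ := pm_some (E := sw a b) ((σ : Ω →ₐ[F] Ω).restrictScalars K) hΩ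
      rw [e4, Affine.Point.some.injEq] at h3
      refine ⟨h3.1, h3.2, fun θ => ?_⟩
      have hθK : IsIntegral K (e (A.j θ)) := by
        have h1 : IsIntegral K θ := Algebra.IsIntegral.isIntegral θ
        exact (h1.map A.j).map (e.restrictScalars K)
      exact inertia_const hWc hσ hθK
  -- integrality at almost all places
  have hae : ∀ V : ValuationSubring M, (∀ w ∈ aeInt p, w ∈ V) →
      ∀ g : K[X], TorPoly a b (l ^ k) g → aeval t g ∈ V ∧ (aeval t g)⁻¹ ∈ V := by
    intro V hV g hg
    have hVc : ∀ c : K, algebraMap K M c ∈ V := fun c => hV _ (alg_mem_aeInt c)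
    obtain ⟨C, _, _, _, pl, hpl⟩ := exists_plc V hVc
    obtain ⟨r'⟩ := exists_red pl hD
    have hx1 : algebraMap F M x ∈ pl.W := by
      rw [hpl]
      apply hV
      refine ⟨fun v => (hX v).mem, hXint.subset fun v hv => ?_⟩
      rw [Set.mem_ofPred_eq, intVal_base (hX v), not_le] at hv
      exact hv
    obtain ⟨c, hc⟩ := Plc.val_of_mem hx1
    have hne : r'.f (l ^ k • (.some t z h)) ≠ 0 := by
      rw [hQ, hPM]
      refine r'.sub_ne A.j hc R ?_
      rintro xr yr hr rfl hcr
      obtain ⟨h3, h3'⟩ := hXT xr yr hr hR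
      have hval : ∀ v, (p v).val (algebraMap F M x - algebraMap K M xr)⁻¹
          (algebraMap _ _ (X v - algebraMap K (v.adicCompletion K) xr)⁻¹) := by
        intro v
        have h4 := (hX v).sub (Plc.val_alg xr)
        rw [IsScalarTower.algebraMap_apply K (v.adicCompletion K)
          (AlgebraicClosure (v.adicCompletion K)), ← map_sub] at h4
        have h5 := h4.inv (by
          rw [_root_.map_ne_zero, sub_ne_zero]
          exact h3 v)
        rwa [← map_inv₀ (algebraMap (v.adicCompletion K) _)] at h5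
      have h4 : (algebraMap F M x - algebraMap K M xr)⁻¹ ∈ pl.W := by
        rw [hpl]
        apply hV
        refine ⟨fun v => (hval v).mem, h3'.subset fun v hv hv' => ?_⟩
        rw [Set.mem_ofPred_eq, intVal_base (hval v), map_inv₀, hv', inv_one] at hv
        exact hv le_rfl
      have h5 : algebraMap F M x - algebraMap K M xr ≠ 0 := by
        rw [IsScalarTower.algebraMap_apply K F M, ← map_sub, _root_.map_ne_zero, sub_ne_zero]
        exact hxr xr yr hr hR
      obtain ⟨d, hd⟩ := Plc.val_of_mem h4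
      have h6 := (hc.sub (Plc.val_alg xr)).mul hd
      rw [mul_inv_cancel₀ h5, hcr, sub_self, zero_mul] at h6
      exact one_ne_zero (Plc.val_one.unique h6)
    obtain ⟨u, hu0, hu⟩ := (r'.units A.j hne).1 g hg
    have h3 := two_sub hu hu0
    rw [hpl] at h3
    exact h3
  obtain ⟨u, η, huη⟩ := ell_core A hD hl hk hk2 p hpl r (h := h) (fun τ => (htz τ).1)
    (fun τ => (htz τ).2) hQv
    (fun g hg N hN => exists_roots hU e he (fun W hWU => ⟨((hW W hWU).1.1 g hg).1,
      ((hW W hWU).1.1 g hg).2, fun σ hσ => by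
        obtain ⟨h1, h2, h3⟩ := (hW W hWU).2 σ hσ
        have h4 : e (aeval t g) = aeval (e t) g :=
          (aeval_algHom_apply (e.restrictScalars K) t g).symm
        have h5 : σ (aeval (e t) g) = aeval (σ (e t)) g :=
          (aeval_algHom_apply ((σ : Ω →ₐ[F] Ω).restrictScalars K) (e t) g).symm
        rw [h4, h5, h1]⟩) hN)
    (fun xs ys hs hn N hN => exists_roots hU e he (fun W hWU => ⟨((hW W hWU).1.2.1 xs ys hs hn).1,
      ((hW W hWU).1.2.1 xs ys hs hn).2, fun σ hσ => by
        obtain ⟨h1, h2, h3⟩ := (hW W hWU).2 σ hσ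
        rw [map_sub, map_sub, h1, h3]⟩) hN)
    (fun xs ys hs hn hys N hN => exists_roots hU e he (fun W hWU =>
      ⟨((hW W hWU).1.2.2 xs ys hs hn hys).1,
      ((hW W hWU).1.2.2 xs ys hs hn hys).2, fun σ hσ => by
        obtain ⟨h1, h2, h3⟩ := (hW W hWU).2 σ hσ
        simp only [map_sub, map_mul, h1, h2, h3]⟩) hN)
    (fun g hg => ⟨mem_aeInt_of_forall (fun V hV => (hae V hV g hg).1),
      mem_aeInt_of_forall (fun V hV => (hae V hV g hg).2)⟩)
  -- the rational point
  have hns : (sw a b).toAffine.Nonsingular u η := by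
    apply sw_nonsing hD
    obtain ⟨d, h', hd, e1⟩ := (r v0).some (y := z) (h := h) (huη v0).1
    have e2 := hd.unique (huη v0).2
    subst e2
    have e3 := base_eqn h'
    apply (algebraMap K (AlgebraicClosure (v0.adicCompletion K))).injective
    simp only [map_add, map_mul, map_pow]
    exact e3
  refine ⟨.some u η hns, fun v => ?_⟩
  obtain ⟨d, h', hd, e1⟩ := (r v).some (y := z) (h := h) (huη v).1
  have e2 := hd.unique (huη v).2
  subst e2
  rw [e1]
  have h1 : ∃ g, pm (sw a b) ((p v).iot A.j) (incl (sw a b) K (.some u η hns : SPt a b)) =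
      .some ((p v).iot A.j (algebraMap K _ u)) ((p v).iot A.j (algebraMap K _ η)) g := ⟨_, rfl⟩
  obtain ⟨g, h1⟩ := h1
  rw [h1, Affine.Point.some.injEq]
  exact ⟨(((p v).iot A.j).commutes u).symm, (((p v).iot A.j).commutes η).symm⟩

open scoped Classical in
/-- **Adelic sections of open subcurves of elliptic curves.** -/
theorem ell_main {a b : K} (hD : 4 * a ^ 3 + 27 * b ^ 2 ≠ 0) {l : ℕ} (hl : 2 ≤ l)
    {T : AddSubgroup (SPt a b)} (hSel : SelmerFrom (sw a b) l T)
    (U : Set (ValuationSubring F)) (hU : ∀ O ∈ U, ∀ c : K, algebraMap K F c ∈ O)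
    (e : M →ₐ[F] Ω) (he : unramified F Ω U ≤ e.fieldRange)
    {x y : F} (hP : ((sw a b).baseChange F).toAffine.Nonsingular x y)
    (hreg : ∀ O ∈ U, x ∈ O ∧ ∀ xr yr hr, (.some xr yr hr : SPt a b) ∈ T →
      (x - algebraMap K F xr)⁻¹ ∈ O)
    (s : GalSection K F M B)
    (p : ∀ v : HeightOneSpectrum (𝓞 K), Plc K M (AlgebraicClosure (v.adicCompletion K)))
    (hp : ∀ v, s.GivenBy (v.adicCompletion K) (p v))
    (X : ∀ v : HeightOneSpectrum (𝓞 K), v.adicCompletion K)
    (hX : ∀ v, (p v).val (algebraMap F M x)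
      (algebraMap (v.adicCompletion K) (AlgebraicClosure (v.adicCompletion K)) (X v)))
    (hXint : {v | 1 < Valued.v (X v)}.Finite)
    (hXT : ∀ xr yr hr, (.some xr yr hr : SPt a b) ∈ T →
      (∀ v, X v ≠ algebraMap K (v.adicCompletion K) xr) ∧
      {v | Valued.v (X v - algebraMap K (v.adicCompletion K) xr) ≠ 1}.Finite) :
    ∃ (x0 y0 : K) (h0 : (sw a b).toAffine.Nonsingular x0 y0),
      (∀ v, X v = algebraMap K (v.adicCompletion K) x0 ∧
        (p v).val (algebraMap F M y) (algebraMap K _ y0)) ∧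
      ∀ N : ℕ, ∃ Q : ((sw a b).baseChange M).toAffine.Point,
        (∀ g : B ≃ₐ[K] B, pm (sw a b) ((s.s g : M →ₐ[F] M).restrictScalars K) Q = Q) ∧
        l ^ N • Q = pm (sw a b) (IsScalarTower.toAlgHom K F M) (.some x y hP) -
          locHom (L := M) (sw a b) (.some x0 y0 h0) := by
  have hΩ1 : IsAlgClosed Ω := IsAlgClosure.isAlgClosed F
  have hΩ2 : Algebra.IsAlgebraic F Ω := IsAlgClosure.isAlgebraic
  have hMalg : Algebra.IsAlgebraic F M := Algebra.IsAlgebraic.of_injective e e.injective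
  have hcΩ : CharZero Ω := charZero_of_injective_algebraMap (algebraMap K Ω).injective
  have hcv' : ∀ v : HeightOneSpectrum (𝓞 K), CharZero (AlgebraicClosure (v.adicCompletion K)) :=
    fun v => charZero_of_injective_algebraMap
      (algebraMap K (AlgebraicClosure (v.adicCompletion K))).injective
  set A := toSAct s with hA
  have hpl : ∀ v, GeoPlc A (p v) := fun v => geoPlc_of_givenBy s (hp v)
  have hAF : ∀ (τ : AlgebraicClosure K ≃ₐ[K] AlgebraicClosure K) (x : F),
      A.s τ (algebraMap F M x) = algebraMap F M x :=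
    fun τ x => (s.s ((eqv K B).autCongr τ)).commutes x
  have r : ∀ v, Red (p v) a b := fun v => (exists_red (p v) hD).some
  set P' := pm (sw a b) (IsScalarTower.toAlgHom K F M)
    (.some x y hP : ((sw a b).baseChange F).toAffine.Point) with hP'
  have hP'f : ∀ τ, A.pt a b τ P' = P' := by
    intro τ
    change pm (sw a b) _ (pm (sw a b) _ _) = pm (sw a b) _ _
    rw [pm_pm]
    congr 2
    apply AlgHom.ext
    intro x
    exact hAF τ x
  have hj : ∀ R : SPt a b, pm (sw a b) A.j (incl (sw a b) K R) = locHom (L := M) (sw a b) R :=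
    fun R => eqv_incl A.j R
  -- the tower
  have htow := tower hD A hl hSel p hpl r hP'f (by
      intro R N hN
      obtain ⟨Q, hQ⟩ := exists_div_unram hD ((e.restrictScalars K).comp A.j) U hU e he
        (.some x y hP - locHom (L := F) (sw a b) R) hN
      exact ⟨Q, by rw [hQ, map_sub, pm_locHom, hj]⟩)
    (fun N hN T hT => torsion_mem_sub hD (e.restrictScalars K) A.j N hN T hT)
  set k0 := Module.finrank ℚ K + 2 with hk0
  have hstep : ∀ k, k0 ≤ k → ∃ (Q : ((sw a b).baseChange M).toAffine.Point) (R R' : SPt a b),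
      (∀ τ, A.pt a b τ Q = Q) ∧ l ^ k • Q = P' - locHom (L := M) (sw a b) R ∧
      ∀ v, (r v).f Q = pm (sw a b) ((p v).iot A.j) (incl (sw a b) K R') := by
    intro k hk
    obtain ⟨Q, R, hR, hQf, hQ⟩ := htow k
    obtain ⟨R', hR'⟩ := ell_step hD hl U hU e he hP hreg A p hpl r X hX hXint hXT
      (small_of_finrank (m := k) (by omega)) (by omega) hQf hR hQ
    exact ⟨Q, R, R', hQf, by rw [hQ, hj], hR'⟩
  obtain ⟨v0⟩ := exists_place K
  -- the value of `P'`
  have hPv : ∀ k, k0 ≤ k → ∃ (Q : ((sw a b).baseChange M).toAffine.Point) (S : SPt a b),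
      (∀ τ, A.pt a b τ Q = Q) ∧ l ^ k • Q = P' - locHom (L := M) (sw a b) S ∧
      ∀ v, (r v).f P' = pm (sw a b) ((p v).iot A.j) (incl (sw a b) K S) := by
    intro k hk
    obtain ⟨Q, R, R', hQf, hQ, hv⟩ := hstep k hk
    refine ⟨Q - locHom (L := M) (sw a b) R', R + l ^ k • R', fun τ => ?_, ?_, fun v => ?_⟩
    · have e1 : A.pt a b τ (Q - locHom (L := M) (sw a b) R') =
          A.pt a b τ Q - A.pt a b τ (locHom (L := M) (sw a b) R') := map_sub _ _ _
      have e2 : A.pt a b τ (locHom (L := M) (sw a b) R') = locHom (L := M) (sw a b) R' :=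
        pm_locHom _ _
      rw [e1, e2, hQf]
    · rw [smul_sub, hQ, map_add, map_nsmul]
      abel
    · have e1 : P' = l ^ k • Q + locHom (L := M) (sw a b) R := by
        rw [hQ]
        abel
      have e3 : incl (sw a b) K (R + l ^ k • R') =
          incl (sw a b) K R + l ^ k • incl (sw a b) K R' := by
        exact (incl_add (E := sw a b) (L := K) R (l ^ k • R')).trans
          (congrArg _ (incl_nsmul (E := sw a b) (L := K) (l ^ k) R'))
      rw [e1, map_add, map_nsmul, hv, ← hj, red_pm (pl := p v) (a := a) (b := b) (red := (r v).f)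
        (map_zero (r v).f) (r v).h1 (r v).h2 A.j ((p v).iot A.j) ((p v).iot_spec A.j), e3,
        map_add, map_nsmul]
      abel
  obtain ⟨Q0, S0, -, -, hS0⟩ := hPv k0 le_rfl
  have hS : ∀ S : SPt a b, (∀ v, (r v).f P' = pm (sw a b) ((p v).iot A.j) (incl (sw a b) K S)) →
      S = S0 := by
    intro S h
    have h1 := h v0
    rw [hS0 v0] at h1
    have h2 := pm_injective (E := sw a b) ((p v0).iot A.j) h1
    exact (incl_injective (E := sw a b) (L := K) h2).symm
  obtain ⟨k', hPM⟩ : ∃ (k' : ((sw a b).baseChange M).toAffine.Nonsingular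
      (algebraMap F M x) (algebraMap F M y)), P' = .some _ _ k' := ⟨_, rfl⟩
  have hval : ∀ v, ∃ (d : AlgebraicClosure (v.adicCompletion K)) (h' : ((sw a b).baseChange
      (AlgebraicClosure (v.adicCompletion K))).toAffine.Nonsingular
      (algebraMap (v.adicCompletion K) (AlgebraicClosure (v.adicCompletion K)) (X v)) d),
      (p v).val (algebraMap F M y) d ∧ (r v).f P' = .some _ d h' := by
    intro v
    obtain ⟨d, h', hd, e1⟩ := (r v).some (y := algebraMap F M y) (h := k') (hX v)
    exact ⟨d, h', hd, by rw [hPM, e1]⟩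
  match S0, hS0, hS with
  | .zero, hS0, _ =>
    exfalso
    obtain ⟨d, h', -, e1⟩ := hval v0
    have h1 := hS0 v0
    rw [e1] at h1
    exact Affine.Point.some_ne_zero h' h1
  | .some x0 y0 h0, hS0, hS =>
    refine ⟨x0, y0, h0, fun v => ?_, fun N => ?_⟩
    · obtain ⟨d, h', hd, e1⟩ := hval v
      have h1 := hS0 v
      rw [e1] at h1
      have h2 : ∃ g, pm (sw a b) ((p v).iot A.j) (incl (sw a b) K (.some x0 y0 h0 : SPt a b)) =
        .some ((p v).iot A.j (algebraMap K _ x0)) ((p v).iot A.j (algebraMap K _ y0)) g := ⟨_, rfl⟩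
      obtain ⟨g, h2⟩ := h2
      rw [h2, Affine.Point.some.injEq] at h1
      constructor
      · apply (algebraMap (v.adicCompletion K) (AlgebraicClosure (v.adicCompletion K))).injective
        rw [h1.1, ((p v).iot A.j).commutes, ← IsScalarTower.algebraMap_apply]
      · rw [h1.2, ((p v).iot A.j).commutes] at hd
        exact hd
    · obtain ⟨Q, S, hQf, hQ, hSv⟩ := hPv (N + k0) (by omega)
      have hSS := hS S hSv
      subst hSS
      refine ⟨l ^ k0 • Q, fun g => ?_, ?_⟩
      · have h3 := hQf ((eqv K B).autCongr.symm g)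
        have h4 : A.pt a b ((eqv K B).autCongr.symm g) Q =
            pm (sw a b) ((s.s g : M →ₐ[F] M).restrictScalars K) Q := by
          unfold SAct.pt
          congr 2
          apply AlgHom.ext
          intro z
          exact toSAct_s s g z
        rw [map_nsmul, ← h4, h3]
      · rw [← mul_smul, ← pow_add, hQ]

end Pool.Agent.V8H94.SC
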