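import Pool.Agent.V8H94.SC.Places

/-!
# Systems of norm equations have finitely many solutions
-/

set_option autoImplicit false
set_option linter.unusedSectionVars false

open Polynomial

namespace Pool.Agent.V8H94.SC

/-- solutions of the equations are in every integrally closed subring containing the coefficients -/
theorem mem_of_eqs {K κ I : Type} [Field K] [Field κ] (A : Subring κ) [IsIntegrallyClosedIn A κ]
    (Φ : Finset I) (ψ : I → K →+* κ) (hψ : ∀ i ∈ Φ, ∀ a, ψ i a ∈ A) {m : ℕ} (hm : Φ.card ≤ m)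
    (g : Fin m → K[X]) (hcop : ∀ i j, i ≠ j → IsCoprime (g i) (g j))
    (hdeg : ∀ j, 0 < (g j).natDegree) {H : ℕ} (hH : 1 ≤ H) (R : Fin m → κ)
    (hR0 : ∀ j, R j ≠ 0) (hR : ∀ j, R j ∈ A) (hR' : ∀ j, (R j)⁻¹ ∈ A) (x : I → κ)
    (hx : ∀ j, (∏ i ∈ Φ, (g j).eval₂ (ψ i) (x i)) ^ H = R j) : ∀ i ∈ Φ, x i ∈ A := by
  classical
  by_contra hcon
  push Not at hcon
  obtain ⟨i0, hi0, hxi0⟩ := hcon
  obtain ⟨V, hAV, hxV⟩ := Subring.exists_le_valuationSubring_of_isIntegrallyClosedIn hxi0
  have hA1 : ∀ a ∈ A, V.valuation a ≤ 1 := fun a ha => (V.valuation_le_one_iff a).2 (hAV ha)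
  have hψ1 : ∀ i ∈ Φ, ∀ c : K, c ≠ 0 → V.valuation (ψ i c) = 1 := by
    intro i hi c hc
    refine le_antisymm (hA1 _ (hψ i hi c)) ?_
    have h1 := hA1 _ (hψ i hi c⁻¹)
    rw [map_inv₀, map_inv₀] at h1
    have h2 : 0 < V.valuation (ψ i c) := zero_lt_iff.2 ((Valuation.ne_zero_iff _).2
      ((_root_.map_ne_zero _).2 hc))
    exact (inv_le_one₀ h2).1 h1
  have hR1 : ∀ j, V.valuation (R j) = 1 := by
    intro j
    refine le_antisymm (hA1 _ (hR j)) ?_
    have h1 := hA1 _ (hR' j)
    rw [map_inv₀] at h1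
    have h2 : 0 < V.valuation (R j) := zero_lt_iff.2 ((Valuation.ne_zero_iff _).2 (hR0 j))
    exact (inv_le_one₀ h2).1 h1
  -- polynomials at integral elements
  have hint : ∀ i ∈ Φ, V.valuation (x i) ≤ 1 → ∀ q : K[X],
      V.valuation (q.eval₂ (ψ i) (x i)) ≤ 1 := by
    intro i hi hxi q
    rw [eval₂_eq_sum_range]
    refine Valuation.map_sum_le _ (fun k _ => ?_)
    rw [map_mul, map_pow]
    exact mul_le_one' (hA1 _ (hψ i hi _)) (pow_le_one₀ zero_le hxi)
  -- polynomials at poles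
  have hpole : ∀ i ∈ Φ, 1 < V.valuation (x i) → ∀ q : K[X], 0 < q.natDegree →
      1 < V.valuation (q.eval₂ (ψ i) (x i)) := by
    intro i hi hxi q hq
    rw [eval₂_eq_sum_range, Finset.sum_range_succ]
    have hlead : V.valuation (ψ i (q.coeff q.natDegree) * x i ^ q.natDegree) =
        V.valuation (x i) ^ q.natDegree := by
      rw [map_mul, map_pow, hψ1 i hi, one_mul]
      intro h0
      rw [coeff_natDegree, leadingCoeff_eq_zero] at h0
      rw [h0] at hq
      simp at hq
    have hlow : V.valuation (∑ k ∈ Finset.range q.natDegree, ψ i (q.coeff k) * x i ^ k) <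
        V.valuation (ψ i (q.coeff q.natDegree) * x i ^ q.natDegree) := by
      rw [hlead]
      refine Valuation.map_sum_lt _ (pow_ne_zero _ (by
        intro h0
        rw [h0] at hxi
        exact absurd hxi (by simp))) (fun k hk => ?_)
      rw [map_mul, map_pow]
      have h1 : V.valuation (x i) ^ k < V.valuation (x i) ^ q.natDegree :=
        pow_lt_pow_right₀ hxi (Finset.mem_range.1 hk)
      exact lt_of_le_of_lt (mul_le_of_le_one_left' (hA1 _ (hψ i hi _))) h1
    rw [Valuation.map_add_eq_of_lt_right _ hlow, hlead]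
    exact one_lt_pow₀ hxi hq.ne'
  have hex : ∀ j, ∃ i ∈ Φ, V.valuation (x i) ≤ 1 ∧
      V.valuation ((g j).eval₂ (ψ i) (x i)) < 1 := by
    intro j
    by_contra hcon
    push Not at hcon
    have h1 : ∀ i ∈ Φ, 1 ≤ V.valuation ((g j).eval₂ (ψ i) (x i)) := by
      intro i hi
      rcases le_or_gt (V.valuation (x i)) 1 with h | h
      · exact hcon i hi h
      · exact (hpole i hi h _ (hdeg j)).le
    have h2 : 1 < V.valuation (∏ i ∈ Φ, (g j).eval₂ (ψ i) (x i)) := by
      rw [← Finset.mul_prod_erase _ _ hi0, map_mul, map_prod]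
      have h3 : 1 < V.valuation ((g j).eval₂ (ψ i0) (x i0)) := by
        refine hpole i0 hi0 ?_ _ (hdeg j)
        rw [← not_le, V.valuation_le_one_iff]
        exact hxV
      refine lt_of_lt_of_le h3 (le_mul_of_one_le_right' ?_)
      exact Finset.one_le_prod' (fun i hi => h1 i (Finset.mem_of_mem_erase hi))
    have h3 := hR1 j
    rw [← hx j, map_pow] at h3
    have h4 := one_lt_pow₀ h2 (show H ≠ 0 by omega)
    rw [h3] at h4
    exact lt_irrefl _ h4
  choose F hF hF1 hF2 using hex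
  have hinj : Function.Injective F := by
    intro j j' hjj
    by_contra hne
    obtain ⟨a, b, hab⟩ := hcop j j' hne
    have h1 := congrArg (eval₂ (ψ (F j)) (x (F j))) hab
    rw [eval₂_add, eval₂_mul, eval₂_mul, eval₂_one] at h1
    have h2 : V.valuation (a.eval₂ (ψ (F j)) (x (F j)) * (g j).eval₂ (ψ (F j)) (x (F j))) < 1 := by
      rw [map_mul]
      exact lt_of_le_of_lt (mul_le_of_le_one_left' (hint _ (hF j) (hF1 j) a)) (hF2 j)
    have h3 : V.valuation (b.eval₂ (ψ (F j)) (x (F j)) * (g j').eval₂ (ψ (F j)) (x (F j))) < 1 := by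
      rw [map_mul]
      refine lt_of_le_of_lt (mul_le_of_le_one_left' (hint _ (hF j) (hF1 j) b)) ?_
      rw [hjj]
      exact hF2 j'
    have h4 := Valuation.map_add_lt _ h2 h3
    rw [h1, map_one] at h4
    exact lt_irrefl _ h4
  have hcard : (Finset.univ.image F).card ≤ (Φ.erase i0).card := by
    refine Finset.card_le_card (fun i hi => ?_)
    obtain ⟨j, -, rfl⟩ := Finset.mem_image.1 hi
    refine Finset.mem_erase.2 ⟨fun h => ?_, hF j⟩
    have h1 := hF1 j
    rw [h, V.valuation_le_one_iff] at h1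
    exact hxV h1
  rw [Finset.card_image_of_injective _ hinj, Finset.card_univ, Fintype.card_fin,
    Finset.card_erase_of_mem hi0] at hcard
  have := Finset.card_pos.2 ⟨i0, hi0⟩
  omega

/-- one polynomial which vanishes at the coordinate of all solutions -/
theorem exists_poly {K L : Type} [Field K] [Field L] (Φ : Finset (K →+* L)) (τ0 : K →+* L)
    (hτ0 : τ0 ∈ Φ) (hint : ∀ a : L, τ0.IsIntegralElem a) {m : ℕ} (hm : Φ.card ≤ m)
    (g : Fin m → K[X]) (hcop : ∀ i j, i ≠ j → IsCoprime (g i) (g j))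
    (hdeg : ∀ j, 0 < (g j).natDegree) {H : ℕ} (hH : 1 ≤ H) (R : Fin m → L)
    (hR0 : ∀ j, R j ≠ 0) :
    ∃ q : K[X], q ≠ 0 ∧ ∀ (κ : Type) [Field κ] (e : L →+* κ) (x : (K →+* L) → κ),
      (∀ j, (∏ τ ∈ Φ, (g j).eval₂ (e.comp τ) (x τ)) ^ H = e (R j)) →
      q.eval₂ (e.comp τ0) (x τ0) = 0 := by
  classical
  let P : Fin m → MvPolynomial (K →+* L) L := fun j =>
    (∏ τ ∈ Φ, (g j).eval₂ (MvPolynomial.C.comp τ) (MvPolynomial.X τ)) ^ H - MvPolynomial.C (R j)
  let I : Ideal (MvPolynomial (K →+* L) L) := Ideal.span (Set.range P)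
  let θ : K[X] →+* MvPolynomial (K →+* L) L :=
    eval₂RingHom (MvPolynomial.C.comp τ0) (MvPolynomial.X τ0)
  by_cases hq : ∃ q : K[X], q ≠ 0 ∧ θ q ∈ I
  · obtain ⟨q, hq0, hqI⟩ := hq
    refine ⟨q, hq0, fun κ _ e x hx => ?_⟩
    have h1 : I ≤ RingHom.ker (MvPolynomial.eval₂Hom e x) := by
      rw [Ideal.span_le]
      rintro _ ⟨j, rfl⟩
      rw [SetLike.mem_coe, RingHom.mem_ker]
      change MvPolynomial.eval₂Hom e x ((∏ τ ∈ Φ, (g j).eval₂ (MvPolynomial.C.comp τ)
        (MvPolynomial.X τ)) ^ H - MvPolynomial.C (R j)) = 0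
      rw [map_sub, map_pow, map_prod, MvPolynomial.eval₂Hom_C, ← hx j, sub_eq_zero]
      congr 1
      refine Finset.prod_congr rfl (fun τ _ => ?_)
      rw [hom_eval₂, MvPolynomial.eval₂Hom_X', ← RingHom.comp_assoc,
        MvPolynomial.eval₂Hom_comp_C]
    have h2 := RingHom.mem_ker.1 (h1 hqI)
    change MvPolynomial.eval₂Hom e x (q.eval₂ (MvPolynomial.C.comp τ0) (MvPolynomial.X τ0)) = 0
      at h2
    rw [hom_eval₂, MvPolynomial.eval₂Hom_X', ← RingHom.comp_assoc,
        MvPolynomial.eval₂Hom_comp_C] at h2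
    exact h2
  · exfalso
    push Not at hq
    let S : Submonoid (MvPolynomial (K →+* L) L) := (nonZeroDivisors K[X]).map θ
    have hdisj : Disjoint (I : Set (MvPolynomial (K →+* L) L)) (S : Set _) := by
      rw [Set.disjoint_left]
      rintro _ h1 ⟨q, hq1, rfl⟩
      exact hq q (nonZeroDivisors.ne_zero hq1) h1
    obtain ⟨Q, hQ, hIQ, hQS⟩ := Ideal.exists_le_prime_disjoint I S hdisj
    obtain ⟨κ, _, π, hπ⟩ : ∃ (κ : Type) (_ : Field κ) (π : MvPolynomial (K →+* L) L →+* κ),
        ∀ p, π p = 0 ↔ p ∈ Q := by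
      refine ⟨FractionRing (MvPolynomial (K →+* L) L ⧸ Q), inferInstance,
        (algebraMap (MvPolynomial (K →+* L) L ⧸ Q) _).comp (Ideal.Quotient.mk Q), fun p => ?_⟩
      rw [RingHom.comp_apply, map_eq_zero_iff _ (IsFractionRing.injective _ _)]
      exact Ideal.Quotient.eq_zero_iff_mem
    let e : L →+* κ := π.comp MvPolynomial.C
    let _ : Algebra L κ := e.toAlgebra
    have he : ∀ a, e a = algebraMap L κ a := fun a => rfl
    let A : Subring κ := (integralClosure L κ).toSubring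
    have : IsIntegrallyClosedIn A κ := by
      have : IsIntegrallyClosedIn (integralClosure L κ) κ := inferInstance
      exact this
    have hmem : ∀ a : L, e a ∈ A := fun a => (integralClosure L κ).algebraMap_mem a
    have hx := mem_of_eqs A Φ (fun τ => e.comp τ) (fun τ _ a => hmem _) hm g hcop hdeg hH
      (fun j => e (R j)) (fun j => (_root_.map_ne_zero e).2 (hR0 j)) (fun j => hmem _)
      (fun j => by rw [← map_inv₀]; exact hmem _) (fun τ => π (MvPolynomial.X τ)) (by
        intro j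
        have h1 : P j ∈ Q := hIQ (Ideal.subset_span ⟨j, rfl⟩)
        have h2 : π (P j) = 0 := (hπ _).2 h1
        change π ((∏ τ ∈ Φ, (g j).eval₂ (MvPolynomial.C.comp τ)
          (MvPolynomial.X τ)) ^ H - MvPolynomial.C (R j)) = 0 at h2
        rw [map_sub, map_pow, map_prod, sub_eq_zero] at h2
        change _ = π (MvPolynomial.C (R j))
        rw [← h2]
        congr 1
        refine Finset.prod_congr rfl (fun τ _ => ?_)
        rw [hom_eval₂]
        rfl) τ0 hτ0
    have hx1 : IsIntegral L (π (MvPolynomial.X τ0)) := hx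
    let _ : Algebra K L := τ0.toAlgebra
    let _ : Algebra K κ := (e.comp τ0).toAlgebra
    have : IsScalarTower K L κ := IsScalarTower.of_algebraMap_eq (fun _ => rfl)
    have : Algebra.IsIntegral K L := ⟨fun a => hint a⟩
    have hx2 : IsIntegral K (π (MvPolynomial.X τ0)) := isIntegral_trans _ hx1
    obtain ⟨q, hqm, hq0⟩ := hx2
    have h3 : θ q ∈ Q := by
      apply (hπ _).1
      change π (q.eval₂ (MvPolynomial.C.comp τ0) (MvPolynomial.X τ0)) = 0
      rw [hom_eval₂]
      exact hq0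
    exact Set.disjoint_left.1 hQS h3 ⟨q, mem_nonZeroDivisors_of_ne_zero hqm.ne_zero, rfl⟩

end Pool.Agent.V8H94.SC
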