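import Pool.Agent.TH115.TC.Compl

/-!
# Places of number fields and maps of completions
-/

set_option autoImplicit false
set_option linter.unusedSectionVars false

open NumberField IsDedekindDomain WithZero Topology

namespace Pool.Agent.V8H94.SC

section maps

variable {K L : Type} [Field K] [NumberField K] [Field L] [NumberField L]

/-- the map of the completions -/
theorem exists_under (f : K →+* L) (w : HeightOneSpectrum (𝓞 L)) :
    ∃ (v : HeightOneSpectrum (𝓞 K)) (j : v.adicCompletion K →+* w.adicCompletion L),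
      ∀ x : K, j (algebraMap K _ x) = algebraMap L _ (f x) := by
  let _ : Algebra K L := f.toAlgebra
  set v := w.under (𝓞 K) with hv
  have hlo : w.asIdeal.LiesOver v.asIdeal := ⟨rfl⟩
  have hval : ∀ x : K, v.valuation K x ^ v.asIdeal.ramificationIdx' w.asIdeal =
      w.valuation L (algebraMap K L x) := fun x =>
    HeightOneSpectrum.valuation_liesOver (A := 𝓞 K) L v w x
  have he : v.asIdeal.ramificationIdx' w.asIdeal ≠ 0 :=
    Ideal.IsDedekindDomain.ramificationIdx'_ne_zero_of_liesOver w.asIdeal v.ne_bot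
  obtain ⟨j, hj, -⟩ := Pool.Agent.TH115.GD.exists_compl_map v w (algebraMap K L)
    (fun x hx => by rw [← hval]; exact pow_le_one₀ zero_le hx)
    (fun x hx => by rw [← hval]; exact pow_lt_one₀ zero_le hx he)
  exact ⟨v, j, hj⟩

/-- places above a given one -/
theorem exists_above (f : K →+* L) (v : HeightOneSpectrum (𝓞 K)) :
    ∃ (w : HeightOneSpectrum (𝓞 L)) (j : v.adicCompletion K →+* w.adicCompletion L),
      ∀ x : K, j (algebraMap K _ x) = algebraMap L _ (f x) := by
  let _ : Algebra K L := f.toAlgebra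
  have := v.isPrime
  obtain ⟨P, hP, hPv⟩ := Ideal.exists_ideal_over_prime_of_isIntegral (S := 𝓞 L) v.asIdeal ⊥ (by
    rw [← RingHom.ker_eq_comap_bot, (RingHom.injective_iff_ker_eq_bot _).1
      (FaithfulSMul.algebraMap_injective (𝓞 K) (𝓞 L))]
    exact bot_le)
  obtain ⟨hP2, hP3⟩ := hPv
  have hP0 : P ≠ ⊥ := by
    rintro rfl
    apply v.ne_bot
    rw [← hP3, ← RingHom.ker_eq_comap_bot, (RingHom.injective_iff_ker_eq_bot _).1
      (FaithfulSMul.algebraMap_injective (𝓞 K) (𝓞 L))]
  let w : HeightOneSpectrum (𝓞 L) := ⟨P, hP2, hP0⟩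
  have hlo : w.asIdeal.LiesOver v.asIdeal := ⟨hP3.symm⟩
  have hval : ∀ x : K, v.valuation K x ^ v.asIdeal.ramificationIdx' w.asIdeal =
      w.valuation L (algebraMap K L x) := fun x =>
    HeightOneSpectrum.valuation_liesOver (A := 𝓞 K) L v w x
  have he : v.asIdeal.ramificationIdx' w.asIdeal ≠ 0 :=
    Ideal.IsDedekindDomain.ramificationIdx'_ne_zero_of_liesOver w.asIdeal v.ne_bot
  obtain ⟨j, hj, -⟩ := Pool.Agent.TH115.GD.exists_compl_map v w (algebraMap K L)
    (fun x hx => by rw [← hval]; exact pow_le_one₀ zero_le hx)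
    (fun x hx => by rw [← hval]; exact pow_lt_one₀ zero_le hx he)
  exact ⟨w, j, hj⟩

end maps

section gen


lemma single_gen (K : Type) [Field K] [NumberField K] (v0 : HeightOneSpectrum (𝓞 K)) :
    ∃ π : K, π ≠ 0 ∧ v0.valuation K π = exp (-(Fintype.card (ClassGroup (𝓞 K)) : ℤ)) ∧
      ∀ v : HeightOneSpectrum (𝓞 K), v ≠ v0 → v.valuation K π = 1 := by
  classical
  set h := Fintype.card (ClassGroup (𝓞 K)) with hh
  have hv0 : v0.asIdeal ∈ nonZeroDivisors (Ideal (𝓞 K)) :=
    mem_nonZeroDivisors_of_ne_zero v0.ne_bot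
  have h1 : (v0.asIdeal ^ h).IsPrincipal := by
    rw [← ClassGroup.mk0_eq_one_iff (pow_mem hv0 h)]
    have h2 : (⟨v0.asIdeal ^ h, pow_mem hv0 h⟩ : nonZeroDivisors (Ideal (𝓞 K))) =
      ⟨v0.asIdeal, hv0⟩ ^ h := rfl
    rw [h2, map_pow, hh]
    exact pow_card_eq_one
  obtain ⟨a, ha⟩ := h1
  have ha' : v0.asIdeal ^ h = Ideal.span {a} := ha
  have ha0 : a ≠ 0 := by
    rintro rfl
    have h3 : v0.asIdeal ^ h = 0 := by
      rw [ha']
      simp
    exact pow_ne_zero h v0.ne_bot h3
  refine ⟨algebraMap (𝓞 K) K a, ?_, ?_, ?_⟩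
  · exact fun h => ha0 ((FaithfulSMul.algebraMap_injective (𝓞 K) K) (by rw [h, map_zero]))
  · have := v0.valuation_of_algebraMap (K := K) a
    rw [this, v0.intValuation_if_neg ha0, ← ha', Associates.mk_pow,
      Associates.count_pow (Associates.mk_ne_zero.2 v0.ne_bot) v0.associates_irreducible,
      Associates.count_self v0.associates_irreducible, mul_one]
  · intro v hv
    have := v.valuation_of_algebraMap (K := K) a
    rw [this, v.intValuation_if_neg ha0, ← ha', Associates.mk_pow,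
      Associates.count_pow (Associates.mk_ne_zero.2 v0.ne_bot) v.associates_irreducible]
    have h3 : (Associates.mk v.asIdeal).count (Associates.mk v0.asIdeal).factors = 0 := by
      apply Associates.count_eq_zero_of_ne v.associates_irreducible v0.associates_irreducible
      intro h4
      apply hv
      rw [Associates.mk_eq_mk_iff_associated, associated_iff_eq] at h4
      exact HeightOneSpectrum.ext h4
    rw [h3]
    simp

/-- elements with prescribed valuations -/
theorem exists_gen (K : Type) [Field K] [NumberField K] : ∃ h : ℕ, 1 ≤ h ∧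
    ∀ b : HeightOneSpectrum (𝓞 K) → ℤ, (Function.support b).Finite →
      ∃ β : K, β ≠ 0 ∧ ∀ v : HeightOneSpectrum (𝓞 K), v.valuation K β = exp (h * b v) := by
  classical
  refine ⟨Fintype.card (ClassGroup (𝓞 K)), Fintype.card_pos, fun b hb => ?_⟩
  choose π hπ0 hπ1 hπ2 using single_gen K
  refine ⟨∏ v ∈ hb.toFinset, π v ^ (- b v), ?_, fun v => ?_⟩
  · exact Finset.prod_ne_zero_iff.2 (fun v _ => zpow_ne_zero _ (hπ0 v))
  · rw [map_prod]
    by_cases hv : v ∈ hb.toFinset
    · rw [Finset.prod_eq_single_of_mem v hv]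
      · rw [map_zpow₀, hπ1, ← exp_zsmul]
        congr 1
        simp
        ring
      · intro w _ hw
        rw [map_zpow₀, hπ2 w v (Ne.symm hw), one_zpow]
    · rw [Finset.prod_eq_one]
      · have : b v = 0 := by
          by_contra h
          exact hv (hb.mem_toFinset.2 h)
        rw [this]
        simp
      · intro w hw
        rw [map_zpow₀, hπ2 w v (by rintro rfl; exact hv hw), one_zpow]

/-- the valuation is trivial almost everywhere -/
theorem finite_val_ne_one {K : Type} [Field K] [NumberField K] {x : K} (hx : x ≠ 0) :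
    {v : HeightOneSpectrum (𝓞 K) | v.valuation K x ≠ 1}.Finite := by
  have h1 := (HeightOneSpectrum.Support.finite (𝓞 K) x).union
    (HeightOneSpectrum.Support.finite (𝓞 K) x⁻¹)
  refine h1.subset (fun v hv => ?_)
  rcases lt_or_gt_of_ne (hv : v.valuation K x ≠ 1) with h | h
  · right
    change 1 < v.valuation K x⁻¹
    rw [map_inv₀]
    exact (one_lt_inv₀ (zero_lt_iff.2 ((Valuation.ne_zero_iff _).2 hx))).2 h
  · left
    exact h

end gen

section inter


variable {L : Type} [Field L] [NumberField L]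

lemma approx (w : HeightOneSpectrum (𝓞 L)) (z : w.adicCompletion L) (n : ℕ) :
    ∃ x : L, Valued.v (z - algebraMap L (w.adicCompletion L) x) ≤ exp (-(n : ℤ)) := by
  obtain ⟨π, hπ⟩ := w.valuation_exists_uniformizer L
  have hπ0 : π ≠ 0 := by
    rintro rfl
    rw [map_zero] at hπ
    exact exp_ne_zero hπ.symm
  have wx : ∀ x : L, Valued.v (algebraMap L (w.adicCompletion L) x) = w.valuation L x :=
    fun x => HeightOneSpectrum.valuedAdicCompletion_eq_valuation' w x
  have hπn : w.valuation L (π ^ n) = exp (-(n : ℤ)) := by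
    rw [map_pow, hπ, ← exp_nsmul]
    congr 1
    simp
  have hne : (Valued.v (R := w.adicCompletion L)).restrict
      (algebraMap L (w.adicCompletion L) (π ^ n)) ≠ 0 := by
    rw [Valuation.ne_zero_iff]
    exact (map_ne_zero _).2 (pow_ne_zero n hπ0)
  have hU : {u : w.adicCompletion L | Valued.v u ≤ exp (-(n : ℤ))} ∈
      𝓝 (0 : w.adicCompletion L) := by
    rw [Valued.mem_nhds_zero]
    refine ⟨Units.mk0 _ hne, fun u hu => ?_⟩
    have hu' : Valued.v u < Valued.v (algebraMap L (w.adicCompletion L) (π ^ n)) :=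
      (Valuation.restrict_lt_iff _).1 hu
    rw [wx, hπn] at hu'
    exact hu'.le
  have ht : Filter.Tendsto (fun u : w.adicCompletion L => z - u) (𝓝 z) (𝓝 0) := by
    have h5 : Filter.Tendsto (fun u : w.adicCompletion L => z - u) (𝓝 z) (𝓝 (z - z)) :=
      tendsto_const_nhds.sub Filter.tendsto_id
    rwa [sub_self] at h5
  obtain ⟨u, hu, x, rfl⟩ := mem_closure_iff_nhds.1
    (HeightOneSpectrum.denseRange_algebraMap L w z) _ (ht hU)
  exact ⟨x, hu⟩

lemma approx_int (w : HeightOneSpectrum (𝓞 L)) (z : w.adicCompletion L) (hz : Valued.v z ≤ 1)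
    (n : ℕ) :
    ∃ r : 𝓞 L, Valued.v (z - algebraMap L (w.adicCompletion L) r) ≤ exp (-(n : ℤ)) := by
  obtain ⟨x, hx⟩ := approx w z n
  have wx : ∀ x : L, Valued.v (algebraMap L (w.adicCompletion L) x) = w.valuation L x :=
    fun x => HeightOneSpectrum.valuedAdicCompletion_eq_valuation' w x
  have hn1 : exp (-(n : ℤ)) ≤ (1 : ℤᵐ⁰) := by
    rw [← exp_zero, exp_le_exp]
    omega
  have hx1 : w.valuation L x ≤ 1 := by
    rw [← wx]
    have e : algebraMap L (w.adicCompletion L) x =
      z - (z - algebraMap L (w.adicCompletion L) x) := by ring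
    rw [e]
    exact (Valuation.map_sub _ _ _).trans (max_le hz (hx.trans hn1))
  obtain ⟨r, hr⟩ := w.exists_valuation_sub_lt_of_integer hx1 (Units.mk0 (exp (-(n : ℤ))) exp_ne_zero)
  refine ⟨r, ?_⟩
  have e : z - algebraMap L (w.adicCompletion L) r =
      (z - algebraMap L (w.adicCompletion L) x) -
        algebraMap L (w.adicCompletion L) (algebraMap (𝓞 L) L r - x) := by
    rw [map_sub]
    ring
  rw [e]
  refine (Valuation.map_sub _ _ _).trans (max_le hx ?_)
  rw [wx]
  exact hr.le

lemma val_pow_sub_le {R Γ : Type*} [CommRing R] [LinearOrderedCommGroupWithZero Γ]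
    (v : Valuation R Γ) {a b : R} (ha : v a ≤ 1) (hb : v b ≤ 1) (n : ℕ) :
    v (a ^ n - b ^ n) ≤ v (a - b) := by
  have h := (Commute.all a b).mul_geom_sum₂ n
  rw [← h, map_mul]
  refine mul_le_of_le_one_right' ?_
  refine Valuation.map_sum_le _ (fun i _ => ?_)
  rw [map_mul, map_pow, map_pow]
  exact mul_le_one' (pow_le_one₀ zero_le ha) (pow_le_one₀ zero_le hb)

/-- there are no nontrivial divisible elements in the local fields -/
theorem eq_one_of_pow (w : HeightOneSpectrum (𝓞 L)) {x : w.adicCompletion L} (hx0 : x ≠ 0)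
    (hx : ∀ n : ℕ, 1 ≤ n → ∃ z, x = z ^ n) : x = 1 := by
  have wx : ∀ x : L, Valued.v (algebraMap L (w.adicCompletion L) x) = w.valuation L x :=
    fun x => HeightOneSpectrum.valuedAdicCompletion_eq_valuation' w x
  have hvx0 : Valued.v x ≠ 0 := (Valuation.ne_zero_iff _).2 hx0
  have hvx : Valued.v x = 1 := by
    obtain ⟨e, he⟩ : ∃ e : ℤ, Valued.v x = exp e := ⟨log (Valued.v x), (exp_log hvx0).symm⟩
    have hd : ∀ n : ℕ, 1 ≤ n → (n : ℤ) ∣ e := by
      intro n hn
      obtain ⟨z, hz⟩ := hx n hn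
      have hz0 : Valued.v z ≠ 0 := by
        rw [Valuation.ne_zero_iff]
        rintro rfl
        rw [zero_pow (by omega)] at hz
        exact hx0 hz
      refine ⟨log (Valued.v z), ?_⟩
      have h1 : Valued.v x = Valued.v z ^ n := by rw [hz, map_pow]
      rw [← exp_log hz0, he, ← exp_nsmul] at h1
      have h2 := exp_injective h1
      rw [h2]
      simp
    have he0 : e = 0 := by
      by_contra hne
      have h1 := hd (e.natAbs + 1) (by omega)
      have h2 := Int.natAbs_dvd_natAbs.2 h1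
      rw [Int.natAbs_natCast] at h2
      have h3 := Nat.le_of_dvd (Int.natAbs_pos.2 hne) h2
      omega
    rw [he, he0, exp_zero]
  have hz1 : ∀ (n : ℕ) (z : w.adicCompletion L), 1 ≤ n → x = z ^ n → Valued.v z = 1 := by
    intro n z hn hz
    rw [hz, map_pow] at hvx
    exact (pow_eq_one_iff_of_nonneg zero_le (by omega)).1 hvx
  have key : ∀ k : ℕ, 1 ≤ k → Valued.v (x - 1) ≤ exp (-(k : ℤ)) := by
    intro k hk
    have hI0 : w.asIdeal ^ k ≠ ⊥ := pow_ne_zero k w.ne_bot
    have hfin : Finite (𝓞 L ⧸ w.asIdeal ^ k) := Ideal.finiteQuotientOfFreeOfNeBot _ hI0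
    have : Fintype (𝓞 L ⧸ w.asIdeal ^ k) := Fintype.ofFinite _
    have : Fintype (𝓞 L ⧸ w.asIdeal ^ k)ˣ := Fintype.ofFinite _
    obtain ⟨z, hz⟩ := hx (Fintype.card (𝓞 L ⧸ w.asIdeal ^ k)ˣ) Fintype.card_pos
    have hvz := hz1 _ z Fintype.card_pos hz
    obtain ⟨r, hr⟩ := approx_int w z hvz.le k
    have hk1 : exp (-(k : ℤ)) < (1 : ℤᵐ⁰) := by
      rw [← exp_zero, exp_lt_exp]
      omega
    have hvr : w.valuation L (r : L) = 1 := by
      rw [← wx]
      have e : algebraMap L (w.adicCompletion L) r =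
        z - (z - algebraMap L (w.adicCompletion L) r) := by ring
      rw [e, ← hvz]
      exact Valuation.map_sub_eq_of_lt_left _ (by rw [hvz]; exact lt_of_le_of_lt hr hk1)
    have hrw : r ∉ w.asIdeal := (w.valuation_eq_one_iff_notMem (K := L)).1 hvr
    have hru : IsUnit (Ideal.Quotient.mk (w.asIdeal ^ k) r) := by
      have hm : w.asIdeal.IsMaximal := w.isMaximal
      have hc : IsCoprime w.asIdeal (Ideal.span {r}) := by
        rw [Ideal.isCoprime_iff_sup_eq]
        refine hm.1.2 _ (lt_of_le_of_ne le_sup_left (fun h => hrw ?_))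
        rw [h]
        exact (le_sup_right : _ ≤ w.asIdeal ⊔ Ideal.span {r}) (Ideal.mem_span_singleton_self r)
      have hc2 : IsCoprime (w.asIdeal ^ k) (Ideal.span {r}) := hc.pow_left
      obtain ⟨i, hi, j, hj, hij⟩ := Ideal.isCoprime_iff_exists.1 hc2
      obtain ⟨c, rfl⟩ := Ideal.mem_span_singleton.1 hj
      refine IsUnit.of_mul_eq_one (Ideal.Quotient.mk (w.asIdeal ^ k) c) ?_
      rw [← map_mul, ← map_one (Ideal.Quotient.mk (w.asIdeal ^ k)), Ideal.Quotient.eq]
      have e : r * c - 1 = -i := by rw [← hij]; ring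
      rw [e]
      exact neg_mem hi
    obtain ⟨u, hu⟩ := hru
    have hu1 := pow_card_eq_one (x := u)
    have hr1 : r ^ Fintype.card (𝓞 L ⧸ w.asIdeal ^ k)ˣ - 1 ∈ w.asIdeal ^ k := by
      rw [← Ideal.Quotient.eq, map_pow, ← hu, ← Units.val_pow_eq_pow_val, hu1]
      simp
    have hr2 : Valued.v (algebraMap L (w.adicCompletion L) r ^
        Fintype.card (𝓞 L ⧸ w.asIdeal ^ k)ˣ - 1) ≤ exp (-(k : ℤ)) := by
      have h1 := (w.intValuation_le_pow_iff_mem _ _).2 hr1
      rw [← w.valuation_of_algebraMap (K := L), ← wx] at h1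
      simpa using h1
    have e : x - 1 = (z ^ Fintype.card (𝓞 L ⧸ w.asIdeal ^ k)ˣ -
        algebraMap L (w.adicCompletion L) r ^ Fintype.card (𝓞 L ⧸ w.asIdeal ^ k)ˣ) +
        (algebraMap L (w.adicCompletion L) r ^
        Fintype.card (𝓞 L ⧸ w.asIdeal ^ k)ˣ - 1) := by
      rw [hz]
      ring
    rw [e]
    refine (Valuation.map_add _ _ _).trans (max_le ?_ hr2)
    refine (val_pow_sub_le _ hvz.le ?_ _).trans hr
    rw [wx]
    exact hvr.le
  by_contra hne
  have h0 : Valued.v (x - 1) ≠ 0 := (Valuation.ne_zero_iff _).2 (sub_ne_zero.2 hne)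
  obtain ⟨e, he⟩ : ∃ e : ℤ, Valued.v (x - 1) = exp e :=
    ⟨log (Valued.v (x - 1)), (exp_log h0).symm⟩
  have h1 := key (e.natAbs + 1) (by omega)
  rw [he, exp_le_exp] at h1
  omega

end inter

end Pool.Agent.V8H94.SC
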