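import Pool.Agent.TH954.SObs2
import Pool.Agent.V8H94.SC.Places

/-!
# Elements which are local powers: the argument with Frobenius elements
-/

set_option autoImplicit false
set_option linter.unusedSectionVars false

open IsDedekindDomain NumberField Pool.Agent.W401.Cheb Pool.Agent.TH954

namespace Pool.Agent.V8H94.SC

variable {K : Type} [Field K] [NumberField K]

/-- the integral case -/
theorem frob_int (T : Finset (AlgebraicClosure K))
    (hT : ∀ σ : AlgebraicClosure K ≃ₐ[K] AlgebraicClosure K, ∀ θ ∈ T, σ θ ∈ T)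
    (hint : ∀ θ ∈ T, IsIntegral ℤ θ) (hT0 : ∀ θ ∈ T, θ ≠ 0) {N : ℕ} (hN : 1 ≤ N)
    {c : 𝓞 K} (hc : c ≠ 0) (σ : AlgebraicClosure K ≃ₐ[K] AlgebraicClosure K)
    (hσT : ∀ θ ∈ T, σ θ = θ) (hσN : ∀ ζ : AlgebraicClosure K, ζ ^ N = 1 → σ ζ = ζ)
    (z : ∀ v : HeightOneSpectrum (𝓞 K), v.adicCompletion K)
    (hz : ∀ v : HeightOneSpectrum (𝓞 K),
      ∀ (ι : AlgebraicClosure K →ₐ[K] AlgebraicClosure (v.adicCompletion K)), ∃ θ ∈ T,
      ι θ = algebraMap (v.adicCompletion K) (AlgebraicClosure (v.adicCompletion K))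
          (toLoc v c * z v ^ N)) :
    ∃ θ ∈ T, ∀ b : AlgebraicClosure K,
      b ^ N = algebraMap K (AlgebraicClosure K) (c : K) ^ (N - 1) * θ → σ b = b := by
  classical
  have hN0 : N ≠ 0 := by omega
  have : NeZero (N : AlgebraicClosure K) := ⟨by exact_mod_cast hN0⟩
  obtain ⟨ζ, hζ⟩ := HasEnoughRootsOfUnity.exists_primitiveRoot (AlgebraicClosure K) N
  set cA : AlgebraicClosure K := algebraMap K (AlgebraicClosure K) (c : K) with hcA
  have hcA0 : cA ≠ 0 := by
    rw [hcA, Ne, map_eq_zero]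
    exact fun h => hc (RingOfIntegers.coe_injective h)
  -- the radicals
  have hρex : ∀ θ, ∃ r : AlgebraicClosure K,
      r ^ N = cA ^ (N - 1) * θ := fun θ => IsAlgClosed.exists_pow_nat_eq _ (by omega)
  choose ρ hρ using hρex
  -- it suffices to consider one radical
  suffices hsuf : ∃ θ ∈ T, σ (ρ θ) = ρ θ by
    obtain ⟨θ, hθ, h1⟩ := hsuf
    refine ⟨θ, hθ, fun b hb => ?_⟩
    have hρ0 : ρ θ ≠ 0 := by
      intro h0
      have h2 := hρ θ
      rw [h0, zero_pow hN0] at h2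
      exact mul_ne_zero (pow_ne_zero _ hcA0) (hT0 θ hθ) h2.symm
    have h2 : (b / ρ θ) ^ N = 1 := by
      rw [div_pow, hb, hρ, div_self]
      exact mul_ne_zero (pow_ne_zero _ hcA0) (hT0 θ hθ)
    have h3 := hσN _ h2
    rw [map_div₀, h1, div_left_inj' hρ0] at h3
    exact h3
  -- the field
  obtain ⟨L', _, _, _, i', τ, κ', hκi', hκτ, hκs'⟩ := Pool.Agent.TH120.Sec.exists_L K
    ((insert ζ (T ∪ T.image ρ) : Finset (AlgebraicClosure K)) : Set (AlgebraicClosure K))
    (Finset.finite_toSet _) σ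
  have htex : ∀ θ, ∃ s : 𝓞 L', θ ∈ T → κ' s = θ := by
    intro θ
    by_cases hθ : θ ∈ T
    · obtain ⟨y, hy⟩ := exists_int_preimage κ' (hint θ hθ)
        (hκs' θ (Finset.mem_coe.2 (Finset.mem_insert_of_mem (Finset.mem_union_left _ hθ))))
      exact ⟨y, fun _ => hy⟩
    · exact ⟨0, fun h => absurd h hθ⟩
  choose t ht using htex
  have hcint : IsIntegral ℤ cA := by
    rw [hcA]
    exact c.2.map (IsScalarTower.toAlgHom ℤ K (AlgebraicClosure K))
  have hρint : ∀ θ ∈ T, IsIntegral ℤ (ρ θ) := by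
    intro θ hθ
    refine IsIntegral.of_pow (by omega : 0 < N) ?_
    rw [hρ]
    exact (hcint.pow _).mul (hint θ hθ)
  have hRex : ∀ θ, ∃ s : 𝓞 L', θ ∈ T → κ' s = ρ θ := by
    intro θ
    by_cases hθ : θ ∈ T
    · obtain ⟨y, hy⟩ := exists_int_preimage κ' (hρint θ hθ)
        (hκs' _ (Finset.mem_coe.2 (Finset.mem_insert_of_mem
          (Finset.mem_union_right _ (Finset.mem_image_of_mem ρ hθ)))))
      exact ⟨y, fun _ => hy⟩
    · exact ⟨0, fun h => absurd h hθ⟩
  choose R hR using hRex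
  obtain ⟨Z, hZ⟩ := exists_int_preimage κ' (hζ.isIntegral (by omega))
    (hκs' ζ (Finset.mem_coe.2 (Finset.mem_insert_self _ _)))
  set iO : 𝓞 K →+* 𝓞 L' := RingOfIntegers.mapRingHom i' with hiO
  have hiOc : ∀ x : 𝓞 K, κ' (iO x : L') = algebraMap K (AlgebraicClosure K) (x : K) :=
    fun x => hκi' x
  have hρ0 : ∀ θ ∈ T, ρ θ ≠ 0 := by
    intro θ hθ h0
    have h2 := hρ θ
    rw [h0, zero_pow hN0] at h2
    exact mul_ne_zero (pow_ne_zero _ hcA0) (hT0 θ hθ) h2.symm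
  have hR0 : ∀ θ ∈ T, R θ ≠ 0 := by
    intro θ hθ h0
    apply hρ0 θ hθ
    rw [← hR θ hθ, h0]
    simp
  have hRl : ∀ θ ∈ T, (R θ) ^ N = iO c ^ (N - 1) * t θ := by
    intro θ hθ
    apply RingOfIntegers.coe_injective
    apply κ'.injective
    rw [map_pow, map_pow, hR θ hθ, hρ, map_mul, map_mul, map_pow, map_pow,
      ht θ hθ]
    have h1 := hiOc c
    rw [← hcA] at h1
    rw [← h1]
  -- the root of unity
  have hZτ : τ • Z = Z := by
    apply RingOfIntegers.coe_injective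
    apply κ'.injective
    change κ' (τ (Z : L')) = κ' (Z : L')
    rw [hκτ, hZ]
    exact hσN ζ hζ.pow_eq_one
  have hZN : Z ^ N = 1 := by
    apply RingOfIntegers.coe_injective
    apply κ'.injective
    rw [map_pow, map_pow, hZ, hζ.pow_eq_one]
    simp
  have hZi : ∀ k, 0 < k → k < N → Z ^ k - 1 ≠ 0 := by
    intro k hk hkN h0
    rw [sub_eq_zero] at h0
    have h1 : κ' (algebraMap (𝓞 L') L' (Z ^ k)) = 1 := by rw [h0]; simp
    rw [map_pow, map_pow] at h1
    change κ' (Z : L') ^ k = 1 at h1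
    rw [hZ] at h1
    exact hζ.pow_ne_one_of_pos_of_lt hk.ne' hkN h1
  -- the roots of unity of the radicals
  have hξex : ∀ θ, ∃ ξ : 𝓞 L', θ ∈ T → (τ • (R θ) = ξ * R θ ∧ ξ ^ N = 1) := by
    intro θ
    by_cases hθ : θ ∈ T
    · have hR0' : (R θ : L') ≠ 0 := fun h0 => hR0 θ hθ (RingOfIntegers.coe_injective (by
        rw [map_zero]; exact h0))
      have hpow : (τ (R θ : L') / (R θ : L')) ^ N = 1 := by
        apply κ'.injective
        rw [map_pow, map_div₀, hκτ, hR θ hθ, div_pow, map_one, ← map_pow, hρ, map_mul, map_pow,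
          hσT θ hθ, hcA, σ.commutes, div_self]
        exact mul_ne_zero (pow_ne_zero _ hcA0) (hT0 θ hθ)
      have hint' : IsIntegral ℤ (τ (R θ : L') / (R θ : L')) := by
        refine IsIntegral.of_pow (by omega : 0 < N) ?_
        rw [hpow]
        exact isIntegral_one
      refine ⟨⟨_, hint'⟩, fun _ => ⟨?_, ?_⟩⟩
      · apply RingOfIntegers.coe_injective
        change τ (R θ : L') = (τ (R θ : L') / (R θ : L')) * (R θ : L')
        rw [div_mul_cancel₀ _ hR0']
      · apply RingOfIntegers.coe_injective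
        change (τ (R θ : L') / (R θ : L')) ^ N = 1
        exact hpow
    · exact ⟨0, fun h => absurd h hθ⟩
  choose ξ hξ using hξex
  by_contra hcon
  push Not at hcon
  have hξ1 : ∀ θ ∈ T, ξ θ - 1 ≠ 0 := by
    intro θ hθ h0
    apply hcon θ hθ
    rw [sub_eq_zero] at h0
    have h1 := (hξ θ hθ).1
    rw [h0, one_mul] at h1
    have h2 : τ (R θ : L') = (R θ : L') := congrArg (fun x : 𝓞 L' => (x : L')) h1
    rw [← hR θ hθ, ← hκτ, h2]
  have hcO : iO c ≠ 0 := by
    intro h0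
    apply hcA0
    rw [hcA, ← hiOc c, h0]
    simp
  obtain ⟨m, hm, hm'⟩ := Pool.Agent.W723.SecC.nz L' (iO c * (∏ θ ∈ T, (R θ * (ξ θ - 1))) *
      ∏ k ∈ (Finset.range N).erase 0, (Z ^ k - 1))
    (mul_ne_zero (mul_ne_zero hcO (Finset.prod_ne_zero_iff.2 (fun θ hθ => mul_ne_zero (hR0 θ hθ)
      (hξ1 θ hθ)))) (Finset.prod_ne_zero_iff.2 (fun k hk => hZi k
        (Nat.pos_of_ne_zero (Finset.mem_erase.1 hk).1)
        (Finset.mem_range.1 (Finset.mem_erase.1 hk).2))))
  obtain ⟨p, ⟨hp, hxp⟩, hpgt⟩ := (infinite_frob L' τ).exists_gt m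
  have hpm : ¬ p ∣ m := fun hd => by
    have h1 := Nat.le_of_dvd hm hd
    omega
  have : Fact p.Prime := ⟨hp⟩
  obtain ⟨φ, hφ⟩ : ∃ φ : 𝓞 L' →+* AlgebraicClosure (ZMod p), HasFrob p φ τ := by
    unfold xp at hxp
    rw [dif_pos hp] at hxp
    by_contra h
    push Not at h
    apply hxp
    rw [Nat.card_eq_zero]
    left
    exact ⟨fun x => h x.1 x.2⟩
  have hφE : φ (iO c * (∏ θ ∈ T, (R θ * (ξ θ - 1))) *
      ∏ k ∈ (Finset.range N).erase 0, (Z ^ k - 1)) ≠ 0 := by
    refine hm' _ φ ?_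
    rw [Ne, CharP.cast_eq_zero_iff (AlgebraicClosure (ZMod p)) p]
    exact hpm
  rw [map_mul, map_mul, map_prod, map_prod] at hφE
  have hφc : φ (iO c) ≠ 0 := left_ne_zero_of_mul (left_ne_zero_of_mul hφE)
  have hφθ : ∀ θ ∈ T, φ (R θ) ≠ 0 ∧ φ (ξ θ) ≠ 1 := by
    intro θ hθ
    have h1 := Finset.prod_ne_zero_iff.1 (right_ne_zero_of_mul (left_ne_zero_of_mul hφE)) θ hθ
    rw [map_mul, map_sub, map_one] at h1
    exact ⟨left_ne_zero_of_mul h1, fun h2 => right_ne_zero_of_mul h1 (by rw [h2, sub_self])⟩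
  have hφZ : IsPrimitiveRoot (φ Z) N := by
    refine (IsPrimitiveRoot.iff (by omega)).2 ⟨by rw [← map_pow, hZN, map_one], fun k hk hkN => ?_⟩
    have h1 := Finset.prod_ne_zero_iff.1 (right_ne_zero_of_mul hφE) k
      (Finset.mem_erase.2 ⟨hk.ne', Finset.mem_range.2 hkN⟩)
    rw [map_sub, map_one, map_pow] at h1
    exact sub_ne_zero.1 h1
  have hφi : ∀ x : 𝓞 K, φ (iO x) ^ p = φ (iO x) := by
    intro x
    have h1 := hφ (iO x)
    have h2 : τ • (iO x) = iO x := by
      apply RingOfIntegers.coe_injective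
      apply κ'.injective
      change κ' (τ (iO x : L')) = _
      rw [hκτ, hiOc, σ.commutes]
    rw [h2] at h1
    exact h1.symm
  -- the place
  set P : Ideal (𝓞 K) := RingHom.ker (φ.comp iO) with hP
  have hPprime : P.IsPrime := RingHom.ker_isPrime _
  have hP0 : P ≠ ⊥ := by
    intro h0
    have hpP : ((p : ℕ) : 𝓞 K) ∈ P := by
      rw [hP, RingHom.mem_ker, map_natCast]
      exact CharP.cast_eq_zero _ p
    rw [h0, Ideal.mem_bot] at hpP
    have : p = 0 := by exact_mod_cast hpP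
    exact hp.ne_zero this
  let v : HeightOneSpectrum (𝓞 K) := ⟨P, hPprime, hP0⟩
  have hcv : c ∉ v.asIdeal := fun h => hφc ((RingHom.mem_ker).1 h)
  obtain ⟨q, hqm, hq⟩ := exists_int_poly T hT hint
  let ι : AlgebraicClosure K →ₐ[K] AlgebraicClosure (v.adicCompletion K) := IsAlgClosed.lift
  obtain ⟨θ, hθ, hιθ⟩ := hz v ι
  obtain ⟨r, hr⟩ := local_root v hqm (0 : 𝓞 K) hcv hN (z v) (by
    apply (algebraMap (v.adicCompletion K) (AlgebraicClosure (v.adicCompletion K))).injective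
    rw [Polynomial.hom_eval₂, map_zero, map_zero, zero_add, ← hιθ]
    have e1 : (algebraMap (v.adicCompletion K) (AlgebraicClosure (v.adicCompletion K))).comp
        (toLoc v) = (ι : AlgebraicClosure K →+* _).comp
          (algebraMap (𝓞 K) (AlgebraicClosure K)) := by
      apply RingHom.ext
      intro x
      exact (ι.commutes (x : K)).symm
    rw [e1]
    change Polynomial.eval₂ _ ((ι : AlgebraicClosure K →+*
      AlgebraicClosure (v.adicCompletion K)) θ) _ = 0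
    rw [← Polynomial.hom_eval₂, Polynomial.eval₂_eq_eval_map, hq, Polynomial.eval_prod,
      Finset.prod_eq_zero hθ (by simp), map_zero])
  have hr' : φ (iO (q.eval ((0 : 𝓞 K) + c * r ^ N))) = 0 := (RingHom.mem_ker).1 hr
  have hqO : q.map iO = ∏ θ ∈ T, (Polynomial.X - Polynomial.C (t θ)) := by
    have hinj : Function.Injective (κ'.comp (algebraMap (𝓞 L') L')) :=
      κ'.injective.comp RingOfIntegers.coe_injective
    apply Polynomial.map_injective _ hinj
    rw [Polynomial.map_map, Polynomial.map_prod]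
    have e1 : (κ'.comp (algebraMap (𝓞 L') L')).comp iO =
        algebraMap (𝓞 K) (AlgebraicClosure K) := by
      apply RingHom.ext
      intro x
      exact hiOc x
    rw [e1, hq]
    refine Finset.prod_congr rfl (fun θ hθ => ?_)
    rw [Polynomial.map_sub, Polynomial.map_X, Polynomial.map_C]
    rw [show (κ'.comp (algebraMap (𝓞 L') L')) (t θ) = θ from ht θ hθ]
  have hr2 : ∃ θ' ∈ T, φ (iO ((0 : 𝓞 K) + c * r ^ N)) = φ (t θ') := by
    have e1 : iO (q.eval ((0 : 𝓞 K) + c * r ^ N)) =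
        (q.map iO).eval (iO ((0 : 𝓞 K) + c * r ^ N)) := by
      rw [Polynomial.eval_map]
      exact (Polynomial.hom_eval₂ q (RingHom.id _) iO _).trans (by rw [RingHom.comp_id])
    rw [e1, hqO, Polynomial.eval_prod, map_prod, Finset.prod_eq_zero_iff] at hr'
    obtain ⟨θ', hθ', h1⟩ := hr'
    refine ⟨θ', hθ', ?_⟩
    rw [Polynomial.eval_sub, Polynomial.eval_X, Polynomial.eval_C, map_sub, sub_eq_zero] at h1
    exact h1
  obtain ⟨θ', hθ', h2⟩ := hr2
  obtain ⟨hR1, hR2⟩ := hφθ θ' hθ'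
  obtain ⟨hξa, hξb⟩ := hξ θ' hθ'
  have h3 : φ (R θ') ^ N = φ (iO (c * r)) ^ N := by
    rw [← map_pow, hRl θ' hθ', map_mul, ← h2, map_pow]
    simp only [map_mul, map_pow, zero_add]
    have : N = (N - 1) + 1 := by omega
    conv_rhs => rw [this]
    conv_lhs => rw [this]
    simp only [Nat.add_sub_cancel]
    ring
  have hw0 : φ (iO (c * r)) ≠ 0 := by
    intro h0
    rw [h0, zero_pow hN0] at h3
    exact hR1 ((pow_eq_zero_iff hN0).1 h3)
  have h7 : (φ (R θ') / φ (iO (c * r))) ^ N = 1 := by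
    rw [div_pow, h3, div_self (pow_ne_zero _ hw0)]
  have : NeZero N := ⟨hN0⟩
  obtain ⟨k, -, hk⟩ := hφZ.eq_pow_of_pow_eq_one h7
  have hZp : φ Z ^ p = φ Z := by
    have h5 := hφ Z
    rw [hZτ] at h5
    exact h5.symm
  have h9 : (φ (R θ') / φ (iO (c * r))) ^ p = φ (ξ θ') * (φ (R θ') / φ (iO (c * r))) := by
    rw [div_pow, hφi, ← hφ (R θ'), hξa, map_mul, mul_div_assoc]
  have h10 : (φ (R θ') / φ (iO (c * r))) ^ p = φ (R θ') / φ (iO (c * r)) := by
    rw [← hk, ← pow_mul, mul_comm k p, pow_mul, hZp]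
  rw [h10] at h9
  have h11 : φ (R θ') / φ (iO (c * r)) ≠ 0 := div_ne_zero hR1 hw0
  apply hR2
  exact (mul_right_cancel₀ h11 ((one_mul _).trans h9)).symm

/-- the general case -/
theorem frob_step (T : Finset (AlgebraicClosure K))
    (hT : ∀ σ : AlgebraicClosure K ≃ₐ[K] AlgebraicClosure K, ∀ θ ∈ T, σ θ ∈ T)
    (hT0 : ∀ θ ∈ T, θ ≠ 0) {N : ℕ} (hN : 1 ≤ N)
    {c : K} (hc : c ≠ 0) (σ : AlgebraicClosure K ≃ₐ[K] AlgebraicClosure K)
    (hσT : ∀ θ ∈ T, σ θ = θ) (hσN : ∀ ζ : AlgebraicClosure K, ζ ^ N = 1 → σ ζ = ζ)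
    (z : ∀ v : HeightOneSpectrum (𝓞 K), v.adicCompletion K)
    (hz : ∀ v : HeightOneSpectrum (𝓞 K),
      ∀ (ι : AlgebraicClosure K →ₐ[K] AlgebraicClosure (v.adicCompletion K)), ∃ θ ∈ T,
      ι θ = algebraMap (v.adicCompletion K) (AlgebraicClosure (v.adicCompletion K))
          (algebraMap K (v.adicCompletion K) c * z v ^ N)) :
    ∃ θ ∈ T, ∀ b : AlgebraicClosure K,
      b ^ N = θ / algebraMap K (AlgebraicClosure K) c → σ b = b := by
  classical
  obtain ⟨D, hD, hDint⟩ := exists_denom T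
  have hDK : (D : K) ≠ 0 := by exact_mod_cast hD
  have hDA : (D : AlgebraicClosure K) ≠ 0 := by exact_mod_cast hD
  obtain ⟨c1, d, hd, hcd⟩ : ∃ (c1 : 𝓞 K) (d : 𝓞 K), d ≠ 0 ∧ (c1 : K) = (D : K) * c * (d : K) := by
    obtain ⟨x, y, hy, hxy⟩ := IsFractionRing.div_surjective (𝓞 K) ((D : K) * c)
    have hy0 : y ≠ 0 := nonZeroDivisors.ne_zero hy
    refine ⟨x, y, hy0, ?_⟩
    rw [← hxy, div_mul_cancel₀]
    exact fun h0 => hy0 (RingOfIntegers.coe_injective (by rw [map_zero]; exact h0))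
  have hdK : (d : K) ≠ 0 := fun h0 => hd (RingOfIntegers.coe_injective (by rw [map_zero]; exact h0))
  have hc1 : c1 ≠ 0 := by
    rintro rfl
    have : (D : K) * c * (d : K) = 0 := by rw [← hcd]; simp
    exact mul_ne_zero (mul_ne_zero hDK hc) hdK this
  have e4 : ((c1 * d ^ (N - 1) : 𝓞 K) : K) = (D : K) * c * (d : K) ^ N := by
    have e5 : ((c1 * d ^ (N - 1) : 𝓞 K) : K) = (c1 : K) * (d : K) ^ (N - 1) := by simp
    rw [e5, hcd]
    have : N = (N - 1) + 1 := by omega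
    conv_rhs => rw [this]
    ring
  obtain ⟨θ', hθ', h⟩ := frob_int (T.image (fun θ => (D : AlgebraicClosure K) * θ)) (by
      intro σ x hx
      obtain ⟨θ, hθ, rfl⟩ := Finset.mem_image.1 hx
      refine Finset.mem_image.2 ⟨σ θ, hT σ θ hθ, ?_⟩
      rw [map_mul, map_natCast]) (by
      intro x hx
      obtain ⟨θ, hθ, rfl⟩ := Finset.mem_image.1 hx
      exact hDint θ hθ) (by
      intro x hx
      obtain ⟨θ, hθ, rfl⟩ := Finset.mem_image.1 hx
      exact mul_ne_zero hDA (hT0 θ hθ)) hN (c := c1 * d ^ (N - 1))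
      (mul_ne_zero hc1 (pow_ne_zero _ hd)) σ (by
      intro x hx
      obtain ⟨θ, hθ, rfl⟩ := Finset.mem_image.1 hx
      rw [map_mul, map_natCast, hσT θ hθ]) hσN
      (fun v => z v / algebraMap K (v.adicCompletion K) (d : K)) (by
      intro v ι
      obtain ⟨θ, hθ, h1⟩ := hz v ι
      refine ⟨(D : AlgebraicClosure K) * θ, Finset.mem_image_of_mem _ hθ, ?_⟩
      rw [map_mul, h1, map_natCast]
      have e2 : ((D : ℕ) : AlgebraicClosure (v.adicCompletion K)) =
          algebraMap (v.adicCompletion K) (AlgebraicClosure (v.adicCompletion K))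
            (algebraMap K (v.adicCompletion K) (D : K)) := by
        rw [map_natCast, map_natCast]
      rw [e2, ← map_mul]
      congr 1
      have hdv : algebraMap K (v.adicCompletion K) (d : K) ≠ 0 := (map_ne_zero _).2 hdK
      have e3 : toLoc v (c1 * d ^ (N - 1)) = algebraMap K (v.adicCompletion K) (D : K) *
          algebraMap K (v.adicCompletion K) c * algebraMap K (v.adicCompletion K) (d : K) ^ N := by
        change algebraMap K (v.adicCompletion K) ((c1 * d ^ (N - 1) : 𝓞 K) : K) = _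
        rw [e4, map_mul, map_mul, map_pow]
      rw [e3, div_pow]
      have hdN := pow_ne_zero N hdv
      field_simp)
  obtain ⟨θ, hθ, rfl⟩ := Finset.mem_image.1 hθ'
  refine ⟨θ, hθ, fun b hb => ?_⟩
  set α : K →+* AlgebraicClosure K := algebraMap K (AlgebraicClosure K) with hα
  have hαd : α (d : K) ≠ 0 := (map_ne_zero _).2 hdK
  have hαc : α c ≠ 0 := (map_ne_zero _).2 hc
  have hαe : α ((c1 * d ^ (N - 1) : 𝓞 K) : K) = (D : AlgebraicClosure K) * α c * α (d : K) ^ N := by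
    rw [e4, map_mul, map_mul, map_pow, map_natCast]
  have h1 := h (α ((c1 * d ^ (N - 1) : 𝓞 K) : K) * b / α (d : K)) (by
    have hαe0 : α ((c1 * d ^ (N - 1) : 𝓞 K) : K) ≠ 0 := by
      rw [hαe]
      exact mul_ne_zero (mul_ne_zero hDA hαc) (pow_ne_zero _ hαd)
    have e6 : α ((c1 * d ^ (N - 1) : 𝓞 K) : K) ^ N =
        α ((c1 * d ^ (N - 1) : 𝓞 K) : K) ^ (N - 1) * α ((c1 * d ^ (N - 1) : 𝓞 K) : K) := by
      rw [← pow_succ]
      congr 1
      omega
    rw [div_pow, mul_pow, hb, e6]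
    have hdN := pow_ne_zero N hαd
    rw [mul_assoc, mul_div_assoc]
    congr 1
    rw [hαe]
    field_simp)
  have hαe0 : α ((c1 * d ^ (N - 1) : 𝓞 K) : K) ≠ 0 := by
    rw [hαe]
    exact mul_ne_zero (mul_ne_zero hDA hαc) (pow_ne_zero _ hαd)
  rw [map_div₀, map_mul, hα, σ.commutes, σ.commutes, ← hα, div_left_inj' hαd] at h1
  exact mul_left_cancel₀ hαe0 h1

end Pool.Agent.V8H94.SC
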