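import Pool.Agent.V8H94.SC.Units

/-!
# Elements which are everywhere local powers, and Kummer classes
-/

set_option autoImplicit false
set_option linter.unusedSectionVars false

open IsDedekindDomain NumberField Pool.Agent.TH954 Polynomial

namespace Pool.Agent.V8H94.SC

/-- elements which are everywhere powers of a large exponent are powers -/
theorem local_global {E : Type} [Field E] [NumberField E] {N : ℕ} (hN : 1 ≤ N) :
    ∃ D : ℕ, 1 ≤ D ∧ ∀ b : E, b ≠ 0 →
      (∀ w : HeightOneSpectrum (𝓞 E), ∃ z, algebraMap E (w.adicCompletion E) b = z ^ (N * D)) →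
      ∃ r : E, b = r ^ N := by
  classical
  obtain ⟨L, _, _, _, i, -, κ, hκi, -, -⟩ := Pool.Agent.TH120.Sec.exists_L E ∅ Set.finite_empty 1
  let _ : Algebra E L := i.toAlgebra
  have : IsScalarTower ℚ E L := IsScalarTower.of_algebraMap_eq (fun x => by
      rw [eq_ratCast, eq_ratCast, map_ratCast])
  have : FiniteDimensional E L := FiniteDimensional.right ℚ E L
  have : Module.Free E L := inferInstance
  set A := (2 ^ Nat.card (L ≃ₐ[ℚ] L) - 1) * (3 ^ Nat.card (L ≃ₐ[ℚ] L) - 1) with hA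
  have hA1 : 1 ≤ A := by
    have hd : 1 ≤ Nat.card (L ≃ₐ[ℚ] L) := Nat.card_pos
    have h2 : 2 ≤ 2 ^ Nat.card (L ≃ₐ[ℚ] L) := by
      calc 2 = 2 ^ 1 := rfl
        _ ≤ _ := Nat.pow_le_pow_right (by norm_num) hd
    have h3 : 3 ≤ 3 ^ Nat.card (L ≃ₐ[ℚ] L) := by
      calc 3 = 3 ^ 1 := rfl
        _ ≤ _ := Nat.pow_le_pow_right (by norm_num) hd
    have h5 : 0 < 2 ^ Nat.card (L ≃ₐ[ℚ] L) - 1 := by omega
    have h6 : 0 < 3 ^ Nat.card (L ≃ₐ[ℚ] L) - 1 := by omega
    exact Nat.mul_pos h5 h6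
  set A' := A * Module.finrank E L with hA'
  have hA'1 : 1 ≤ A' := Nat.mul_pos hA1 Module.finrank_pos
  obtain ⟨w0⟩ := exists_place E
  have hn : ∀ ω : E, ∃ n : ℕ, 1 ≤ n ∧ (ω ≠ 0 → ω ≠ 1 → ∀ z : w0.adicCompletion E,
      algebraMap E (w0.adicCompletion E) ω ≠ z ^ n) := by
    intro ω
    by_cases hω : ω ≠ 0 ∧ ω ≠ 1
    · by_contra hcon
      push Not at hcon
      apply hω.2
      have h1 : algebraMap E (w0.adicCompletion E) ω = 1 := by
        refine eq_one_of_pow w0 ((_root_.map_ne_zero _).2 hω.1) (fun n hn => ?_)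
        obtain ⟨-, -, z, hz⟩ := hcon n hn
        exact ⟨z, hz⟩
      apply (algebraMap E (w0.adicCompletion E)).injective
      rw [h1, map_one]
    · exact ⟨1, le_rfl, fun h1 h2 => absurd ⟨h1, h2⟩ hω⟩
  choose n hn1 hn2 using hn
  set N1 : ℕ := ∏ ω ∈ (nthRoots A' (1 : E)).toFinset, n ω with hN1
  have hN11 : 1 ≤ N1 := Finset.one_le_prod' (fun ω _ => hn1 ω)
  refine ⟨N1 * A', Nat.mul_pos hN11 hA'1, fun b hb0 hb => ?_⟩
  choose z hz using hb
  have hN'' : 1 ≤ N * (N1 * A') := Nat.mul_pos hN (Nat.mul_pos hN11 hA'1)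
  obtain ⟨θ, hθ, y, hy⟩ := zed_step i κ hκi {1} (fun σ θ hθ => by
      rw [Finset.mem_singleton] at hθ ⊢
      rw [hθ, map_one]) (fun θ hθ => by
      rw [Finset.mem_singleton] at hθ
      rw [hθ]
      exact one_ne_zero) (fun _ => 1) (fun θ hθ => by
      rw [Finset.mem_singleton] at hθ
      rw [hθ, map_one]) hN'' (inv_ne_zero hb0) z (by
      intro v ι
      refine ⟨1, Finset.mem_singleton_self _, ?_⟩
      rw [← hz v, map_one, map_inv₀, inv_mul_cancel₀ ((_root_.map_ne_zero _).2 hb0), map_one])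
  rw [Finset.card_singleton, Nat.factorial_one, one_mul, ← hA, map_inv₀, one_div, inv_inv] at hy
  have hnorm : (Algebra.norm E y) ^ (N * (N1 * A')) = b ^ A' := by
    rw [← map_pow, hy, map_pow]
    have e : i b = algebraMap E L b := rfl
    rw [e, Algebra.norm_algebraMap, ← pow_mul, hA', mul_comm A]
  have hy0 : Algebra.norm E y ≠ 0 := by
    intro h0
    rw [h0, zero_pow (by omega)] at hnorm
    exact pow_ne_zero _ hb0 hnorm.symm
  set r : E := (Algebra.norm E y) ^ (N * N1) with hr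
  have hr0 : r ≠ 0 := pow_ne_zero _ hy0
  have hω : (b / r) ^ A' = 1 := by
    rw [div_pow, hr, ← pow_mul, mul_assoc, hnorm, div_self (pow_ne_zero _ hb0)]
  have hω1 : b / r = 1 := by
    by_contra hne
    have hmem : b / r ∈ (nthRoots A' (1 : E)).toFinset := by
      rw [Multiset.mem_toFinset, mem_nthRoots hA'1]
      exact hω
    obtain ⟨k, hk⟩ := Finset.dvd_prod_of_mem n hmem
    refine hn2 _ (div_ne_zero hb0 hr0) hne
      (((z w0) ^ A' / algebraMap E _ (Algebra.norm E y)) ^ (N * k)) ?_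
    rw [map_div₀, hz w0, hr, map_pow, ← pow_mul]
    have e1 : N * k * n (b / r) = N * N1 := by
      rw [hN1, hk]
      ring
    rw [e1, div_pow, ← pow_mul]
    congr 2
    ring
  rw [div_eq_one_iff_eq hr0] at hω1
  exact ⟨(Algebra.norm E y) ^ N1, by rw [hω1, hr, ← pow_mul, mul_comm]⟩

variable {K : Type} [Field K] [NumberField K] {M : Type} [Field M] [Algebra K M] (A : SAct K M)

/-- the values of a Kummer relation -/
theorem kummer_local' (E : IntermediateField K (AlgebraicClosure K)) [NumberField E]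
    {v : HeightOneSpectrum (𝓞 K)} {w : HeightOneSpectrum (𝓞 E)}
    {pl : Plc K M (AlgebraicClosure (v.adicCompletion K))} (hpl : GeoPlc A pl)
    {x g : M} {a : E} (ha0 : a ≠ 0) {N : ℕ} (hN : 1 ≤ N)
    (hg : ∀ τ ∈ E.fixingSubgroup, A.s τ g = g) (hxg : x = A.j (a : AlgebraicClosure K) * g ^ N)
    {e : AlgebraicClosure (v.adicCompletion K) →+* AlgebraicClosure (w.adicCompletion E)}
    {ρ : AlgebraicClosure K ≃ₐ[K] AlgebraicClosure K} {t : w.adicCompletion E}
    {c : AlgebraicClosure (v.adicCompletion K)}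
    (h2 : ∀ a : E, e (pl.iot A.j (ρ a)) = algebraMap (w.adicCompletion E) _
        (algebraMap E (w.adicCompletion E) a))
    (h3 : ∀ σ' : AlgebraicClosure (w.adicCompletion E) ≃ₐ[w.adicCompletion E]
        AlgebraicClosure (w.adicCompletion E),
        ∃ σ : AlgebraicClosure (v.adicCompletion K) ≃ₐ[v.adicCompletion K]
          AlgebraicClosure (v.adicCompletion K), ∀ c, e (σ c) = σ' (e c))
    (hc : pl.val (A.s ρ x) c) (hct : e c = algebraMap _ _ t) :
    ∃ z, t = algebraMap E (w.adicCompletion E) a * z ^ N := by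
  have hx' : A.s ρ x = A.j (ρ a) * (A.s ρ g) ^ N := by
    rw [hxg, map_mul, map_pow, A.hj]
  have hρa0 : A.j (ρ a) ≠ 0 := by
    rw [_root_.map_ne_zero, _root_.map_ne_zero]
    intro h0
    exact ha0 (Subtype.ext h0)
  have hgN : (A.s ρ g) ^ N ∈ pl.W := by
    have e1 : (A.s ρ g) ^ N = A.s ρ x * A.j (ρ a)⁻¹ := by
      rw [hx', map_inv₀]
      field_simp
    rw [e1]
    exact mul_mem hc.mem (Plc.val_j A.j _).mem
  have hgW : A.s ρ g ∈ pl.W := Plc.mem_of_pow_mem (n := N) (by omega) hgN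
  obtain ⟨c', hc'⟩ := Plc.val_of_mem hgW
  obtain ⟨z, hz⟩ := value_ext A E hpl h2 h3 hg hc'
  refine ⟨z, ?_⟩
  have h4 := (Plc.val_j (pl := pl) A.j (ρ a)).mul (hc'.pow N)
  rw [← hx'] at h4
  have h5 := hc.unique h4
  apply (algebraMap (w.adicCompletion E) (AlgebraicClosure (w.adicCompletion E))).injective
  rw [← hct, h5, map_mul, map_pow, h2, map_mul, map_pow, hz]

/-- **comparison of Kummer classes**: if the local values of `t` are equal to `y ∈ K`, then the
classes of `t - θ` and `y - θ` agree -/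
theorem same_class
    (pl : ∀ v : HeightOneSpectrum (𝓞 K), Plc K M (AlgebraicClosure (v.adicCompletion K)))
    (hpl : ∀ v, GeoPlc A (pl v)) {t : M} (ht : ∀ τ, A.s τ t = t)
    {y : K} (hx : ∀ v, (pl v).val t (algebraMap K (AlgebraicClosure (v.adicCompletion K)) y))
    {θ : AlgebraicClosure K} (hθy : algebraMap K (AlgebraicClosure K) y ≠ θ)
    (hrθ : ∀ N : ℕ, 1 ≤ N → ∃ y : M, y ^ N = t - A.j θ) {N : ℕ} (hN : 1 ≤ N) :
    ∃ G : M, (∀ τ, τ θ = θ → A.s τ G = G) ∧
      t - A.j θ = A.j (algebraMap K (AlgebraicClosure K) y - θ) * G ^ N := by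
  classical
  set E : IntermediateField K (AlgebraicClosure K) := IntermediateField.adjoin K {θ} with hE
  have hθE : θ ∈ E := IntermediateField.mem_adjoin_simple_self K θ
  have hθint : IsIntegral K θ := Algebra.IsIntegral.isIntegral θ
  have hE1 : FiniteDimensional K E := IntermediateField.adjoin.finiteDimensional hθint
  have hEc : CharZero E := charZero_of_injective_algebraMap (algebraMap K E).injective
  have hEt : IsScalarTower ℚ K E := IsScalarTower.of_algebraMap_eq (fun x => by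
      rw [eq_ratCast, eq_ratCast, map_ratCast])
  have hEf : FiniteDimensional ℚ E := FiniteDimensional.trans ℚ K E
  have hEn : NumberField E := ⟨⟩
  have hfix : ∀ τ : AlgebraicClosure K ≃ₐ[K] AlgebraicClosure K,
      τ ∈ E.fixingSubgroup ↔ τ θ = θ := by
    intro τ
    constructor
    · intro h
      exact (IntermediateField.mem_fixingSubgroup_iff _ _).1 h θ hθE
    · intro h
      have h1 : E ≤ IntermediateField.fixedField (Subgroup.zpowers τ) := by
        rw [hE, IntermediateField.adjoin_simple_le_iff, IntermediateField.mem_fixedField_iff]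
        intro σ hσ
        have h5 : Subgroup.zpowers τ ≤ MulAction.stabilizer _ θ := by
          rw [Subgroup.zpowers_le]
          exact h
        exact h5 hσ
      rw [IntermediateField.mem_fixingSubgroup_iff]
      intro z hz
      exact (IntermediateField.mem_fixedField_iff _ _).1 (h1 hz) τ (Subgroup.mem_zpowers τ)
  let θE : E := ⟨θ, hθE⟩
  obtain ⟨D, hD, hDN⟩ := local_global (E := E) hN
  have hND : 1 ≤ N * D := Nat.mul_pos hN hD
  obtain ⟨v0⟩ := exists_place K
  have hφv : ∀ v ρ, (pl v).val (A.s ρ (t - A.j θ))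
      (algebraMap K (AlgebraicClosure (v.adicCompletion K)) y - (pl v).iot A.j (ρ θ)) := by
    intro v ρ
    rw [map_sub, ht, A.hj]
    exact (hx v).sub (Plc.val_j A.j _)
  have hφ0 : t - A.j θ ≠ 0 := by
    intro h0
    have h1 := hφv v0 1
    rw [h0, map_zero] at h1
    have h2 := Plc.val_zero.unique h1
    have h3 : (pl v0).iot A.j (algebraMap K (AlgebraicClosure K) y - θ) = 0 := by
      rw [map_sub, ((pl v0).iot A.j).commutes]
      exact h2.symm
    rw [_root_.map_eq_zero, sub_eq_zero] at h3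
    exact hθy h3
  obtain ⟨a, ha0, g, hg, hag⟩ := kummer_ext A E hφ0 (fun τ hτ => by
      rw [map_sub, ht, A.hj, (hfix τ).1 hτ]) (by omega : 0 < N * D) (hrθ _ hND)
  have hyθ : algebraMap K E y - θE ≠ 0 := by
    intro h0
    apply hθy
    have := congrArg (fun z : E => (z : AlgebraicClosure K)) (sub_eq_zero.1 h0)
    exact this
  obtain ⟨r, hr⟩ := hDN ((algebraMap K E y - θE) / a) (div_ne_zero hyθ ha0) (by
    intro w
    obtain ⟨v, k, hk⟩ := exists_under (algebraMap K E) w
    obtain ⟨e, ρ, h1, h2, h3⟩ := exists_e_rho E v w k hk ((pl v).iot A.j)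
    obtain ⟨z, hz⟩ := kummer_local' A E (hpl v) ha0 hND hg hag h2 h3 (hφv v ρ)
      (t := algebraMap E (w.adicCompletion E) (algebraMap K E y - θE)) (by
        rw [map_sub, IsScalarTower.algebraMap_apply K (v.adicCompletion K)
          (AlgebraicClosure (v.adicCompletion K)), h1, hk]
        have h4 := h2 θE
        change e ((pl v).iot A.j (ρ θ)) = _ at h4
        rw [h4, map_sub, map_sub])
    refine ⟨z, ?_⟩
    rw [map_div₀, hz, mul_div_cancel_left₀ _ ((_root_.map_ne_zero _).2 ha0)])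
  have hr0 : r ≠ 0 := by
    rintro rfl
    rw [zero_pow (by omega)] at hr
    exact div_ne_zero hyθ ha0 hr
  have hrj : A.j (r : AlgebraicClosure K) ≠ 0 := by
    rw [_root_.map_ne_zero]
    exact fun h0 => hr0 (Subtype.ext h0)
  refine ⟨g ^ D / A.j (r : AlgebraicClosure K), fun τ hτ => ?_, ?_⟩
  · rw [map_div₀, map_pow, hg τ ((hfix τ).2 hτ), A.hj,
      (IntermediateField.mem_fixingSubgroup_iff _ _).1 ((hfix τ).2 hτ) _ r.2]
  · rw [div_eq_iff ha0] at hr
    have h1 := congrArg (fun z : E => A.j (z : AlgebraicClosure K)) hr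
    have h2 : A.j (algebraMap K (AlgebraicClosure K) y - θ) =
        A.j (r : AlgebraicClosure K) ^ N * A.j (a : AlgebraicClosure K) := by
      rw [← map_pow, ← map_mul]
      exact h1
    rw [h2, hag, div_pow, ← pow_mul, mul_comm D N]
    have h3 := pow_ne_zero N hrj
    field_simp

end Pool.Agent.V8H94.SC
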