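import Pool.Agent.V8H94.SC.LocGlob
import Pool.Agent.TH954.SEt2

/-!
# Adelic sections of fundamental groups of curves with many punctures
-/

set_option autoImplicit false
set_option linter.unusedSectionVars false

open IsDedekindDomain NumberField Pool.Agent.TH954 Pool.Agent.W620.SC Polynomial

namespace Pool.Agent.V8H94.SC

section roots

variable {K F Ω : Type} [Field K] [CharZero K] [Field F] [Field Ω] [Algebra K F] [Algebra F Ω]
  [Algebra K Ω] [IsScalarTower K F Ω] [IsAlgClosed Ω]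

/-- differences with roots of a polynomial with unit value are units -/
lemma sub_root_unit {W : ValuationSubring Ω} (hW : ∀ c : K, algebraMap K Ω c ∈ W) {f θ : Ω}
    (hf : f ∈ W) {p : K[X]} (hp0 : aeval f p ≠ 0) (hp : (aeval f p)⁻¹ ∈ W)
    (hθ : aeval θ p = 0) (hθW : θ ∈ W) : f - θ ≠ 0 ∧ (f - θ)⁻¹ ∈ W := by
  have h0 : f - θ ≠ 0 := by
    intro h0
    rw [sub_eq_zero] at h0
    rw [h0] at hp0
    exact hp0 hθ
  refine ⟨h0, ?_⟩
  let φ : K →+* W := (algebraMap K Ω).codRestrict W hW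
  have hφ : ∀ (z : W), (aeval (z : Ω) p) = ((eval z (p.map φ) : W) : Ω) := by
    intro z
    rw [eval_map]
    exact (hom_eval₂ p φ W.subtype z).symm
  have hdvd : (⟨f, hf⟩ : W) - ⟨θ, hθW⟩ ∣ eval ⟨f, hf⟩ (p.map φ) - eval ⟨θ, hθW⟩ (p.map φ) :=
    sub_dvd_eval_sub _ _ _
  obtain ⟨q, hq⟩ := hdvd
  have h1 : aeval f p - aeval θ p = (f - θ) * (q : Ω) := by
    have h2 := congrArg (fun z : W => (z : Ω)) hq
    have h3 := hφ ⟨f, hf⟩
    have h4 := hφ ⟨θ, hθW⟩
    simp only at h3 h4
    rw [h3, h4]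
    exact h2
  rw [hθ, sub_zero] at h1
  have h2 : (f - θ)⁻¹ = (q : Ω) * (aeval f p)⁻¹ := by
    have hq0 : (q : Ω) ≠ 0 := by
      intro h3
      rw [h3, mul_zero] at h1
      exact hp0 h1
    rw [h1]
    field_simp
  rw [h2]
  exact mul_mem q.2 hp

/-- roots of units are in the maximal unramified extension -/
lemma root_unramified {U : Set (ValuationSubring F)} (hU : ∀ O ∈ U, ∀ c : K, algebraMap K F c ∈ O)
    {x : Ω} (hx : ∀ W : ValuationSubring Ω, W.comap (algebraMap F Ω) ∈ U →
      x ∈ W ∧ x⁻¹ ∈ W ∧ ∀ σ ∈ inertia F Ω W, σ x = x) {N : ℕ} (hN : 1 ≤ N) :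
    ∃ w ∈ unramified F Ω U, w ^ N = x := by
  obtain ⟨w, hw⟩ := IsAlgClosed.exists_pow_nat_eq x (show 0 < N by omega)
  refine ⟨w, ?_, hw⟩
  by_cases hx0 : x = 0
  · rw [hx0] at hw
    rw [pow_eq_zero_iff (by omega)] at hw
    rw [hw]
    exact zero_mem _
  · rw [mem_unramified]
    intro W hWU σ hσ
    obtain ⟨h1, h2, h3⟩ := hx W hWU
    have hw0 : w ≠ 0 := by
      rintro rfl
      rw [zero_pow (by omega)] at hw
      exact hx0 hw.symm
    have hWc : ∀ c : K, algebraMap K Ω c ∈ W := by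
      intro c
      have := hU _ hWU c
      rw [ValuationSubring.mem_comap, ← IsScalarTower.algebraMap_apply] at this
      exact this
    refine inertia_root hWc hσ (by omega : 0 < N) (w := w) (t := 1) ?_ (map_one σ) one_ne_zero hw0
      ?_ ?_
    · rw [hw]
      exact h3 σ hσ
    · rw [hw, one_pow, div_one]
      exact h1
    · rw [hw, one_pow, one_div]
      exact h2

end roots

variable {K : Type} [Field K] [NumberField K] {F Ω M B : Type} [Field F] [Field Ω] [Field M]
  [Field B] [Algebra K F] [Algebra F Ω] [Algebra K Ω] [IsScalarTower K F Ω] [Algebra F M]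
  [Algebra K M] [IsScalarTower K F M] [Algebra K B] [IsAlgClosure F Ω] [IsAlgClosure K B]

lemma geoPlc_of_givenBy [Algebra.IsAlgebraic F M] (s : GalSection K F M B) {L : Type} [Field L] [Algebra K L]
    {p : Plc K M (AlgebraicClosure L)} (hp : s.GivenBy L p) : GeoPlc (toSAct s) p := by
  intro σ τ hστ x
  refine hp σ ((eqv K B).autCongr τ) ?_ x _ ⟨x.2, rfl⟩
  intro z c hc
  obtain ⟨y, rfl⟩ := (eqv K B).surjective z
  have e1 : p.val ((toSAct s).j y) (p.iot (toSAct s).j y) := Plc.val_j _ y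
  have e2 : p.val ((toSAct s).j (τ y)) (p.iot (toSAct s).j (τ y)) := Plc.val_j _ (τ y)
  have e3 : s.j ((eqv K B).autCongr τ (eqv K B y)) = (toSAct s).j (τ y) := by
    change s.j (eqv K B (τ ((eqv K B).symm (eqv K B y)))) = _
    rw [AlgEquiv.symm_apply_apply]
    rfl
  have e4 : p.iot (toSAct s).j y = c := e1.unique hc
  rw [e3, ← e4, ← hστ y]
  exact e2

/-- the main theorem for sections of quotients of the absolute Galois group of the function field
which dominate the fundamental group -/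
theorem et_main (U : Set (ValuationSubring F)) (hU : ∀ O ∈ U, ∀ c : K, algebraMap K F c ∈ O)
    (e : M →ₐ[F] Ω) (he : unramified F Ω U ≤ e.fieldRange)
    {f : F} {m : ℕ} (hm : Small K m) (g : Fin m → K[X])
    (hcop : ∀ i j, i ≠ j → IsCoprime (g i) (g j)) (hdeg : ∀ j, 0 < (g j).natDegree)
    (hf : ∀ O ∈ U, f ∈ O ∧ ∀ j, (aeval f (g j))⁻¹ ∈ O)
    (s : GalSection K F M B)
    (p : ∀ v : HeightOneSpectrum (𝓞 K), Plc K M (AlgebraicClosure (v.adicCompletion K)))
    (hp : ∀ v, s.GivenBy (v.adicCompletion K) (p v))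
    (x : ∀ v : HeightOneSpectrum (𝓞 K), v.adicCompletion K)
    (hx : ∀ v, (p v).val (algebraMap F M f)
      (algebraMap _ (AlgebraicClosure (v.adicCompletion K)) (x v)))
    (hnz : ∀ v j, aeval (x v) (g j) ≠ 0)
    (hfin : ∀ j, {v | Valued.v (aeval (x v) (g j)) ≠ 1}.Finite) :
    ∃! y : K, (∀ v, x v = algebraMap K (v.adicCompletion K) y) ∧
      ∀ (j : Fin m) (θ : B), aeval θ (g j) = 0 → ∀ N : ℕ, 1 ≤ N →
        ∃ G : M, (∀ σ : B ≃ₐ[K] B, σ θ = θ → s.s σ G = G) ∧
          algebraMap F M f - s.j θ = s.j (algebraMap K B y - θ) * G ^ N := by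
  have hΩ1 : IsAlgClosed Ω := IsAlgClosure.isAlgClosed F
  have hΩ2 : Algebra.IsAlgebraic F Ω := IsAlgClosure.isAlgebraic
  have hMalg : Algebra.IsAlgebraic F M := Algebra.IsAlgebraic.of_injective e e.injective
  have hcF : CharZero F := charZero_of_injective_algebraMap (algebraMap K F).injective
  set A := toSAct s with hA
  have hpl : ∀ v, GeoPlc A (p v) := fun v => geoPlc_of_givenBy s (hp v)
  set t : M := algebraMap F M f with ht
  have htfix : ∀ τ, A.s τ t = t := fun τ => (s.s ((eqv K B).autCongr τ)).commutes f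
  obtain ⟨v0⟩ := exists_place K
  have hgt : ∀ j, aeval t (g j) = algebraMap F M (aeval f (g j)) := by
    intro j
    rw [ht, aeval_algebraMap_apply]
  have hgt0 : ∀ j, aeval f (g j) ≠ 0 := by
    intro j h0
    have h1 := Plc.val_aeval (hx v0) (g j)
    have h2 : aeval (algebraMap F M f) (g j) = 0 := by rw [aeval_algebraMap_apply, h0, map_zero]
    rw [h2] at h1
    have h3 := Plc.val_zero.unique h1
    rw [aeval_algebraMap_apply] at h3
    exact (_root_.map_ne_zero _).2 (hnz v0 j) h3.symm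
  -- valuation rings of the algebraic closure
  have hWc : ∀ W : ValuationSubring Ω, W.comap (algebraMap F Ω) ∈ U →
      ∀ c : K, algebraMap K Ω c ∈ W := by
    intro W hWU c
    have := hU _ hWU c
    rw [ValuationSubring.mem_comap, ← IsScalarTower.algebraMap_apply] at this
    exact this
  have hroot1 : ∀ j, ∀ N : ℕ, 1 ≤ N → ∃ y : M, y ^ N = aeval t (g j) := by
    intro j N hN
    obtain ⟨w, hw, hwN⟩ := root_unramified (Ω := Ω) hU (x := algebraMap F Ω (aeval f (g j))) (by
      intro W hWU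
      obtain ⟨h1, h2⟩ := hf _ hWU
      refine ⟨?_, ?_, fun σ _ => σ.commutes _⟩
      · rw [← ValuationSubring.mem_comap, aeval_eq_sum_range]
        refine sum_mem (fun k _ => ?_)
        rw [Algebra.smul_def]
        exact mul_mem (hU _ hWU _) (pow_mem h1 k)
      · rw [← map_inv₀, ← ValuationSubring.mem_comap]
        exact h2 j) hN
    obtain ⟨w', rfl⟩ := he hw
    refine ⟨w', ?_⟩
    apply e.injective
    rw [hgt]
    have h1 : e (w' ^ N) = algebraMap F Ω (aeval f (g j)) := by
      rw [map_pow]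
      exact hwN
    exact h1.trans (e.commutes _).symm
  have hroot2 : ∀ (j : Fin m) (θ : AlgebraicClosure K), aeval θ (g j) = 0 → ∀ N : ℕ, 1 ≤ N →
      ∃ y : M, y ^ N = t - A.j θ := by
    intro j θ hθ N hN
    have hθK : IsIntegral K (e (A.j θ)) := by
      have h1 : IsIntegral K θ := Algebra.IsIntegral.isIntegral θ
      exact (h1.map A.j).map (e.restrictScalars K)
    have hθ' : aeval (e (A.j θ)) (g j) = 0 := by
      have h1 := aeval_algHom_apply ((e.restrictScalars K).comp A.j) θ (g j)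
      rw [hθ, map_zero] at h1
      exact h1
    obtain ⟨w, hw, hwN⟩ := root_unramified (Ω := Ω) hU
      (x := algebraMap F Ω f - e (A.j θ)) (by
      intro W hWU
      obtain ⟨h1, h2⟩ := hf _ hWU
      have hθW : e (A.j θ) ∈ W := const_mem (hWc W hWU) hθK
      have hfW : algebraMap F Ω f ∈ W := h1
      have h3 : aeval (algebraMap F Ω f) (g j) = algebraMap F Ω (aeval f (g j)) := by
        rw [aeval_algebraMap_apply]
      obtain ⟨-, h4⟩ := sub_root_unit (hWc W hWU) hfW (p := g j) (by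
        rw [h3]
        exact (_root_.map_ne_zero _).2 (hgt0 j)) (by
        rw [h3, ← map_inv₀, ← ValuationSubring.mem_comap]
        exact h2 j) hθ' hθW
      refine ⟨sub_mem hfW hθW, h4, fun σ hσ => ?_⟩
      rw [map_sub, σ.commutes, inertia_const (hWc W hWU) hσ hθK]) hN
    obtain ⟨w', rfl⟩ := he hw
    refine ⟨w', ?_⟩
    apply e.injective
    have h1 : e (w' ^ N) = algebraMap F Ω f - e (A.j θ) := by
      rw [map_pow]
      exact hwN
    have h2 : e (t - A.j θ) = algebraMap F Ω f - e (A.j θ) := by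
      rw [map_sub, ht, e.commutes]
    exact h1.trans h2.symm
  obtain ⟨L, _, _, Φ, hne, hΦm, hΦ⟩ := hm
  have hm0 : 0 < m := lt_of_lt_of_le (Finset.card_pos.2 hne) hΦm
  obtain ⟨θ0, hθ0⟩ := IsAlgClosed.exists_aeval_eq_zero (AlgebraicClosure K) (g ⟨0, hm0⟩) (by
    intro h0
    have h1 := hdeg ⟨0, hm0⟩
    rw [natDegree_pos_iff_degree_pos, h0] at h1
    exact lt_irrefl _ h1)
  obtain ⟨y, hy⟩ := core A p hpl htfix Φ hne hΦ hΦm g hcop hdeg hroot1 hθ0
    (hroot2 _ θ0 hθ0) x hx hnz hfin
  have hxy : ∀ v, (p v).val t (algebraMap K (AlgebraicClosure (v.adicCompletion K)) y) := by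
    intro v
    have h1 := hx v
    rw [hy v, ← IsScalarTower.algebraMap_apply] at h1
    exact h1
  refine ⟨y, ⟨hy, fun j θ hθ N hN => ?_⟩, ?_⟩
  · set θ' : AlgebraicClosure K := (eqv K B).symm θ with hθ'
    have hθ'g : aeval θ' (g j) = 0 := by
      have h1 := aeval_algHom_apply ((eqv K B).symm : B →ₐ[K] AlgebraicClosure K) θ (g j)
      rw [hθ, map_zero] at h1
      exact h1
    have hne' : algebraMap K (AlgebraicClosure K) y ≠ θ' := by
      intro h0
      rw [← h0, aeval_algebraMap_apply, _root_.map_eq_zero] at hθ'g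
      apply hnz v0 j
      rw [hy v0, aeval_algebraMap_apply, hθ'g, map_zero]
    obtain ⟨G, hG1, hG2⟩ := same_class A p hpl htfix hxy hne' (hroot2 j θ' hθ'g) hN
    refine ⟨G, fun σ hσ => ?_, ?_⟩
    · rw [← toSAct_s]
      apply hG1
      change (eqv K B).symm (σ ((eqv K B) ((eqv K B).symm θ))) = (eqv K B).symm θ
      rw [AlgEquiv.apply_symm_apply, hσ]
    · have h1 : A.j θ' = s.j θ := by
        change s.j ((eqv K B) ((eqv K B).symm θ)) = s.j θ
        rw [AlgEquiv.apply_symm_apply]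
      have h2 : A.j (algebraMap K (AlgebraicClosure K) y - θ') = s.j (algebraMap K B y - θ) := by
        rw [map_sub, map_sub, h1, A.j.commutes, s.j.commutes]
      rw [← h1, ← h2]
      exact hG2
  · rintro y' ⟨hy', -⟩
    have h1 := hy v0
    rw [hy' v0] at h1
    exact (algebraMap K (v0.adicCompletion K)).injective h1

end Pool.Agent.V8H94.SC
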