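import Pool.Agent.V8H94.SC.Zed
import Pool.Agent.TH954.SBir2

/-!
# Values of elements fixed by a section
-/

set_option autoImplicit false
set_option linter.unusedSectionVars false

open IsDedekindDomain NumberField Pool.Agent.TH954 Polynomial

namespace Pool.Agent.V8H94.SC

section kummer

variable {K : Type} [Field K] [CharZero K] {M : Type} [Field M] [Algebra K M] (A : SAct K M)

/-- Kummer theory over a finite extension of the base field -/
theorem kummer_ext (E : IntermediateField K (AlgebraicClosure K)) {x : M} (hx0 : x ≠ 0)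
    (hx : ∀ τ ∈ E.fixingSubgroup, A.s τ x = x) {n : ℕ} (hn : 0 < n) (hr : ∃ w : M, w ^ n = x) :
    ∃ c : E, c ≠ 0 ∧ ∃ g : M, (∀ τ ∈ E.fixingSubgroup, A.s τ g = g) ∧
      x = A.j (c : AlgebraicClosure K) * g ^ n := by
  classical
  have : IsGalois K (AlgebraicClosure K) := ⟨⟩
  obtain ⟨w, hw⟩ := hr
  have hw0 : w ≠ 0 := by
    rintro rfl
    rw [zero_pow hn.ne'] at hw
    exact hx0 hw.symm
  obtain ⟨F, hF, hFw⟩ := A.cont w
  obtain ⟨β, hβ0, hβ⟩ := Pool.Agent.W620.SC.exists_fixed_multiple A.ra
    (A.j : AlgebraicClosure K →+* M) (fun σ a => A.hj σ a) E.fixingSubgroup w hw0 (by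
      intro σ hσ
      have h1 : (A.s σ w / w) ^ n = 1 := by
        rw [div_pow, ← map_pow, hw, hx σ hσ, div_self hx0]
      obtain ⟨ζ, hζ⟩ := Pool.Agent.W620.SC.root_mem (A.j : AlgebraicClosure K →+* M) hn
        (h := A.s σ w / w) (b := 1) (by rw [h1, map_one])
      refine ⟨ζ, ?_⟩
      rw [hζ]
      change A.s σ w = A.s σ w / w * w
      rw [div_mul_cancel₀ _ hw0]) F (by
      intro σ hσ
      exact hFw σ (fun z hz => (IntermediateField.mem_fixingSubgroup_iff _ _).1 hσ z hz))
  have hβ' : ∀ τ ∈ E.fixingSubgroup, A.s τ (A.j β * w) = A.j β * w := hβ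
  have hβn : β ^ n ∈ E := by
    apply Pool.Agent.W620.SC.mem_of_fixed
    intro σ hσ
    apply A.j.injective
    change A.j (σ (β ^ n)) = A.j (β ^ n)
    rw [← A.hj]
    have e : A.j (β ^ n) = (A.j β * w) ^ n / x := by
      rw [mul_pow, hw, map_pow, mul_div_assoc, div_self hx0, mul_one]
    rw [e, map_div₀, map_pow, hβ' σ hσ, hx σ hσ]
  have hβn0 : (⟨β ^ n, hβn⟩ : E) ≠ 0 := by
    intro h0
    exact pow_ne_zero n hβ0 (congrArg Subtype.val h0)
  refine ⟨(⟨β ^ n, hβn⟩ : E)⁻¹, inv_ne_zero hβn0, _, hβ', ?_⟩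
  have e : (((⟨β ^ n, hβn⟩ : E)⁻¹ : E) : AlgebraicClosure K) = (β ^ n)⁻¹ := rfl
  rw [e, map_inv₀, map_pow, mul_pow, hw, inv_mul_cancel_left₀]
  exact pow_ne_zero _ ((_root_.map_ne_zero A.j).2 hβ0)

end kummer

section base

variable {K : Type} [Field K] [NumberField K]

/-- change of the base field -/
theorem exists_e_rho (E : IntermediateField K (AlgebraicClosure K)) [NumberField E]
    (v : HeightOneSpectrum (𝓞 K)) (w : HeightOneSpectrum (𝓞 E))
    (k : v.adicCompletion K →+* w.adicCompletion E)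
    (hk : ∀ x : K, k (algebraMap K _ x) = algebraMap E (w.adicCompletion E) (algebraMap K E x))
    (ι : AlgebraicClosure K →ₐ[K] AlgebraicClosure (v.adicCompletion K)) :
    ∃ (e : AlgebraicClosure (v.adicCompletion K) →+* AlgebraicClosure (w.adicCompletion E))
      (ρ : AlgebraicClosure K ≃ₐ[K] AlgebraicClosure K),
      (∀ y : v.adicCompletion K, e (algebraMap _ _ y) = algebraMap _ _ (k y)) ∧
      (∀ a : E, e (ι (ρ a)) = algebraMap (w.adicCompletion E) _
        (algebraMap E (w.adicCompletion E) a)) ∧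
      ∀ σ' : AlgebraicClosure (w.adicCompletion E) ≃ₐ[w.adicCompletion E]
        AlgebraicClosure (w.adicCompletion E),
        ∃ σ : AlgebraicClosure (v.adicCompletion K) ≃ₐ[v.adicCompletion K]
          AlgebraicClosure (v.adicCompletion K), ∀ c, e (σ c) = σ' (e c) := by
  let _ : Algebra (v.adicCompletion K) (AlgebraicClosure (w.adicCompletion E)) :=
    ((algebraMap (w.adicCompletion E) (AlgebraicClosure (w.adicCompletion E))).comp k).toAlgebra
  let e0 : AlgebraicClosure (v.adicCompletion K) →ₐ[v.adicCompletion K]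
    AlgebraicClosure (w.adicCompletion E) := IsAlgClosed.lift
  let f : AlgebraicClosure K →+* AlgebraicClosure (w.adicCompletion E) :=
    (e0 : AlgebraicClosure (v.adicCompletion K) →+* AlgebraicClosure (w.adicCompletion E)).comp
      (ι : AlgebraicClosure K →+* AlgebraicClosure (v.adicCompletion K))
  let nat : E →+* AlgebraicClosure (w.adicCompletion E) :=
    (algebraMap (w.adicCompletion E) _).comp (algebraMap E (w.adicCompletion E))
  have hfK : ∀ x : K, f (algebraMap K _ x) = nat (algebraMap K E x) := by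
    intro x
    change e0 (ι (algebraMap K _ x)) = _
    rw [ι.commutes, IsScalarTower.algebraMap_apply K (v.adicCompletion K), e0.commutes]
    change algebraMap (w.adicCompletion E) _ (k (algebraMap K _ x)) = _
    rw [hk]
    rfl
  have hrange : ∀ a : E, ∃ b : AlgebraicClosure K, f b = nat a := by
    intro a
    have hs : ((minpoly K a).map (algebraMap K (AlgebraicClosure K))).Splits :=
      IsAlgClosed.splits _
    have hint : IsIntegral K a := by
      have h1 : IsIntegral K (a : AlgebraicClosure K) := Algebra.IsIntegral.isIntegral _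
      exact (isIntegral_algHom_iff E.val E.val.injective).1 h1
    have h0 : (minpoly K a).map (algebraMap K (AlgebraicClosure K)) ≠ 0 :=
      (Polynomial.map_ne_zero_iff (algebraMap K (AlgebraicClosure K)).injective).2
        (minpoly.ne_zero hint)
    refine hs.mem_range_of_isRoot (i := f) (x := nat a) h0 ?_
    rw [IsRoot.def, eval_map, eval₂_map]
    have e1 : f.comp (algebraMap K (AlgebraicClosure K)) = nat.comp (algebraMap K E) :=
      RingHom.ext hfK
    rw [e1, ← hom_eval₂]
    have e2 : eval₂ (algebraMap K E) a (minpoly K a) = 0 := minpoly.aeval K a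
    rw [e2, map_zero]
  choose κ hκ using hrange
  let κ' : E →ₐ[K] AlgebraicClosure K :=
    { toFun := κ
      map_one' := f.injective (by rw [hκ]; simp)
      map_mul' := fun x y => f.injective (by rw [hκ]; simp [hκ])
      map_zero' := f.injective (by rw [hκ]; simp)
      map_add' := fun x y => f.injective (by rw [hκ]; simp [hκ])
      commutes' := fun r => f.injective (by rw [hκ, hfK]) }
  obtain ⟨ρ, hρ⟩ := Pool.Agent.W620.SC.exists_lift E κ'
  refine ⟨e0, ρ, fun y => e0.commutes y, fun a => ?_, fun σ' => ?_⟩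
  · rw [hρ]
    exact hκ a
  · let _ : Algebra (AlgebraicClosure (v.adicCompletion K))
      (AlgebraicClosure (w.adicCompletion E)) := (e0 : AlgebraicClosure (v.adicCompletion K) →+*
        AlgebraicClosure (w.adicCompletion E)).toAlgebra
    have : IsScalarTower (v.adicCompletion K) (AlgebraicClosure (v.adicCompletion K))
        (AlgebraicClosure (w.adicCompletion E)) :=
      IsScalarTower.of_algebraMap_eq (fun y => (e0.commutes y).symm)
    let σ'' : AlgebraicClosure (w.adicCompletion E) ≃ₐ[v.adicCompletion K]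
        AlgebraicClosure (w.adicCompletion E) :=
      AlgEquiv.ofRingEquiv (f := σ'.toRingEquiv) (fun y => σ'.commutes (k y))
    refine ⟨σ''.restrictNormal (AlgebraicClosure (v.adicCompletion K)), fun c => ?_⟩
    exact σ''.restrictNormal_commutes (AlgebraicClosure (v.adicCompletion K)) c

variable {M : Type} [Field M] [Algebra K M] (A : SAct K M)

/-- values of elements fixed by the section of a finite extension are in its completion -/
theorem value_ext (E : IntermediateField K (AlgebraicClosure K)) [NumberField E]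
    {v : HeightOneSpectrum (𝓞 K)} {w : HeightOneSpectrum (𝓞 E)}
    {pl : Plc K M (AlgebraicClosure (v.adicCompletion K))} (hpl : GeoPlc A pl)
    {e : AlgebraicClosure (v.adicCompletion K) →+* AlgebraicClosure (w.adicCompletion E)}
    {ρ : AlgebraicClosure K ≃ₐ[K] AlgebraicClosure K}
    (h2 : ∀ a : E, e (pl.iot A.j (ρ a)) = algebraMap (w.adicCompletion E) _
        (algebraMap E (w.adicCompletion E) a))
    (h3 : ∀ σ' : AlgebraicClosure (w.adicCompletion E) ≃ₐ[w.adicCompletion E]
        AlgebraicClosure (w.adicCompletion E),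
        ∃ σ : AlgebraicClosure (v.adicCompletion K) ≃ₐ[v.adicCompletion K]
          AlgebraicClosure (v.adicCompletion K), ∀ c, e (σ c) = σ' (e c))
    {x : M} (hx : ∀ τ ∈ E.fixingSubgroup, A.s τ x = x)
    {c : AlgebraicClosure (v.adicCompletion K)} (hc : pl.val (A.s ρ x) c) :
    ∃ t : w.adicCompletion E, algebraMap _ (AlgebraicClosure (w.adicCompletion E)) t = e c := by
  have : CharZero (w.adicCompletion E) :=
    charZero_of_injective_algebraMap (algebraMap E (w.adicCompletion E)).injective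
  apply base_of_fixed
  intro σ'
  obtain ⟨σ, hσ⟩ := h3 σ'
  obtain ⟨τ, hτ⟩ := exists_compat (pl.iot A.j) σ
  have hτ' : ∀ z, σ (pl.iot A.j z) = pl.iot A.j (τ z) := fun z => (hτ z).symm
  obtain ⟨hm, hv⟩ := hc
  obtain ⟨h4, h5⟩ := hpl σ τ hτ ⟨_, hm⟩
  have h6 : pl.val (A.s τ (A.s ρ x)) (σ c) := ⟨h4, by rw [h5, hv]⟩
  have h7 : A.s τ (A.s ρ x) = A.s ρ x := by
    have h8 : ρ⁻¹ * τ * ρ ∈ E.fixingSubgroup := by
      rw [IntermediateField.mem_fixingSubgroup_iff]
      intro a ha
      change ρ.symm (τ (ρ a)) = a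
      rw [AlgEquiv.symm_apply_eq]
      have h9 : e (pl.iot A.j (τ (ρ a))) = e (pl.iot A.j (ρ a)) := by
        rw [← hτ', hσ, h2 ⟨a, ha⟩, σ'.commutes]
      exact (pl.iot A.j).injective (e.injective h9)
    have h9 := hx _ h8
    have h10 : A.s τ (A.s ρ x) = A.s ρ (A.s (ρ⁻¹ * τ * ρ) x) := by
      change (A.s τ * A.s ρ) x = (A.s ρ * A.s (ρ⁻¹ * τ * ρ)) x
      rw [← map_mul, ← map_mul]
      congr 2
      group
    rw [h10, h9]
  rw [h7] at h6
  have h8 : σ c = c := h6.unique ⟨hm, hv⟩
  rw [← hσ, h8]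

/-- the Kummer data of an element fixed by the section of a finite extension -/
theorem kummer_local (E : IntermediateField K (AlgebraicClosure K)) [NumberField E]
    (pl : ∀ v : HeightOneSpectrum (𝓞 K), Plc K M (AlgebraicClosure (v.adicCompletion K)))
    (hpl : ∀ v, GeoPlc A (pl v)) {x : M} (hx0 : x ≠ 0)
    (hx : ∀ τ ∈ E.fixingSubgroup, A.s τ x = x) {N : ℕ} (hN : 1 ≤ N) (hr : ∃ y : M, y ^ N = x) :
    ∃ a : E, ∀ (v : HeightOneSpectrum (𝓞 K)) (w : HeightOneSpectrum (𝓞 E))
      (e : AlgebraicClosure (v.adicCompletion K) →+* AlgebraicClosure (w.adicCompletion E))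
      (ρ : AlgebraicClosure K ≃ₐ[K] AlgebraicClosure K) (t : w.adicCompletion E)
      (c : AlgebraicClosure (v.adicCompletion K)),
      (∀ a : E, e ((pl v).iot A.j (ρ a)) = algebraMap (w.adicCompletion E) _
        (algebraMap E (w.adicCompletion E) a)) →
      (∀ σ' : AlgebraicClosure (w.adicCompletion E) ≃ₐ[w.adicCompletion E]
        AlgebraicClosure (w.adicCompletion E),
        ∃ σ : AlgebraicClosure (v.adicCompletion K) ≃ₐ[v.adicCompletion K]
          AlgebraicClosure (v.adicCompletion K), ∀ c, e (σ c) = σ' (e c)) →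
      (pl v).val (A.s ρ x) c → e c = algebraMap _ _ t →
      ∃ z, t = algebraMap E (w.adicCompletion E) a * z ^ N := by
  obtain ⟨a, ha0, g, hg, hxg⟩ := kummer_ext A E hx0 hx (by omega) hr
  refine ⟨a, fun v w e ρ t c h2 h3 hc hct => ?_⟩
  have hx' : A.s ρ x = A.j (ρ a) * (A.s ρ g) ^ N := by
    rw [hxg, map_mul, map_pow, A.hj]
  have hρa0 : A.j (ρ a) ≠ 0 := by
    rw [_root_.map_ne_zero, _root_.map_ne_zero]
    intro h0
    exact ha0 (Subtype.ext h0)
  have hgN : (A.s ρ g) ^ N ∈ (pl v).W := by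
    have e1 : (A.s ρ g) ^ N = A.s ρ x * A.j (ρ a)⁻¹ := by
      rw [hx', map_inv₀]
      field_simp
    rw [e1]
    exact mul_mem hc.mem (Plc.val_j A.j _).mem
  have hgW : A.s ρ g ∈ (pl v).W := Plc.mem_of_pow_mem (n := N) (by omega) hgN
  obtain ⟨c', hc'⟩ := Plc.val_of_mem hgW
  obtain ⟨z, hz⟩ := value_ext A E (hpl v) h2 h3 hg hc'
  refine ⟨z, ?_⟩
  have h4 := (Plc.val_j (pl := pl v) A.j (ρ a)).mul (hc'.pow N)
  rw [← hx'] at h4
  have h5 := hc.unique h4
  apply (algebraMap (w.adicCompletion E) (AlgebraicClosure (w.adicCompletion E))).injective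
  rw [← hct, h5, map_mul, map_pow, h2, map_mul, map_pow, hz]

end base

end Pool.Agent.V8H94.SC
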