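import Pool.Agent.V8H94.SC.Core

/-!
# Products of conjugates of units
-/

set_option autoImplicit false
set_option linter.unusedSectionVars false

open IsDedekindDomain NumberField Polynomial

namespace Pool.Agent.V8H94.SC

/-- there are at most `m` embeddings, the product of the images of the units under which takes
finitely many values -/
def Small (K : Type) [Field K] (m : ℕ) : Prop :=
  ∃ (L : Type) (_ : Field L) (_ : NumberField L) (Φ : Finset (K →+* L)), Φ.Nonempty ∧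
    Φ.card ≤ m ∧ (Set.range fun u : (𝓞 K)ˣ => ∏ τ ∈ Φ, τ ((u : 𝓞 K) : K)).Finite

variable {K : Type} [Field K] [NumberField K]

lemma prod_norm_unit (u : (𝓞 K)ˣ) : ∏ φ : K →+* ℂ, ‖φ ((u : 𝓞 K) : K)‖ = 1 := by
  have h1 : ∏ φ : K →+* ℂ, φ ((u : 𝓞 K) : K) =
      algebraMap ℚ ℂ (Algebra.norm ℚ ((u : 𝓞 K) : K)) := by
    rw [Algebra.norm_eq_prod_embeddings ℚ ℂ]
    exact Fintype.prod_equiv (RingHom.equivRatAlgHom K ℂ) _ _
      (fun φ => by simp [RingHom.equivRatAlgHom_apply])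
  rw [← norm_prod, h1]
  have h2 := NumberField.isUnit_iff_norm.1 u.isUnit
  rw [RingOfIntegers.coe_norm] at h2
  have h3 : ‖algebraMap ℚ ℂ (Algebra.norm ℚ ((u : 𝓞 K) : K))‖ =
      ((|Algebra.norm ℚ ((u : 𝓞 K) : K)| : ℚ) : ℝ) := by
    rw [eq_ratCast, Complex.norm_ratCast, Rat.cast_abs]
  rw [h3, h2, Rat.cast_one]

variable {L : Type} [Field L] [NumberField L] [IsGalois ℚ L]

lemma comp_bijective (i : K →+* L) (ψ : L →+* ℂ) :
    Function.Bijective (fun τ : K →+* L => ψ.comp τ) := by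
  constructor
  · intro τ τ' h
    apply RingHom.ext
    intro x
    exact ψ.injective (RingHom.congr_fun h x)
  · intro φ
    have hex : ∀ x : K, ∃ y : L, ψ y = φ x := by
      intro x
      have hs : ((minpoly ℚ (i x)).map (algebraMap ℚ L)).Splits := Normal.splits inferInstance _
      have hint : IsIntegral ℚ (i x) := Algebra.IsIntegral.isIntegral _
      have h0 : (minpoly ℚ (i x)).map (algebraMap ℚ L) ≠ 0 :=
        (Polynomial.map_ne_zero_iff (algebraMap ℚ L).injective).2 (minpoly.ne_zero hint)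
      refine hs.mem_range_of_isRoot (i := ψ) (x := φ x) h0 ?_
      have hmin : minpoly ℚ (i x) = minpoly ℚ x := by
        have := minpoly.algHom_eq (RingHom.equivRatAlgHom K L i) i.injective x
        exact this
      rw [IsRoot.def, eval_map, eval₂_map, hmin]
      have e1 : ψ.comp (algebraMap ℚ L) = φ.comp (algebraMap ℚ K) := Subsingleton.elim _ _
      rw [e1, ← hom_eval₂]
      have e2 : eval₂ (algebraMap ℚ K) x (minpoly ℚ x) = 0 := minpoly.aeval ℚ x
      rw [e2, map_zero]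
    choose τ hτ using hex
    refine ⟨{ toFun := τ
              map_one' := ψ.injective (by rw [hτ]; simp)
              map_mul' := fun x y => ψ.injective (by rw [hτ]; simp [hτ])
              map_zero' := ψ.injective (by rw [hτ]; simp)
              map_add' := fun x y => ψ.injective (by rw [hτ]; simp [hτ]) }, ?_⟩
    apply RingHom.ext
    exact hτ

lemma finite_prod (Φ : Finset (K →+* L))
    (h : ∀ (ψ : L →+* ℂ) (u : (𝓞 K)ˣ), ∏ τ ∈ Φ, ‖ψ (τ ((u : 𝓞 K) : K))‖ = 1) :
    (Set.range fun u : (𝓞 K)ˣ => ∏ τ ∈ Φ, τ ((u : 𝓞 K) : K)).Finite := by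
  refine (Embeddings.finite_of_norm_le L ℂ 1).subset ?_
  rintro _ ⟨u, rfl⟩
  refine ⟨?_, fun ψ => ?_⟩
  · exact IsIntegral.prod _ (fun τ _ => map_isIntegral_int τ (u : 𝓞 K).2)
  · rw [map_prod, norm_prod, h]

theorem small_of_finrank {m : ℕ} (hm : Module.finrank ℚ K ≤ m) : Small K m := by
  classical
  obtain ⟨L, _, _, _, i, -, -, -, -, -⟩ := Pool.Agent.TH120.Sec.exists_L K ∅ Set.finite_empty 1
  obtain ⟨ψ0⟩ : Nonempty (L →+* ℂ) := inferInstance
  have : Fintype (K →+* L) := Fintype.ofInjective _ (comp_bijective i ψ0).1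
  refine ⟨L, inferInstance, inferInstance, Finset.univ, ⟨i, Finset.mem_univ _⟩, ?_, ?_⟩
  · rw [Finset.card_univ, Fintype.card_of_bijective (comp_bijective i ψ0),
      NumberField.Embeddings.card K ℂ]
    exact hm
  · apply finite_prod
    intro ψ u
    rw [← prod_norm_unit u]
    exact Fintype.prod_bijective _ (comp_bijective i ψ) _ _ (fun τ => rfl)

theorem small_of_cm {δ : K} (hδ0 : δ ≠ 0) (hδ : ∀ φ : K →+* ℂ, (φ δ).re = 0) {m : ℕ}
    (hm : Module.finrank ℚ K ≤ 2 * m) : Small K m := by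
  classical
  obtain ⟨L, _, _, _, i, -, -, -, -, -⟩ := Pool.Agent.TH120.Sec.exists_L K ∅ Set.finite_empty 1
  obtain ⟨ψ0⟩ : Nonempty (L →+* ℂ) := inferInstance
  have : Fintype (K →+* L) := Fintype.ofInjective _ (comp_bijective i ψ0).1
  set Φ : Finset (K →+* L) := Finset.univ.filter (fun τ => 0 < (ψ0 (τ δ)).im) with hΦ
  have hmem : ∀ τ, τ ∈ Φ ↔ 0 < (ψ0 (τ δ)).im := by
    intro τ
    rw [hΦ, Finset.mem_filter]
    exact ⟨fun h => h.2, fun h => ⟨Finset.mem_univ _, h⟩⟩
  have hne : ∀ τ : K →+* L, (ψ0 (τ δ)).im ≠ 0 := by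
    intro τ h0
    have h1 : ψ0 (τ δ) = 0 := Complex.ext (hδ (ψ0.comp τ)) h0
    rw [_root_.map_eq_zero, _root_.map_eq_zero] at h1
    exact hδ0 h1
  -- the conjugation with respect to an embedding
  have hconj : ∀ ψ : L →+* ℂ, ∃ c : (K →+* L) → (K →+* L), Function.Bijective c ∧
      (∀ τ x, ψ (c τ x) = (starRingEnd ℂ) (ψ (τ x))) ∧ ∀ τ, c τ ∈ Φ ↔ τ ∉ Φ := by
    intro ψ
    have hex : ∀ τ : K →+* L, ∃ τ' : K →+* L,
        ψ.comp τ' = (starRingEnd ℂ : ℂ →+* ℂ).comp (ψ.comp τ) := fun τ =>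
      (comp_bijective i ψ).2 _
    choose c hc using hex
    have hc' : ∀ τ x, ψ (c τ x) = (starRingEnd ℂ) (ψ (τ x)) := fun τ x =>
      RingHom.congr_fun (hc τ) x
    have hcc : ∀ τ, c (c τ) = τ := by
      intro τ
      apply RingHom.ext
      intro x
      apply ψ.injective
      rw [hc', hc', Complex.conj_conj]
    refine ⟨c, (show Function.Involutive c from hcc).bijective, hc', fun τ => ?_⟩
    have h1 : c τ δ = -τ δ := by
      apply ψ.injective
      rw [hc', map_neg]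
      apply Complex.ext
      · have h2 : (ψ (τ δ)).re = 0 := hδ (ψ.comp τ)
        rw [Complex.conj_re, Complex.neg_re, h2, neg_zero]
      · rw [Complex.conj_im, Complex.neg_im]
    rw [hmem, hmem, h1, map_neg, Complex.neg_im, not_lt]
    constructor
    · intro h
      linarith
    · intro h
      have := lt_of_le_of_ne h (hne τ)
      linarith
  have hcard : 2 * Φ.card = Module.finrank ℚ K := by
    obtain ⟨c, hc1, hc2, hc3⟩ := hconj ψ0
    have h1 : Φ.card = (Finset.univ \ Φ).card := by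
      have h2 : (Finset.univ \ Φ) = Φ.image c := by
        ext τ
        rw [Finset.mem_sdiff, Finset.mem_image]
        constructor
        · rintro ⟨-, h⟩
          obtain ⟨σ, rfl⟩ := hc1.2 τ
          refine ⟨σ, ?_, rfl⟩
          by_contra h'
          exact h ((hc3 σ).2 h')
        · rintro ⟨σ, h, rfl⟩
          exact ⟨Finset.mem_univ _, fun h' => (hc3 σ).1 h' h⟩
      rw [h2, Finset.card_image_of_injective _ hc1.1]
    have h2 := Finset.card_sdiff_add_card_eq_card (Finset.subset_univ Φ)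
    rw [← h1, Finset.card_univ, Fintype.card_of_bijective (comp_bijective i ψ0),
      NumberField.Embeddings.card K ℂ] at h2
    omega
  have hpos : 0 < Module.finrank ℚ K := Module.finrank_pos
  refine ⟨L, inferInstance, inferInstance, Φ, Finset.card_pos.1 (by omega), by omega, ?_⟩
  apply finite_prod
  intro ψ u
  obtain ⟨c, hc1, hc2, hc3⟩ := hconj ψ
  have h1 : ∏ τ ∈ Finset.univ \ Φ, ‖ψ (τ ((u : 𝓞 K) : K))‖ =
      ∏ τ ∈ Φ, ‖ψ (τ ((u : 𝓞 K) : K))‖ := by
    symm
    refine Finset.prod_bij (fun τ _ => c τ) ?_ ?_ ?_ ?_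
    · intro τ hτ
      exact Finset.mem_sdiff.2 ⟨Finset.mem_univ _, fun h' => (hc3 τ).1 h' hτ⟩
    · intro τ _ τ' _ h
      exact hc1.1 h
    · intro τ hτ
      obtain ⟨σ, rfl⟩ := hc1.2 τ
      refine ⟨σ, ?_, rfl⟩
      by_contra h'
      exact (Finset.mem_sdiff.1 hτ).2 ((hc3 σ).2 h')
    · intro τ _
      rw [hc2, Complex.norm_conj]
  have h2 : (∏ τ ∈ Finset.univ \ Φ, ‖ψ (τ ((u : 𝓞 K) : K))‖) *
      ∏ τ ∈ Φ, ‖ψ (τ ((u : 𝓞 K) : K))‖ = 1 := by
    rw [Finset.prod_sdiff (Finset.subset_univ Φ), ← prod_norm_unit u]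
    exact Fintype.prod_bijective _ (comp_bijective i ψ) _ _ (fun τ => rfl)
  rw [h1] at h2
  have h3 : 0 ≤ ∏ τ ∈ Φ, ‖ψ (τ ((u : 𝓞 K) : K))‖ := Finset.prod_nonneg (fun _ _ => norm_nonneg _)
  nlinarith

end Pool.Agent.V8H94.SC
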