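import Pool.Agent.V8H94.SC.Desc
import Pool.Agent.V8H94.SC.Consts

/-!
# Adelic elements which are everywhere locally in the closure of a cyclic set of classes and are
algebraic are rational
-/

set_option autoImplicit false
set_option linter.unusedSectionVars false

open IsDedekindDomain NumberField Pool.Agent.TH954 Polynomial

namespace Pool.Agent.V8H94.SC

variable {K : Type} [Field K] [NumberField K]

lemma exists_place (K : Type) [Field K] [NumberField K] : Nonempty (HeightOneSpectrum (𝓞 K)) := by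
  obtain ⟨P, hP0, hP⟩ := Ring.not_isField_iff_exists_prime.1 (RingOfIntegers.not_isField K)
  exact ⟨⟨P, hP, hP0⟩⟩

/-- for every `N`, the Kummer class is that of an algebraic number up to a bounded exponent -/
theorem zed_step {L : Type} [Field L] [NumberField L] [IsGalois ℚ L] (i : K →+* L)
    (κ : L →+* AlgebraicClosure K) (hκi : ∀ x, κ (i x) = algebraMap K (AlgebraicClosure K) x)
    (T : Finset (AlgebraicClosure K))
    (hT : ∀ σ : AlgebraicClosure K ≃ₐ[K] AlgebraicClosure K, ∀ θ ∈ T, σ θ ∈ T)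
    (hT0 : ∀ θ ∈ T, θ ≠ 0) (s : AlgebraicClosure K → L) (hs : ∀ θ ∈ T, κ (s θ) = θ)
    {N : ℕ} (hN : 1 ≤ N) {c : K} (hc : c ≠ 0)
    (z : ∀ v : HeightOneSpectrum (𝓞 K), v.adicCompletion K)
    (hz : ∀ v : HeightOneSpectrum (𝓞 K),
      ∀ (ι : AlgebraicClosure K →ₐ[K] AlgebraicClosure (v.adicCompletion K)), ∃ θ ∈ T,
      ι θ = algebraMap (v.adicCompletion K) (AlgebraicClosure (v.adicCompletion K))
          (algebraMap K (v.adicCompletion K) c * z v ^ N)) :
    ∃ θ ∈ T, ∃ y : L, y ^ N = (s θ / i c) ^ (T.card.factorial *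
      ((2 ^ Nat.card (L ≃ₐ[ℚ] L) - 1) * (3 ^ Nat.card (L ≃ₐ[ℚ] L) - 1))) := by
  obtain ⟨θ, hθ, h⟩ := cover_step T hT hT0 hN hc z hz
  refine ⟨θ, hθ, ?_⟩
  obtain ⟨b, hb⟩ : ∃ b : AlgebraicClosure K,
      b ^ N = θ / algebraMap K (AlgebraicClosure K) c := IsAlgClosed.exists_pow_nat_eq _ (by omega)
  have hb0 : b ≠ 0 := by
    rintro rfl
    rw [zero_pow (by omega)] at hb
    exact div_ne_zero (hT0 θ hθ) ((_root_.map_ne_zero _).2 hc) hb.symm
  obtain ⟨y, hy⟩ := descend_step i κ hκi hN (B := b ^ T.card.factorial) (pow_ne_zero _ hb0)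
    (a := (s θ / i c) ^ T.card.factorial) (by
      rw [← pow_mul, mul_comm, pow_mul, hb, map_pow, map_div₀, hs θ hθ, hκi]) (by
      intro σ hσ1 hσ2
      refine h b hb σ (fun θ' hθ' => ?_) hσ2
      rw [← hs θ' hθ', hσ1])
  exact ⟨y, by rw [hy, ← pow_mul]⟩

/-- **Theorem Z.** Local elements whose Kummer classes are global and which satisfy a common
polynomial equation come from one element of `K`. -/
theorem zed (t : ∀ v : HeightOneSpectrum (𝓞 K), v.adicCompletion K) (ht0 : ∀ v, t v ≠ 0)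
    (hk : ∀ N : ℕ, 1 ≤ N → ∃ c : K, ∀ v, ∃ z, t v = algebraMap K (v.adicCompletion K) c * z ^ N)
    {q : K[X]} (hq0 : q ≠ 0) (hq : ∀ v, aeval (t v) q = 0) :
    ∃ u : K, ∀ v, t v = algebraMap K (v.adicCompletion K) u := by
  classical
  set T : Finset (AlgebraicClosure K) := (q.aroots (AlgebraicClosure K)).toFinset.erase 0 with hTdef
  have hmem : ∀ θ, θ ∈ T ↔ θ ≠ 0 ∧ aeval θ q = 0 := by
    intro θ
    rw [hTdef, Finset.mem_erase, Multiset.mem_toFinset, mem_aroots]
    exact ⟨fun h => ⟨h.1, h.2.2⟩, fun h => ⟨h.1, hq0, h.2⟩⟩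
  have hT : ∀ σ : AlgebraicClosure K ≃ₐ[K] AlgebraicClosure K, ∀ θ ∈ T, σ θ ∈ T := by
    intro σ θ hθ
    rw [hmem] at hθ ⊢
    refine ⟨(map_ne_zero_iff σ σ.injective).2 hθ.1, ?_⟩
    have h1 : aeval (σ θ) q = σ (aeval θ q) := aeval_algHom_apply
      (σ : AlgebraicClosure K →ₐ[K] AlgebraicClosure K) θ _
    rw [h1, hθ.2, map_zero]
  have hT0 : ∀ θ ∈ T, θ ≠ 0 := fun θ hθ => ((hmem θ).1 hθ).1
  have hloc : ∀ v : HeightOneSpectrum (𝓞 K),
      ∀ (ι : AlgebraicClosure K →ₐ[K] AlgebraicClosure (v.adicCompletion K)), ∃ θ ∈ T,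
      ι θ = algebraMap (v.adicCompletion K) (AlgebraicClosure (v.adicCompletion K)) (t v) := by
    intro v ι
    have hsp : (q.map (algebraMap K (AlgebraicClosure K))).Splits := IsAlgClosed.splits _
    have h0 : q.map (algebraMap K (AlgebraicClosure K)) ≠ 0 :=
      (Polynomial.map_ne_zero_iff (algebraMap K (AlgebraicClosure K)).injective).2 hq0
    have hqv : aeval (algebraMap (v.adicCompletion K)
        (AlgebraicClosure (v.adicCompletion K)) (t v)) q = 0 := by
      rw [aeval_algebraMap_apply, hq v, map_zero]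
    obtain ⟨β, hβ⟩ := hsp.mem_range_of_isRoot
      (i := (ι : AlgebraicClosure K →+* AlgebraicClosure (v.adicCompletion K)))
      (x := algebraMap (v.adicCompletion K) (AlgebraicClosure (v.adicCompletion K)) (t v)) h0 (by
        rw [IsRoot.def, eval_map, eval₂_map]
        have e1 : (ι : AlgebraicClosure K →+*
            AlgebraicClosure (v.adicCompletion K)).comp (algebraMap K (AlgebraicClosure K)) =
            algebraMap K (AlgebraicClosure (v.adicCompletion K)) := ι.comp_algebraMap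
        rw [e1]
        exact hqv)
    have hβ' : ι β = algebraMap (v.adicCompletion K)
      (AlgebraicClosure (v.adicCompletion K)) (t v) := hβ
    refine ⟨β, (hmem β).2 ⟨?_, ?_⟩, hβ'⟩
    · rintro rfl
      rw [map_zero] at hβ'
      exact (_root_.map_ne_zero _).2 (ht0 v) hβ'.symm
    · have h1 : ι (aeval β q) = 0 := by
        rw [← aeval_algHom_apply ι β q, hβ', hqv]
      exact (_root_.map_eq_zero _).1 h1
  obtain ⟨L, _, _, _, i, τ, κ, hκi, hκτ, hκs⟩ := Pool.Agent.TH120.Sec.exists_L K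
    (T : Set (AlgebraicClosure K)) (Finset.finite_toSet _) 1
  have hsex : ∀ θ, ∃ y : L, θ ∈ T → κ y = θ := by
    intro θ
    by_cases hθ : θ ∈ T
    · obtain ⟨y, hy⟩ := hκs θ (Finset.mem_coe.2 hθ)
      exact ⟨y, fun _ => hy⟩
    · exact ⟨0, fun h => absurd h hθ⟩
  choose s hs using hsex
  set B := T.card.factorial *
      ((2 ^ Nat.card (L ≃ₐ[ℚ] L) - 1) * (3 ^ Nat.card (L ≃ₐ[ℚ] L) - 1)) with hB
  have hB1 : 1 ≤ B := by
    have hd : 1 ≤ Nat.card (L ≃ₐ[ℚ] L) := Nat.card_pos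
    have h2 : 2 ≤ 2 ^ Nat.card (L ≃ₐ[ℚ] L) := by
      calc 2 = 2 ^ 1 := rfl
        _ ≤ _ := Nat.pow_le_pow_right (by norm_num) hd
    have h3 : 3 ≤ 3 ^ Nat.card (L ≃ₐ[ℚ] L) := by
      calc 3 = 3 ^ 1 := rfl
        _ ≤ _ := Nat.pow_le_pow_right (by norm_num) hd
    have h4 : 0 < T.card.factorial := Nat.factorial_pos _
    have h5 : 0 < 2 ^ Nat.card (L ≃ₐ[ℚ] L) - 1 := by omega
    have h6 : 0 < 3 ^ Nat.card (L ≃ₐ[ℚ] L) - 1 := by omega
    exact Nat.mul_pos h4 (Nat.mul_pos h5 h6)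
  have hfinU : {u : L | ∃ θ ∈ T, ∃ ω : L, ω ^ B = 1 ∧ u = s θ / ω}.Finite := by
    have h1 : {ω : L | ω ^ B = 1}.Finite := by
      refine ((nthRoots B (1 : L)).toFinset.finite_toSet).subset (fun ω hω => ?_)
      rw [Finset.mem_coe, Multiset.mem_toFinset, mem_nthRoots (by omega)]
      exact hω
    refine ((T.finite_toSet.prod h1).image (fun p => s p.1 / p.2)).subset ?_
    rintro u ⟨θ, hθ, ω, hω, rfl⟩
    exact ⟨(θ, ω), ⟨hθ, hω⟩, rfl⟩
  obtain ⟨u, -, hu⟩ := exists_cofinal _ hfinU (fun N u => ∃ (c : K) (y : L), c ≠ 0 ∧ y ≠ 0 ∧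
      (∀ v, ∃ z, t v = algebraMap K (v.adicCompletion K) c * z ^ (B * N)) ∧
      u = i c * y ^ N) (by
    intro N hN
    obtain ⟨c, hc⟩ := hk (B * N) (Nat.mul_pos hB1 hN)
    choose z hz using hc
    obtain ⟨v0⟩ := exists_place K
    have hc0 : c ≠ 0 := by
      rintro rfl
      apply ht0 v0
      rw [hz v0, map_zero, zero_mul]
    obtain ⟨θ, hθ, y, hy⟩ := zed_step i κ hκi T hT hT0 s hs (Nat.mul_pos hB1 hN) hc0 z (by
      intro v ι
      rw [← hz v]
      exact hloc v ι)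
    have hic : i c ≠ 0 := (_root_.map_ne_zero _).2 hc0
    have hsθ : s θ ≠ 0 := by
      intro h0
      have h1 := hs θ hθ
      rw [h0, map_zero] at h1
      exact hT0 θ hθ h1.symm
    have hy0 : y ≠ 0 := by
      rintro rfl
      rw [zero_pow (Nat.mul_pos hB1 hN).ne'] at hy
      exact pow_ne_zero _ (div_ne_zero hsθ hic) hy.symm
    refine ⟨i c * y ^ N, ⟨θ, hθ, s θ / (i c * y ^ N), ?_, ?_⟩, c, y, hc0, hy0,
      fun v => ⟨z v, hz v⟩, rfl⟩
    · rw [← div_div, div_pow, ← hy, ← pow_mul, mul_comm N B, div_self (pow_ne_zero _ hy0)]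
    · rw [div_div_eq_mul_div, mul_div_cancel_left₀ _ hsθ])
  -- all embeddings of `u` give the local element
  have hemb : ∀ (v : HeightOneSpectrum (𝓞 K)) (w : HeightOneSpectrum (𝓞 L))
      (j : v.adicCompletion K →+* w.adicCompletion L) (e : L →+* w.adicCompletion L),
      (∀ x : K, j (algebraMap K _ x) = e (i x)) → j (t v) = e u := by
    intro v w j e hje
    have hu0 : u ≠ 0 := by
      obtain ⟨N, hN, -, c, y, hc0, hy0, -, hu1⟩ := hu 1 le_rfl
      rw [hu1]
      exact mul_ne_zero ((_root_.map_ne_zero _).2 hc0) (pow_ne_zero _ hy0)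
    have heu : e u ≠ 0 := (_root_.map_ne_zero _).2 hu0
    have hjt : j (t v) ≠ 0 := (_root_.map_ne_zero _).2 (ht0 v)
    have key : j (t v) / e u = 1 := by
      refine eq_one_of_pow w (div_ne_zero hjt heu) (fun n hn => ?_)
      obtain ⟨N, hN, ⟨m, rfl⟩, c, y, hc0, hy0, hz, hu1⟩ := hu n hn
      obtain ⟨z, hz⟩ := hz v
      refine ⟨(j z ^ B / e y) ^ m, ?_⟩
      have hey : e y ≠ 0 := (_root_.map_ne_zero _).2 hy0
      have heic : e (i c) ≠ 0 := (_root_.map_ne_zero _).2 ((_root_.map_ne_zero _).2 hc0)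
      rw [hz, hu1, map_mul, map_mul, map_pow, map_pow, hje, ← pow_mul, mul_comm m n, div_pow,
        ← pow_mul]
      rw [mul_div_mul_left _ _ heic]
    rw [div_eq_one_iff_eq heu] at key
    exact key
  -- `u` is rational
  obtain ⟨v0⟩ := exists_place K
  have hinv : ∀ g : L ≃+* L, (∀ x, g (i x) = i x) → g u = u := by
    intro g hg
    obtain ⟨w, j, hj⟩ := exists_above i v0
    have h1 := hemb v0 w j (algebraMap L _) hj
    have h2 := hemb v0 w j ((algebraMap L (w.adicCompletion L)).comp (g : L →+* L)) (by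
      intro x
      change j _ = algebraMap L _ (g (i x))
      rw [hg, hj])
    rw [h1] at h2
    exact ((algebraMap L (w.adicCompletion L)).injective h2).symm
  obtain ⟨y0, hy0⟩ : ∃ y0 : K, i y0 = u := by
    let _ : Algebra K L := i.toAlgebra
    have : IsScalarTower ℚ K L := IsScalarTower.of_algebraMap_eq (fun x => by
      rw [eq_ratCast, eq_ratCast, map_ratCast])
    have : IsGalois K L := IsGalois.tower_top_of_isGalois ℚ K L
    have h1 : u ∈ (⊥ : IntermediateField K L) := by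
      apply Pool.Agent.W620.SC.mem_of_fixed
      intro σ _
      exact hinv σ.toRingEquiv (fun x => σ.commutes x)
    exact IntermediateField.mem_bot.1 h1
  refine ⟨y0, fun v => ?_⟩
  obtain ⟨w, j, hj⟩ := exists_above i v
  apply j.injective
  rw [hemb v w j (algebraMap L _) hj, hj, hy0]

end Pool.Agent.V8H94.SC
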